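import Pool.Agent.Lib.MP_95e7ec_an.Dy.DDefs

/-!
# Dynamics with arbitrary positive exponents: basic inequalities in the region
-/

set_option autoImplicit false

open Set Filter Topology

namespace Pool.Agent.Lib.MP_95e7ec_an.Dy

open Pool.Agent.Lib.MP_95e7ec_an.Pw

variable {α x0 β : ℝ} {a h h1 : ℝ → ℝ} {mu K : ℝ}

/-- The region is an interval in `y`. -/
theorem Reg.between {K H y y' v : ℝ} (hK : 1 ≤ K) (h1 : Reg K H y) (h2 : Reg K H y')
    (hv : v ∈ Icc y y') : Reg K H v := by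
  obtain ⟨a1, a2, a3⟩ := h1
  obtain ⟨b1, b2, b3⟩ := h2
  refine ⟨by linarith [hv.1], ?_, by linarith [hv.2]⟩
  nlinarith [hv.1]

theorem Reg.abs_le {K H y : ℝ} (h : Reg K H y) : |H| ≤ y + |y - H| := by
  have h1 := abs_sub_abs_le_abs_sub H y
  rw [abs_of_pos h.1, abs_sub_comm] at h1
  linarith

theorem Reg.s_pos {K H y : ℝ} (h : Reg K H y) : 0 < y + |y - H| := by
  have := abs_nonneg (y - H)
  linarith [h.1]

/-- `D ≥ (y + |w|) / (4 K)`; also used with `mu` in place of `a`. -/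
theorem Reg.lin_ge {K H y c : ℝ} (hK : 1 ≤ K) (h : Reg K H y) (hc : 1 ≤ K * c) (hc' : c ≤ K) :
    y + |y - H| ≤ 4 * K * (y + c * (y - H)) := by
  obtain ⟨a1, a2, a3⟩ := h
  have hc0 : 0 < c := by nlinarith
  rcases le_or_gt 0 (y - H) with h0 | h0
  · rw [abs_of_nonneg h0]
    nlinarith [mul_nonneg (sub_nonneg.2 hc) h0]
  · rw [abs_of_neg h0]
    have e1 : c * (-(y - H)) ≤ K * (-(y - H)) := mul_le_mul_of_nonneg_right hc' (by linarith)
    have e2 : K * (-(y - H)) ≤ y / 4 := by linarith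
    have e3 : -(y - H) ≤ y / 4 := by nlinarith
    nlinarith

theorem Hf.den_ge (D : Hf α x0 β a h h1 mu K) {x y : ℝ} (hx : x ∈ Icc α β) (hy : Reg K (h x) y) :
    y + |y - h x| ≤ 4 * K * den a h x y := by
  have e : den a h x y = y + a x * (y - h x) := by unfold den; ring
  rw [e]
  exact hy.lin_ge D.K1 (D.a_lo x hx) (D.a_up x hx)

theorem Hf.den_pos (D : Hf α x0 β a h h1 mu K) {x y : ℝ} (hx : x ∈ Icc α β)
    (hy : Reg K (h x) y) : 0 < den a h x y := by
  have h1 := D.den_ge hx hy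
  have h2 := hy.s_pos
  have h3 := D.K1
  by_contra hc
  rw [not_lt] at hc
  nlinarith

theorem Hf.lt (D : Hf α x0 β a h h1 mu K) : α < β := D.lt0.trans D.lt1

theorem Hf.x0_mem (D : Hf α x0 β a h h1 mu K) : x0 ∈ Icc α β := ⟨D.lt0.le, D.lt1.le⟩

theorem Hf.left_mem (D : Hf α x0 β a h h1 mu K) : α ∈ Icc α β := ⟨le_refl _, D.lt.le⟩

theorem Hf.right_mem (D : Hf α x0 β a h h1 mu K) : β ∈ Icc α β := ⟨D.lt.le, le_refl _⟩

theorem Hf.K0 (D : Hf α x0 β a h h1 mu K) : 0 < K := lt_of_lt_of_le one_pos D.K1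

theorem Hf.mu_pos (D : Hf α x0 β a h h1 mu K) : 0 < mu := by
  have := D.K0
  have := D.mu_lo
  nlinarith

theorem Hf.a_pos (D : Hf α x0 β a h h1 mu K) {x : ℝ} (hx : x ∈ Icc α β) : 0 < a x := by
  have := D.K0
  have := D.a_lo x hx
  nlinarith

theorem Hf.cont_h (D : Hf α x0 β a h h1 mu K) : Continuous h :=
  continuous_iff_continuousAt.2 fun x => (D.deriv x).continuousAt

theorem Hf.strictMono (D : Hf α x0 β a h h1 mu K) : StrictMonoOn h (Icc α β) := by
  apply strictMonoOn_of_deriv_pos (convex_Icc _ _) D.cont_h.continuousOn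
  intro x hx
  rw [interior_Icc] at hx
  rw [(D.deriv x).deriv]
  exact D.h1_pos x hx

theorem Hf.abs_h_le (D : Hf α x0 β a h h1 mu K) {x : ℝ} (hx : x ∈ Icc α β) : |h x| ≤ 1 / 4 := by
  have hm := D.strictMono.monotoneOn
  have e1 := hm D.left_mem hx hx.1
  have e2 := hm hx D.right_mem hx.2
  rw [D.h_start] at e1
  rw [D.h_end] at e2
  rw [_root_.abs_le]
  constructor <;> linarith

theorem Hf.h_neg (D : Hf α x0 β a h h1 mu K) {x : ℝ} (hx : x ∈ Ico α x0) : h x < 0 := by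
  have := D.strictMono ⟨hx.1, (hx.2.trans D.lt1).le⟩ D.x0_mem hx.2
  rwa [D.h_zero] at this

theorem Hf.h_pos (D : Hf α x0 β a h h1 mu K) {x : ℝ} (hx : x ∈ Ioc x0 β) : 0 < h x := by
  have := D.strictMono D.x0_mem ⟨(D.lt0.trans hx.1).le, hx.2⟩ hx.1
  rwa [D.h_zero] at this

theorem Hf.h_ne (D : Hf α x0 β a h h1 mu K) {x : ℝ} (hx : x ∈ Icc α β) (h0 : x ≠ x0) :
    h x ≠ 0 := by
  rcases lt_or_gt_of_ne h0 with h1 | h1
  · exact (D.h_neg ⟨hx.1, h1⟩).ne
  · exact (D.h_pos ⟨h1, hx.2⟩).ne'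

/-- `P' = k P + E` along a solution. -/
theorem PP_derivK (D : Hf α x0 β a h h1 mu K) {g y : ℝ → ℝ} (hS : SolK K a h h1 g α β y)
    {x : ℝ} (hx : x ∈ Icc α β) :
    HasDerivWithinAt (PP mu h y) (kk mu a h h1 y x * PP mu h y x +
      EE mu a h h1 (fun t => h t * g t) y x) (Icc α β) x := by
  obtain ⟨hr, hd⟩ := hS x hx
  have hy := hr.1
  have hD : 0 < den a h x (y x) := D.den_pos hx hr
  have e1 : HasDerivWithinAt (fun t => y t - h t)
      (rhs a h h1 (fun t => h t * g t) x (y x) - h1 x) (Icc α β) x :=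
    hd.sub (D.deriv x).hasDerivWithinAt
  have e2 : HasDerivWithinAt (fun t => (y t) ^ mu)
      (rhs a h h1 (fun t => h t * g t) x (y x) * mu * (y x) ^ (mu - 1)) (Icc α β) x :=
    hd.rpow_const (Or.inl hy.ne')
  have e3 := e1.mul e2
  refine HasDerivWithinAt.congr_deriv e3 ?_
  have e4 : (y x) ^ (mu - 1) = (y x) ^ mu / y x := Real.rpow_sub_one hy.ne' _
  rw [e4]
  unfold rhs kk EE PP
  have hD' : den a h x (y x) = y x + a x * (y x - h x) := by unfold den; ring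
  field_simp
  rw [hD']
  ring

end Pool.Agent.Lib.MP_95e7ec_an.Dy
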