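import Pool.Agent.Lib.MP_95e7ec_an.Dy.DBasic

/-!
# Half period: a priori bounds
-/

set_option autoImplicit false

open Set Filter Topology

namespace Pool.Agent.Lib.MP_95e7ec_an.Dy

open Pool.Agent.Lib.MP_95e7ec_an.Pw

variable {α x0 β : ℝ} {a h h1 : ℝ → ℝ} {mu K : ℝ}

/-- `k` is bounded along the whole half period. -/
theorem kk_leK (D : Hf α x0 β a h h1 mu K) {g y : ℝ → ℝ} (hS : SolK K a h h1 g α β y)
    {x : ℝ} (hx : x ∈ Icc α β) : |kk mu a h h1 y x| ≤ 4 * K ^ 3 := by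
  have hr := (hS x hx).1
  have hK := D.K0
  have hD : 0 < den a h x (y x) := D.den_pos hx hr
  unfold kk
  rw [abs_div, abs_mul, abs_of_pos hD, div_le_iff₀ hD]
  have e1 : |mu - a x| ≤ K * |h x| := by rw [abs_sub_comm]; exact D.a_lip x hx
  have e2 : |h x| ≤ 4 * K * den a h x (y x) := hr.abs_le.trans (D.den_ge hx hr)
  have e3 := D.h1_le x hx
  calc |mu - a x| * |h1 x| ≤ (K * |h x|) * K :=
        mul_le_mul e1 e3 (abs_nonneg _) (mul_nonneg hK.le (abs_nonneg _))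
    _ ≤ (K * (4 * K * den a h x (y x))) * K :=
        mul_le_mul_of_nonneg_right (mul_le_mul_of_nonneg_left e2 hK.le) hK.le
    _ = 4 * K ^ 3 * den a h x (y x) := by ring

/-- The inhomogeneous term is bounded. -/
theorem EE_leK (D : Hf α x0 β a h h1 mu K) {g y : ℝ → ℝ} {η : ℝ} (hg : Adm α β η g)
    (hS : SolK K a h h1 g α β y) {x : ℝ} (hx : x ∈ Icc α β) :
    |EE mu a h h1 (fun t => h t * g t) y x| ≤ K ^ 4 * η := by
  have hr := (hS x hx).1
  have hy := hr.1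
  have hK := D.K0
  have hK1 := D.K1
  have hmu := D.mu_pos
  have hD : 0 < den a h x (y x) := D.den_pos hx hr
  have hU : 0 < (y x) ^ mu := Real.rpow_pos_of_pos hy _
  have hU1 : (y x) ^ mu ≤ 1 := Real.rpow_le_one hy.le hr.2.2 hmu.le
  have hη0 : 0 ≤ η := (abs_nonneg _).trans (hg.2 x hx)
  have e1 : |y x + mu * (y x - h x)| ≤ K * (y x + |y x - h x|) := by
    calc |y x + mu * (y x - h x)| ≤ |y x| + |mu * (y x - h x)| := abs_add_le _ _
      _ = y x + mu * |y x - h x| := by rw [abs_of_pos hy, abs_mul, abs_of_pos hmu]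
      _ ≤ K * (y x + |y x - h x|) := by
          have e0 := mul_le_mul_of_nonneg_right D.mu_up (abs_nonneg (y x - h x))
          have e0' := mul_le_mul_of_nonneg_right hK1 hy.le
          linarith
  have e2 : |(y x) ^ mu * (y x + mu * (y x - h x)) / den a h x (y x)| ≤ 4 * K ^ 2 := by
    rw [abs_div, abs_mul, abs_of_pos hD, abs_of_pos hU, div_le_iff₀ hD]
    have e3 : |y x + mu * (y x - h x)| ≤ K * (4 * K * den a h x (y x)) :=
      e1.trans (mul_le_mul_of_nonneg_left (D.den_ge hx hr) hK.le)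
    calc (y x) ^ mu * |y x + mu * (y x - h x)| ≤ 1 * (K * (4 * K * den a h x (y x))) :=
          mul_le_mul hU1 e3 (abs_nonneg _) zero_le_one
      _ = 4 * K ^ 2 * den a h x (y x) := by ring
  have e4 : |h1 x| ^ 2 ≤ K ^ 2 := pow_le_pow_left₀ (abs_nonneg _) (D.h1_le x hx) 2
  have e5 : |h x * g x| ≤ 1 / 4 * η := by
    rw [abs_mul]
    exact mul_le_mul (D.abs_h_le hx) (hg.2 x hx) (abs_nonneg _) (by norm_num)
  unfold EE
  rw [abs_mul, abs_mul, abs_pow]
  have e6 : |h1 x| ^ 2 * |h x * g x| ≤ K ^ 2 * (1 / 4 * η) :=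
    mul_le_mul e4 e5 (abs_nonneg _) (sq_nonneg _)
  calc |h1 x| ^ 2 * |h x * g x| *
        |(y x) ^ mu * (y x + mu * (y x - h x)) / den a h x (y x)|
      ≤ (K ^ 2 * (1 / 4 * η)) * (4 * K ^ 2) :=
        mul_le_mul e6 e2 (abs_nonneg _) (mul_nonneg (sq_nonneg _) (by positivity))
    _ = K ^ 4 * η := by ring

theorem PP_boundK (D : Hf α x0 β a h h1 mu K) : ∃ C : ℝ, 1 ≤ C ∧ ∀ (g y : ℝ → ℝ) (η : ℝ),
    0 ≤ η → η ≤ 1 / (2 * K ^ 2) → Adm α β η g → SolK K a h h1 g α β y →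
    ∀ x ∈ Icc α β, |PP mu h y x| ≤ C * ((y α) ^ mu + η) := by
  have hK := D.K0
  have hK1 := D.K1
  have hab := D.lt
  set Q : ℝ := 4 * K ^ 3 + 1 with hQ
  have hQ1 : 1 ≤ Q := by have : 0 ≤ K ^ 3 := by positivity
                         rw [hQ]; linarith
  have hE1 : 1 ≤ Real.exp (Q * (β - α)) :=
    Real.one_le_exp (mul_nonneg (by linarith) (by linarith))
  have hK4 : 0 ≤ K ^ 4 := by positivity
  refine ⟨Real.exp (Q * (β - α)) * (2 + K ^ 4), ?_, ?_⟩
  · nlinarith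
  intro g y η hη0 _ hg hS x hx
  have hyα : 0 < y α := (hS α D.left_mem).1.1
  set E0 : ℝ := K ^ 4 * η with hE0
  have hE0' : 0 ≤ E0 := mul_nonneg hK4 hη0
  have hcont : ContinuousOn (PP mu h y) (Icc α β) := fun t ht =>
    (PP_derivK D hS ht).continuousWithinAt
  have hder : ∀ t ∈ Ico α β, HasDerivWithinAt (PP mu h y)
      (kk mu a h h1 y t * PP mu h y t + EE mu a h h1 (fun t => h t * g t) y t) (Ici t) t :=
    fun t ht =>
      (PP_derivK D hS (Ico_subset_Icc_self ht)).mono_of_mem_nhdsWithin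
        (Icc_mem_nhdsGE_of_mem ht)
  have hbd : ∀ t ∈ Ico α β,
      ‖kk mu a h h1 y t * PP mu h y t + EE mu a h h1 (fun t => h t * g t) y t‖ ≤
      Q * ‖PP mu h y t‖ + E0 := by
    intro t ht
    have ht' := Ico_subset_Icc_self ht
    have e1 := kk_leK D hS ht'
    have e2 := EE_leK D hg hS ht'
    rw [Real.norm_eq_abs, Real.norm_eq_abs]
    calc |kk mu a h h1 y t * PP mu h y t + EE mu a h h1 (fun t => h t * g t) y t|
        ≤ |kk mu a h h1 y t| * |PP mu h y t| +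
          |EE mu a h h1 (fun t => h t * g t) y t| := by
          rw [← abs_mul]; exact abs_add_le _ _
      _ ≤ Q * |PP mu h y t| + E0 := by
          refine add_le_add (mul_le_mul_of_nonneg_right ?_ (abs_nonneg _)) e2
          rw [hQ]; linarith
  have hg2 := norm_le_gronwallBound_of_norm_deriv_right_le hcont hder
    (le_refl ‖PP mu h y α‖) hbd x hx
  rw [Real.norm_eq_abs, Real.norm_eq_abs, gronwallBound_of_K_ne_0 (by linarith)] at hg2
  have hPα : |PP mu h y α| ≤ 2 * (y α) ^ mu := by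
    have hy1 := (hS α D.left_mem).1.2.2
    unfold PP
    rw [D.h_start, abs_mul, abs_of_pos (Real.rpow_pos_of_pos hyα mu)]
    refine mul_le_mul_of_nonneg_right ?_ (Real.rpow_nonneg hyα.le _)
    rw [abs_of_pos (by linarith)]
    linarith
  have hexp : Real.exp (Q * (x - α)) ≤ Real.exp (Q * (β - α)) := by
    refine Real.exp_le_exp.2 (mul_le_mul_of_nonneg_left ?_ (by linarith))
    linarith [hx.2]
  have hexp1 : 0 < Real.exp (Q * (x - α)) := Real.exp_pos _
  have h2 : E0 / Q * (Real.exp (Q * (x - α)) - 1) ≤ E0 * Real.exp (Q * (β - α)) := by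
    have h3 : E0 / Q ≤ E0 := div_le_self hE0' hQ1
    have h4 : 0 ≤ Real.exp (Q * (x - α)) - 1 := by
      have : (1 : ℝ) ≤ Real.exp (Q * (x - α)) :=
        Real.one_le_exp (mul_nonneg (by linarith) (by linarith [hx.1]))
      linarith
    calc E0 / Q * (Real.exp (Q * (x - α)) - 1) ≤ E0 * (Real.exp (Q * (x - α)) - 1) :=
          mul_le_mul_of_nonneg_right h3 h4
      _ ≤ E0 * Real.exp (Q * (β - α)) := mul_le_mul_of_nonneg_left (by linarith) hE0'
  have h5 : |PP mu h y α| * Real.exp (Q * (x - α)) ≤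
      2 * (y α) ^ mu * Real.exp (Q * (β - α)) :=
    mul_le_mul hPα hexp hexp1.le (by positivity)
  have h6 : 0 ≤ (y α) ^ mu := Real.rpow_nonneg hyα.le _
  have h7 : 0 < Real.exp (Q * (β - α)) := Real.exp_pos _
  calc |PP mu h y x| ≤ 2 * (y α) ^ mu * Real.exp (Q * (β - α)) +
        E0 * Real.exp (Q * (β - α)) := hg2.trans (add_le_add h5 h2)
    _ = Real.exp (Q * (β - α)) * (2 * (y α) ^ mu + K ^ 4 * η) := by rw [hE0]; ring
    _ ≤ Real.exp (Q * (β - α)) * ((2 + K ^ 4) * ((y α) ^ mu + η)) := by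
        refine mul_le_mul_of_nonneg_left ?_ h7.le
        nlinarith [mul_nonneg hK4 h6]
    _ = Real.exp (Q * (β - α)) * (2 + K ^ 4) * ((y α) ^ mu + η) := by ring

/-- Away from `x0` the solutions with small start are near `max h 0`. -/
theorem region_small (D : Hf α x0 β a h h1 mu K) (ε : ℝ) (hε : 0 < ε) :
    ∃ r : ℝ, 0 < r ∧ r ≤ 1 / (2 * K ^ 2) ∧ ∀ g y : ℝ → ℝ, Adm α β r g →
      SolK K a h h1 g α β y → y α ≤ r → ∀ x ∈ Icc α β, ε ≤ |h x| →
      |y x - max (h x) 0| ≤ ε * |h x| := by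
  obtain ⟨C, hC1, hC⟩ := PP_boundK D
  have hK := D.K0
  have hK1 := D.K1
  have hmu := D.mu_pos
  have hC0 : 0 < C := by linarith
  have hA : 0 < ε * (ε ^ 2) ^ mu := mul_pos hε (Real.rpow_pos_of_pos (by positivity) _)
  have hB : 0 < ε ^ 2 * (4 / 5 * ε) ^ mu :=
    mul_pos (by positivity) (Real.rpow_pos_of_pos (by positivity) _)
  obtain ⟨m, hm0, hmA, hmB⟩ : ∃ m : ℝ, 0 < m ∧ m ≤ ε * (ε ^ 2) ^ mu ∧
      m ≤ ε ^ 2 * (4 / 5 * ε) ^ mu :=
    ⟨min _ _, lt_min hA hB, min_le_left _ _, min_le_right _ _⟩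
  have hq : 0 < m / (2 * C) := by positivity
  obtain ⟨r, hr0, hrK, hr1, hr2⟩ : ∃ r : ℝ, 0 < r ∧ r ≤ 1 / (2 * K ^ 2) ∧ r ≤ m / (2 * C) ∧
      r ≤ (m / (2 * C)) ^ (1 / mu) := by
    refine ⟨min (1 / (2 * K ^ 2)) (min (m / (2 * C)) ((m / (2 * C)) ^ (1 / mu))), ?_,
      min_le_left _ _, (min_le_right _ _).trans (min_le_left _ _),
      (min_le_right _ _).trans (min_le_right _ _)⟩
    exact lt_min (by positivity) (lt_min hq (Real.rpow_pos_of_pos hq _))
  have hrmu : r ^ mu ≤ m / (2 * C) := by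
    calc r ^ mu ≤ ((m / (2 * C)) ^ (1 / mu)) ^ mu := Real.rpow_le_rpow hr0.le hr2 hmu.le
      _ = m / (2 * C) := by
          rw [← Real.rpow_mul hq.le, one_div, inv_mul_cancel₀ hmu.ne', Real.rpow_one]
  refine ⟨r, hr0, hrK, fun g y hg hS hyr x hx hhx => ?_⟩
  have hyα : 0 < y α := (hS α D.left_mem).1.1
  have hP := hC g y r hr0.le hrK hg hS x hx
  have hPm : |PP mu h y x| ≤ m := by
    refine hP.trans ?_
    have e1 : (y α) ^ mu ≤ r ^ mu := Real.rpow_le_rpow hyα.le hyr hmu.le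
    have e2 : C * ((y α) ^ mu + r) ≤ C * (m / (2 * C) + m / (2 * C)) :=
      mul_le_mul_of_nonneg_left (by linarith) hC0.le
    have e3 : C * (m / (2 * C) + m / (2 * C)) = m := by field_simp; norm_num
    linarith
  obtain ⟨hy, hreg, hy1⟩ := (hS x hx).1
  have hU : 0 < (y x) ^ mu := Real.rpow_pos_of_pos hy _
  have hPe : |PP mu h y x| = |y x - h x| * (y x) ^ mu := by
    unfold PP
    rw [abs_mul, abs_of_pos hU]
  rw [hPe] at hPm
  have hh2 : ε ^ 2 ≤ ε * |h x| := by rw [sq]; exact mul_le_mul_of_nonneg_left hhx hε.le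
  rcases le_or_gt 0 (h x) with h0 | h0
  · -- `h ≥ ε`
    rw [abs_of_nonneg h0] at hhx
    have e1 : 4 / 5 * ε ≤ y x := by
      have e2 : 4 * K * h x ≤ (4 * K + 1) * y x := by linarith
      have e3 : 4 / 5 * h x ≤ y x := by
        by_contra hc
        rw [not_le] at hc
        nlinarith
      linarith
    have e2 : (4 / 5 * ε) ^ mu ≤ (y x) ^ mu := Real.rpow_le_rpow (by positivity) e1 hmu.le
    have e3 : 0 < (4 / 5 * ε) ^ mu := Real.rpow_pos_of_pos (by positivity) _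
    have e4 : |y x - h x| * (4 / 5 * ε) ^ mu ≤ ε ^ 2 * (4 / 5 * ε) ^ mu :=
      (mul_le_mul_of_nonneg_left e2 (abs_nonneg _)).trans (hPm.trans hmB)
    rw [max_eq_left h0]
    exact (le_of_mul_le_mul_right e4 e3).trans hh2
  · -- `h ≤ - ε`
    rw [abs_of_neg h0] at hhx
    have e1 : ε ≤ |y x - h x| := by
      rw [abs_of_pos (by linarith)]
      linarith
    have e2 : ε * (y x) ^ mu ≤ ε * (ε ^ 2) ^ mu :=
      (mul_le_mul_of_nonneg_right e1 hU.le).trans (hPm.trans hmA)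
    have e3 : (y x) ^ mu ≤ (ε ^ 2) ^ mu := le_of_mul_le_mul_left e2 hε
    have e4 : y x ≤ ε ^ 2 := (Real.rpow_le_rpow_iff hy.le (by positivity) hmu).1 e3
    rw [max_eq_right h0.le, sub_zero, abs_of_pos hy]
    exact e4.trans hh2

end Pool.Agent.Lib.MP_95e7ec_an.Dy
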