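import Mathlib
import Pool.Agent.Lib.MP_fe5ad6_lc.Miranda

/-!
# The Poincaré-Miranda step

A continuous map of the cube `|x_i| ≤ r` which is near the identity takes every small value.
-/

set_option autoImplicit false

open Set Filter Topology

namespace Pool.Agent.Lib.MP_95e7ec_an.Dy

/-- A continuous map of the cube `|x_i| ≤ r` at distance at most `r / 2` from the identity takes
every value `v` with `|v_i| ≤ r / 2`. -/
theorem box_surj (n : ℕ) {r : ℝ} (hr : 0 < r) (b : (Fin n → ℝ) → Fin n → ℝ)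
    (hb : ContinuousOn b {x | ∀ i, |x i| ≤ r})
    (hnear : ∀ x : Fin n → ℝ, (∀ i, |x i| ≤ r) → ∀ i, |b x i - x i| ≤ r / 2)
    (v : Fin n → ℝ) (hv : ∀ i, |v i| ≤ r / 2) :
    ∃ x : Fin n → ℝ, (∀ i, |x i| ≤ r) ∧ b x = v := by
  classical
  let X : (ℕ → unitInterval) → Fin n → ℝ := fun x i => r * (2 * (x i : ℝ) - 1)
  have hXc : Continuous X := by
    refine continuous_pi fun i => ?_
    exact (continuous_const.mul
      ((continuous_const.mul (continuous_subtype_val.comp (continuous_apply (i : ℕ)))).sub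
        continuous_const))
  have hXm : ∀ x, X x ∈ {x : Fin n → ℝ | ∀ i, |x i| ≤ r} := by
    intro x i
    have h0 := (x i).2.1
    have h1 := (x i).2.2
    simp only [X]
    rw [abs_le]
    constructor <;> nlinarith
  have hbX : Continuous fun x => b (X x) := hb.comp_continuous hXc hXm
  let F : ℕ → (ℕ → unitInterval) → ℝ := fun m x =>
    if h : m < n then v ⟨m, h⟩ - b (X x) ⟨m, h⟩ else 1 / 2 - (x m : ℝ)
  have hFc : ∀ m, Continuous (F m) := by
    intro m
    by_cases h : m < n
    · simp only [F, dif_pos h]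
      exact continuous_const.sub ((continuous_apply _).comp hbX)
    · simp only [F, dif_neg h]
      exact continuous_const.sub (continuous_subtype_val.comp (continuous_apply m))
  obtain ⟨x, hx⟩ := Pool.Agent.Lib.MP_fe5ad6_lc.Miranda.cube_miranda F hFc
    (by
      intro m x h0
      by_cases h : m < n
      · simp only [F, dif_pos h]
        have h1 := abs_le.1 (hnear (X x) (hXm x) ⟨m, h⟩)
        have h2 := abs_le.1 (hv ⟨m, h⟩)
        have h3 : X x ⟨m, h⟩ = -r := by simp only [X, h0]; ring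
        rw [h3] at h1
        linarith [h1.1, h1.2, h2.1, h2.2]
      · simp only [F, dif_neg h, h0]
        norm_num)
    (by
      intro m x h0
      by_cases h : m < n
      · simp only [F, dif_pos h]
        have h1 := abs_le.1 (hnear (X x) (hXm x) ⟨m, h⟩)
        have h2 := abs_le.1 (hv ⟨m, h⟩)
        have h3 : X x ⟨m, h⟩ = r := by simp only [X, h0]; ring
        rw [h3] at h1
        linarith [h1.1, h1.2, h2.1, h2.2]
      · simp only [F, dif_neg h, h0]
        norm_num)
  refine ⟨X x, hXm x, ?_⟩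
  funext i
  have h := hx i
  simp only [F, dif_pos i.2] at h
  have : b (X x) ⟨(i : ℕ), i.2⟩ = b (X x) i := rfl
  rw [this] at h
  have h2 : v ⟨(i : ℕ), i.2⟩ = v i := rfl
  rw [h2] at h
  linarith

/-- If `|b_i(x) - x_i| ≤ max |x_j| / 2` on the cube `|x_i| ≤ r0` (in the form: `≤ s / 2` as soon as
`|x_j| ≤ s ≤ r0` for all `j`), then every value `v` with `|v_i| ≤ s / 2`, `0 < s ≤ r0`, is taken on
the cube `|x_i| ≤ s`. -/
theorem box_surj_rel (n : ℕ) {r0 : ℝ} (b : (Fin n → ℝ) → Fin n → ℝ)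
    (hb : ContinuousOn b {x | ∀ i, |x i| ≤ r0})
    (hnear : ∀ s : ℝ, 0 < s → s ≤ r0 → ∀ x : Fin n → ℝ, (∀ i, |x i| ≤ s) →
      ∀ i, |b x i - x i| ≤ s / 2)
    {s : ℝ} (hs : 0 < s) (hs0 : s ≤ r0) (v : Fin n → ℝ) (hv : ∀ i, |v i| ≤ s / 2) :
    ∃ x : Fin n → ℝ, (∀ i, |x i| ≤ s) ∧ b x = v :=
  box_surj n hs b (hb.mono fun _ hx i => (hx i).trans hs0) (hnear s hs hs0) v hv

theorem box {ι : Type*} [Fintype ι] (b : (ι → ℝ) → ι → ℝ) (r : ℝ) (hr : 0 < r)
    (hb : ContinuousOn b {x | ∀ i, |x i| ≤ r})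
    (hlin : ∀ x : ι → ℝ, (∀ i, |x i| ≤ r) → ∀ i, |b x i - x i| ≤ r / 4) (t : ι → ℝ)
    (ht : ∀ i, |t i| ≤ r / 4) : ∃ x : ι → ℝ, (∀ i, |x i| ≤ r) ∧ b x = t := by
  classical
  let e : ι ≃ Fin (Fintype.card ι) := Fintype.equivFin ι
  obtain ⟨x, hx, hbx⟩ := box_surj (Fintype.card ι) hr
    (fun x i => b (fun j => x (e j)) (e.symm i))
    (by
      refine continuousOn_pi.2 fun i => ?_
      have h1 : ContinuousOn (fun x : Fin (Fintype.card ι) → ℝ => b fun j => x (e j))
          {x | ∀ i, |x i| ≤ r} :=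
        hb.comp (continuous_pi fun j => continuous_apply (e j)).continuousOn
          fun x hx i => hx (e i)
      exact (continuous_apply (e.symm i)).comp_continuousOn h1)
    (by
      intro x hx i
      have h1 := hlin (fun j => x (e j)) (fun j => hx (e j)) (e.symm i)
      simp only [Equiv.apply_symm_apply] at h1
      refine h1.trans ?_
      linarith)
    (fun i => t (e.symm i)) (fun i => (ht (e.symm i)).trans (by linarith))
  refine ⟨fun j => x (e j), fun i => hx (e i), ?_⟩
  funext i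
  have h := congrFun hbx (e i)
  simpa using h

end Pool.Agent.Lib.MP_95e7ec_an.Dy
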