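import Pool.Agent.Lib.MP_95e7ec_an.Dy.DDefs
import Pool.Agent.Lib.MP_95e7ec_an.Pw.BChain

/-!
# The chain of periods on `[0, π]`
-/

set_option autoImplicit false

open Set Filter Topology

namespace Pool.Agent.Lib.MP_95e7ec_an.Dy

open Pool.Agent.Lib.MP_95e7ec_an.Pw

/-- One step of the chain. -/
theorem chain_stepK (n j : ℕ) (a : ℝ → ℝ) (μ A r0 : ℝ) (W : ℝ → ℝ) (B : (ℝ → ℝ) → ℝ)
    (Y : (ℝ → ℝ) → ℝ → ℝ → ℝ) (hμ : 0 < μ) (hc : PerRel n j a μ A r0 W B Y)
    (hsub : Icc (pl n j) (pl n (j + 1)) ⊆ Icc 0 Real.pi)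
    (g : ℝ → ℝ → ℝ) (hg : ∀ S, Continuous (g S)) (ρ : ℝ → ℝ) (hρ : Tendsto ρ atTop (𝓝 0))
    (hgb : ∀ᶠ S in atTop, ∀ x ∈ Icc (0 : ℝ) Real.pi, |g S x| ≤ ρ S)
    (κ : ℝ) (hk : ∀ᶠ S in atTop, B (g S) = Real.exp (-(μ * S)) * κ)
    (U : ℝ → ℝ) (v : ℝ) (hv : 0 < v)
    (hU : Tendsto (fun S => Real.exp S * U S) atTop (𝓝 v)) (hτ : 0 < A * v ^ μ + κ) :
    ∃ y : ℝ → ℝ → ℝ,
      (∀ᶠ S in atTop, y S (pl n j) = U S ∧
        Gd n a (fun x => hh n x * g S x) (pl n j) (pl n (j + 1)) (y S)) ∧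
      Tendsto (fun S => Real.exp S * y S (pl n (j + 1))) atTop
        (𝓝 ((A * v ^ μ + κ) ^ (1 / μ))) := by
  -- `U > 0`
  have hUpos : ∀ᶠ S in atTop, 0 < U S := by
    filter_upwards [hU.eventually (lt_mem_nhds hv)] with S hS
    exact pos_of_mul_pos_right hS (Real.exp_pos _).le
  have hUμ : Tendsto (fun S => Real.exp (μ * S) * U S ^ μ) atTop (𝓝 (v ^ μ)) := by
    have h1 := hU.rpow_const (p := μ) (Or.inl hv.ne')
    refine h1.congr' ?_
    filter_upwards [hUpos] with S hS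
    rw [Real.mul_rpow (Real.exp_pos _).le hS.le, ← Real.exp_mul, mul_comm S μ]
  have hU0 : Tendsto U atTop (𝓝 0) := by
    have h1 : Tendsto (fun S : ℝ => Real.exp (-S)) atTop (𝓝 0) :=
      Real.tendsto_exp_atBot.comp tendsto_neg_atTop_atBot
    have h2 := h1.mul hU
    rw [zero_mul] at h2
    refine h2.congr fun S => ?_
    rw [← mul_assoc, ← Real.exp_add, neg_add_cancel, Real.exp_zero, one_mul]
  -- the main term
  let T : ℝ → ℝ := fun S => A * U S ^ μ + B (g S)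
  have hkB : Tendsto (fun S => Real.exp (μ * S) * B (g S)) atTop (𝓝 κ) := by
    refine tendsto_const_nhds.congr' ?_
    filter_upwards [hk] with S hS
    rw [hS, ← mul_assoc, ← Real.exp_add, add_neg_cancel, Real.exp_zero, one_mul]
  have hT : Tendsto (fun S => Real.exp (μ * S) * T S) atTop (𝓝 (A * v ^ μ + κ)) := by
    refine ((hUμ.const_mul A).add hkB).congr fun S => ?_
    simp only [T]
    ring
  -- the size of the errors
  have hE : Tendsto (fun S => Real.exp (μ * S) * (U S ^ μ + |B (g S)|)) atTop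
      (𝓝 (v ^ μ + |κ|)) := by
    refine (hUμ.add hkB.abs).congr fun S => ?_
    rw [abs_mul, abs_of_pos (Real.exp_pos _)]
    ring
  have hv0 : 0 < v ^ μ := Real.rpow_pos_of_pos hv μ
  set M : ℝ := v ^ μ + |κ| + 1 with hMdef
  have hM : 0 < M := by positivity
  -- the conclusions of one period, for every small `δ`
  have hmain : ∀ δ : ℝ, 0 < δ → δ * v ^ μ < A * v ^ μ + κ → ∀ᶠ S in atTop,
      Y (g S) (U S) (pl n j) = U S ∧
      Gd n a (fun x => hh n x * g S x) (pl n j) (pl n (j + 1)) (Y (g S) (U S)) ∧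
      |Y (g S) (U S) (pl n (j + 1)) ^ μ - T S| ≤ δ * (U S ^ μ + |B (g S)|) := by
    intro δ hδ hδv
    obtain ⟨r, hr, hm⟩ := hc.main δ hδ
    have h1 : ∀ᶠ S in atTop, Real.exp (μ * S) * (δ * U S ^ μ) < Real.exp (μ * S) * T S := by
      have h2 : Tendsto (fun S => Real.exp (μ * S) * T S - Real.exp (μ * S) * (δ * U S ^ μ)) atTop
          (𝓝 (A * v ^ μ + κ - δ * v ^ μ)) := by
        refine hT.sub ((hUμ.const_mul δ).congr fun S => ?_)
        ring
      filter_upwards [h2.eventually (lt_mem_nhds (sub_pos.2 hδv))] with S hS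
      exact sub_pos.1 hS
    filter_upwards [hUpos, hU0.eventually (gt_mem_nhds hr), hρ.eventually (gt_mem_nhds hr), hgb,
      h1] with S h2 h3 h4 h5 h6
    refine hm (g S) ⟨hg S, fun x hx => (h5 x (hsub hx)).trans h4.le⟩ (U S) h2 h3.le ?_
    exact lt_of_mul_lt_mul_left h6 (Real.exp_pos _).le
  refine ⟨fun S => Y (g S) (U S), ?_, ?_⟩
  · have h1 : (A * v ^ μ + κ) / (2 * v ^ μ) * v ^ μ < A * v ^ μ + κ := by
      have : (A * v ^ μ + κ) / (2 * v ^ μ) * v ^ μ = (A * v ^ μ + κ) / 2 := by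
        field_simp
      rw [this]
      linarith
    exact (hmain _ (by positivity) h1).mono fun S h => ⟨h.1, h.2.1⟩
  have hD : Tendsto (fun S => Real.exp (μ * S) * (Y (g S) (U S) (pl n (j + 1)) ^ μ - T S)) atTop
      (𝓝 0) := by
    rw [Metric.tendsto_nhds]
    intro ε hε
    set δ : ℝ := min (ε / (2 * M)) ((A * v ^ μ + κ) / (2 * v ^ μ)) with hδdef
    have hδ : 0 < δ := lt_min (by positivity) (by positivity)
    have h1 : δ * v ^ μ < A * v ^ μ + κ := by
      calc δ * v ^ μ ≤ (A * v ^ μ + κ) / (2 * v ^ μ) * v ^ μ :=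
            mul_le_mul_of_nonneg_right (min_le_right _ _) hv0.le
        _ = (A * v ^ μ + κ) / 2 := by field_simp
        _ < A * v ^ μ + κ := by linarith
    have h2 : v ^ μ + |κ| < M := by rw [hMdef]; linarith
    filter_upwards [hmain δ hδ h1, hE.eventually (gt_mem_nhds h2)] with S h3 h4
    rw [Real.dist_eq, sub_zero, abs_mul, abs_of_pos (Real.exp_pos _)]
    calc Real.exp (μ * S) * |Y (g S) (U S) (pl n (j + 1)) ^ μ - T S|
        ≤ Real.exp (μ * S) * (δ * (U S ^ μ + |B (g S)|)) :=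
          mul_le_mul_of_nonneg_left h3.2.2 (Real.exp_pos _).le
      _ = δ * (Real.exp (μ * S) * (U S ^ μ + |B (g S)|)) := by ring
      _ ≤ δ * M := mul_le_mul_of_nonneg_left h4.le hδ.le
      _ ≤ ε / (2 * M) * M := mul_le_mul_of_nonneg_right (min_le_left _ _) hM.le
      _ = ε / 2 := by field_simp
      _ < ε := by linarith
  have h1 : Tendsto (fun S => Real.exp (μ * S) * Y (g S) (U S) (pl n (j + 1)) ^ μ) atTop
      (𝓝 (A * v ^ μ + κ)) := by
    have h3 := hD.add hT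
    rw [zero_add] at h3
    refine h3.congr fun S => ?_
    ring
  have h2 := h1.rpow_const (p := 1 / μ) (Or.inl hτ.ne')
  refine h2.congr' ?_
  have h3 : (A * v ^ μ + κ) / (2 * v ^ μ) * v ^ μ < A * v ^ μ + κ := by
    have : (A * v ^ μ + κ) / (2 * v ^ μ) * v ^ μ = (A * v ^ μ + κ) / 2 := by
      field_simp
    rw [this]
    linarith
  filter_upwards [hmain _ (by positivity) h3] with S h
  have hp := (h.2.1 (pl n (j + 1)) ⟨pl_le_succ n j, le_rfl⟩).1
  rw [Real.mul_rpow (Real.exp_pos _).le (Real.rpow_nonneg hp.le _), ← Real.rpow_mul hp.le,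
    mul_one_div_cancel hμ.ne', Real.rpow_one, ← Real.exp_mul]
  congr 2
  field_simp

/-- The chain: `e^S y(2πj/n) → c_j s_j`. -/
theorem chainK (n K : ℕ) (hK : n = 2 * K) (hK1 : 1 ≤ K) (a : ℝ → ℝ)
    (μ A r0 : ℕ → ℝ) (W : ℕ → ℝ → ℝ) (B : ℕ → (ℝ → ℝ) → ℝ) (Y : ℕ → (ℝ → ℝ) → ℝ → ℝ → ℝ)
    (hμ : ∀ j < K, 0 < μ j)
    (hc : ∀ j < K, PerRel n j a (μ j) (A j) (r0 j) (W j) (B j) (Y j))
    (g : ℝ → ℝ → ℝ) (hg : ∀ S, Continuous (g S)) (ρ : ℝ → ℝ) (hρ : Tendsto ρ atTop (𝓝 0))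
    (hgb : ∀ᶠ S in atTop, ∀ x ∈ Icc (0 : ℝ) Real.pi, |g S x| ≤ ρ S)
    (b : ℕ → ℝ)
    (hkick : ∀ j < K, ∀ᶠ S in atTop,
      B j (g S) = Real.exp (-(μ j * S)) * (cc μ A (j + 1) ^ μ j * b j))
    (z : ℝ) (hz : 0 < z) (hs : ∀ j < K, 0 < st μ b z j ^ μ j + b j) :
    ∀ j ≤ K, ∃ Y : ℝ → ℝ → ℝ,
      (∀ᶠ S in atTop, Y S 0 = Real.exp (-S) * z ∧
        Gd n a (fun x => hh n x * g S x) 0 (pl n j) (Y S)) ∧
      Tendsto (fun S => Real.exp S * Y S (pl n j)) atTop (𝓝 (cc μ A j * st μ b z j)) := by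
  have hn : (0 : ℝ) < n := by
    rw [hK]
    push_cast
    have : (1 : ℝ) ≤ K := by exact_mod_cast hK1
    linarith
  have hpl0 : pl n 0 = 0 := by simp [pl]
  have hplK : pl n K = Real.pi := by
    unfold pl
    rw [hK]
    push_cast
    have : (K : ℝ) ≠ 0 := by
      have : (1 : ℝ) ≤ K := by exact_mod_cast hK1
      positivity
    field_simp
  have hpl_mono : Monotone (pl n) := monotone_nat_of_le_succ (pl_le_succ n)
  have hsub : ∀ j < K, Icc (pl n j) (pl n (j + 1)) ⊆ Icc 0 Real.pi := by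
    intro j hj x hx
    constructor
    · have := hpl_mono (Nat.zero_le j)
      rw [hpl0] at this
      exact this.trans hx.1
    · have := hpl_mono (show j + 1 ≤ K by omega)
      rw [hplK] at this
      exact hx.2.trans this
  have hA : ∀ j < K, 0 < A j := fun j hj => (hc j hj).Apos
  have hcp := cc_pos μ A K hA
  have hsp := st_pos μ b z hz K hs
  -- the step
  have step : ∀ j < K, ∀ U : ℝ → ℝ,
      Tendsto (fun S => Real.exp S * U S) atTop (𝓝 (cc μ A j * st μ b z j)) →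
      ∃ y : ℝ → ℝ → ℝ,
        (∀ᶠ S in atTop, y S (pl n j) = U S ∧ Gd n a (fun x => hh n x * g S x) (pl n j) (pl n (j + 1)) (y S)) ∧
        Tendsto (fun S => Real.exp S * y S (pl n (j + 1))) atTop
          (𝓝 (cc μ A (j + 1) * st μ b z (j + 1))) := by
    intro j hj U hU
    have hμ0 : 0 < μ j := hμ j hj
    have hc0 := hcp j hj.le
    have hs0 := hsp j hj.le
    have e1 : cc μ A (j + 1) ^ μ j = A j * cc μ A j ^ μ j := by
      show (A j ^ (1 / μ j) * cc μ A j) ^ μ j = _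
      rw [Real.mul_rpow (Real.rpow_nonneg (hA j hj).le _) hc0.le, ← Real.rpow_mul (hA j hj).le,
        one_div_mul_cancel hμ0.ne', Real.rpow_one]
    have e2 : A j * (cc μ A j * st μ b z j) ^ μ j + cc μ A (j + 1) ^ μ j * b j =
        cc μ A (j + 1) ^ μ j * (st μ b z j ^ μ j + b j) := by
      rw [e1, Real.mul_rpow hc0.le hs0.le]
      ring
    have hτ : 0 < A j * (cc μ A j * st μ b z j) ^ μ j + cc μ A (j + 1) ^ μ j * b j := by
      rw [e2]
      exact mul_pos (Real.rpow_pos_of_pos (hcp (j + 1) hj) _) (hs j hj)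
    obtain ⟨y, h1, h2⟩ := chain_stepK n j a (μ j) (A j) (r0 j) (W j) (B j) (Y j) hμ0 (hc j hj)
      (hsub j hj) g hg ρ hρ hgb _ (hkick j hj) U _ (mul_pos hc0 hs0) hU hτ
    refine ⟨y, h1, ?_⟩
    have e3 : (A j * (cc μ A j * st μ b z j) ^ μ j + cc μ A (j + 1) ^ μ j * b j) ^ (1 / μ j) =
        cc μ A (j + 1) * st μ b z (j + 1) := by
      rw [e2, Real.mul_rpow (Real.rpow_nonneg (hcp (j + 1) hj).le _) (hs j hj).le,
        ← Real.rpow_mul (hcp (j + 1) hj).le, mul_one_div_cancel hμ0.ne', Real.rpow_one]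
      rfl
    rw [e3] at h2
    exact h2
  intro j
  induction j with
  | zero =>
    intro _
    have hU : Tendsto (fun S => Real.exp S * (Real.exp (-S) * z)) atTop
        (𝓝 (cc μ A 0 * st μ b z 0)) := by
      have e : ∀ S : ℝ, Real.exp S * (Real.exp (-S) * z) = cc μ A 0 * st μ b z 0 := by
        intro S
        rw [← mul_assoc, ← Real.exp_add, add_neg_cancel, Real.exp_zero]
        rfl
      simp_rw [e]
      exact tendsto_const_nhds
    obtain ⟨y, h1, h2⟩ := step 0 (by omega) (fun S => Real.exp (-S) * z) hU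
    refine ⟨y, ?_, ?_⟩
    · filter_upwards [h1] with S h
      rw [hpl0] at h ⊢
      refine ⟨h.1, ?_⟩
      intro x hx
      have h3 : 0 ≤ pl n (0 + 1) := by
        have := hpl_mono (Nat.zero_le (0 + 1))
        rwa [hpl0] at this
      obtain ⟨i1, i2, i3, i4⟩ := h.2 x ⟨hx.1, hx.2.trans h3⟩
      exact ⟨i1, i2, i3, i4.mono fun t ht => ⟨ht.1, ht.2.trans h3⟩⟩
    · refine hU.congr' ?_
      filter_upwards [h1] with S h
      rw [h.1]
  | succ j ih =>
    intro hj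
    obtain ⟨Y, h1, h2⟩ := ih (by omega)
    obtain ⟨y, h3, h4⟩ := step j (by omega) (fun S => Y S (pl n j)) h2
    have hp0 : 0 ≤ pl n j := by
      have := hpl_mono (Nat.zero_le j)
      rwa [hpl0] at this
    refine ⟨fun S x => if x ≤ pl n j then Y S x else y S x, ?_, ?_⟩
    · filter_upwards [h1, h3] with S h5 h6
      refine ⟨?_, Gd.glue hp0 (pl_le_succ n j) h5.2 h6.2 h6.1⟩
      rw [if_pos hp0]
      exact h5.1
    · refine h4.congr' ?_
      have h5 : ¬ pl n (j + 1) ≤ pl n j := by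
        rw [not_le]
        unfold pl
        refine div_lt_div_of_pos_right ?_ hn
        refine mul_lt_mul_of_pos_left ?_ (by positivity)
        push_cast
        linarith
      exact Eventually.of_forall fun S => by
        simp only
        rw [if_neg h5]

end Pool.Agent.Lib.MP_95e7ec_an.Dy
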