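import Mathlib
import Pool.Agent.Lib.MP_95e7ec_an.Pw.HDefs
import Pool.Agent.Lib.MP_95e7ec_an.Pw.BDefs

/-!
# Dynamics with arbitrary positive exponents: definitions

The equation is `y' = h' (1 + h' h g) y / D`, `D = (1 + a) y - a h = u + a w`, with `u = y`,
`w = y - h`; `a` is any positive function. All the constants are dominated by one constant `K`.
-/

set_option autoImplicit false

open Set Filter Topology

namespace Pool.Agent.Lib.MP_95e7ec_an.Dy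

open Pool.Agent.Lib.MP_95e7ec_an.Pw

/-- A half period: `h` increases from `-1/4` to `1/4`, `a` is positive and `a - mu` vanishes at the
zero of `h`. -/
structure Hf (α x0 β : ℝ) (a h h1 : ℝ → ℝ) (mu K : ℝ) : Prop where
  K1 : 1 ≤ K
  lt0 : α < x0
  lt1 : x0 < β
  len : β - α ≤ K
  cont_a : Continuous a
  cont_h1 : Continuous h1
  deriv : ∀ x, HasDerivAt h (h1 x) x
  h_start : h α = -1 / 4
  h_zero : h x0 = 0
  h_end : h β = 1 / 4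
  h1_pos : ∀ x ∈ Ioo α β, 0 < h1 x
  h1_le : ∀ x ∈ Icc α β, |h1 x| ≤ K
  a_lo : ∀ x ∈ Icc α β, 1 ≤ K * a x
  a_up : ∀ x ∈ Icc α β, a x ≤ K
  mu_lo : 1 ≤ K * mu
  mu_up : mu ≤ K
  a_lip : ∀ x ∈ Icc α β, |a x - mu| ≤ K * |h x|
  h_lower : ∀ x ∈ Icc α β, |x - x0| ≤ K * |h x|

/-- The region `0 < y ≤ 1`, `w ≥ - y / (4 K)`, where `w = y - H`. -/
def Reg (K H y : ℝ) : Prop := 0 < y ∧ -y ≤ 4 * K * (y - H) ∧ y ≤ 1

/-- The admissible perturbations. -/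
def Adm (α β r : ℝ) (g : ℝ → ℝ) : Prop := Continuous g ∧ ∀ x ∈ Icc α β, |g x| ≤ r

/-- A solution on `[α, β]` in the region, `G = h g`. -/
def SolK (K : ℝ) (a h h1 g : ℝ → ℝ) (α β : ℝ) (y : ℝ → ℝ) : Prop :=
  ∀ x ∈ Icc α β, Reg K (h x) (y x) ∧
    HasDerivWithinAt y (rhs a h h1 (fun t => h t * g t) x (y x)) (Icc α β) x

/-- The weight of the half period. -/
noncomputable def wK (mu : ℝ) (a h h1 : ℝ → ℝ) (α β x : ℝ) : ℝ :=
  wgt mu a h h1 α β x * h x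

/-- The conclusion for one period, in the relative form. `Y g u` is the solution with the start
`u`; it does not depend on `δ`. -/
structure PerRel (n j : ℕ) (a : ℝ → ℝ) (μ A r0 : ℝ) (W : ℝ → ℝ) (B : (ℝ → ℝ) → ℝ)
    (Y : (ℝ → ℝ) → ℝ → ℝ → ℝ) : Prop where
  Apos : 0 < A
  r0pos : 0 < r0
  W_cont : ContinuousOn W (Icc (z0 n j) (z1 n j))
  W_pos : ∀ x ∈ Ioo (z0 n j) (z1 n j), x ≠ pm n j → 0 < W x
  main : ∀ δ : ℝ, 0 < δ → ∃ r : ℝ, 0 < r ∧ ∀ g : ℝ → ℝ, Adm (pl n j) (pl n (j + 1)) r g →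
    ∀ u : ℝ, 0 < u → u ≤ r → δ * u ^ μ < A * u ^ μ + B g →
    Y g u (pl n j) = u ∧
      Gd n a (fun x => hh n x * g x) (pl n j) (pl n (j + 1)) (Y g u) ∧
      |Y g u (pl n (j + 1)) ^ μ - (A * u ^ μ + B g)| ≤ δ * (u ^ μ + |B g|)
  lin : ∀ δ : ℝ, 0 < δ → ∃ r : ℝ, 0 < r ∧ ∀ η : ℝ, 0 < η → η ≤ r → ∀ g : ℝ → ℝ,
    Adm (pl n j) (pl n (j + 1)) η g → |B g - ∫ x in z0 n j..z1 n j, g x * W x| ≤ δ * η
  cont : ∀ ε : ℝ, 0 < ε → ∃ δ : ℝ, 0 < δ ∧ ∀ g g' : ℝ → ℝ, Adm (pl n j) (pl n (j + 1)) r0 g →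
    Adm (pl n j) (pl n (j + 1)) r0 g' →
    (∀ x ∈ Icc (pl n j) (pl n (j + 1)), |g x - g' x| ≤ δ) → |B g - B g'| ≤ ε

end Pool.Agent.Lib.MP_95e7ec_an.Dy
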