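import Pool.Agent.Lib.MP_95e7ec_an.Dy.DBasic
import Pool.Agent.Lib.MP_95e7ec_an.Pw.Ode

/-!
# Half period: existence of the solutions, dependence on the start and on `g`
-/

set_option autoImplicit false

open Set Filter Topology

namespace Pool.Agent.Lib.MP_95e7ec_an.Dy

open Pool.Agent.Lib.MP_95e7ec_an.Pw

/-- The clamped value. -/
noncomputable def kcl (K : ℝ) (h : ℝ → ℝ) (m x v : ℝ) : ℝ :=
  max (min v 1) (max (4 * K / (4 * K + 1) * h x) m)

/-- The region for the clamped equation. -/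
def kreg (K : ℝ) (h : ℝ → ℝ) (m : ℝ) (x : ℝ) : Set ℝ :=
  {v | m ≤ v ∧ 4 * K / (4 * K + 1) * h x ≤ v ∧ v ≤ 1}

theorem kcl_eq {K : ℝ} {h : ℝ → ℝ} {m x v : ℝ} (hv : v ∈ kreg K h m x) : kcl K h m x v = v := by
  unfold kcl
  rw [min_eq_left hv.2.2, max_eq_left (max_le hv.2.1 hv.1)]

theorem kcl_lip (K : ℝ) (h : ℝ → ℝ) (m x v w : ℝ) :
    |kcl K h m x v - kcl K h m x w| ≤ |v - w| := by
  unfold kcl
  refine (abs_max_sub_max_le_abs _ _ _).trans ?_
  have := abs_min_sub_min_le_max v 1 w 1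
  simpa using this

section basics

variable {α x0 β : ℝ} {a h h1 : ℝ → ℝ} {mu K : ℝ}

theorem kcl_mem (D : Hf α x0 β a h h1 mu K) {m x v : ℝ} (hm : m ≤ 1) (hx : x ∈ Icc α β) :
    kcl K h m x v ∈ kreg K h m x := by
  have h0 := D.K0
  have h2 := (abs_le.1 (D.abs_h_le hx)).2
  have hc : 4 * K / (4 * K + 1) * h x ≤ 1 := by
    rw [div_mul_eq_mul_div, div_le_one (by linarith)]
    nlinarith
  exact ⟨(le_max_right _ _).trans (le_max_right _ _), (le_max_left _ _).trans (le_max_right _ _),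
    max_le (min_le_right _ _) (max_le hc hm)⟩

theorem kreg_reg (D : Hf α x0 β a h h1 mu K) {m x v : ℝ} (hm : 0 < m) (hv : v ∈ kreg K h m x) :
    Reg K (h x) v := by
  have h0 := D.K0
  obtain ⟨e1, e2, e3⟩ := hv
  refine ⟨hm.trans_le e1, ?_, e3⟩
  rw [div_mul_eq_mul_div, div_le_iff₀ (by linarith)] at e2
  linarith

theorem Hf.h1_nonneg (D : Hf α x0 β a h h1 mu K) {x : ℝ} (hx : x ∈ Icc α β) : 0 ≤ h1 x := by
  have hab : α < β := D.lt
  have hcl : Icc α β ⊆ closure (Ioo α β) := by rw [closure_Ioo hab.ne]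
  have hset : IsClosed {x | 0 ≤ h1 x} := isClosed_le continuous_const D.cont_h1
  have : closure (Ioo α β) ⊆ {x | 0 ≤ h1 x} :=
    closure_minimal (fun x hx => (D.h1_pos x hx).le) hset
  exact this (hcl hx)

/-- `D ≥ 3 y / 4` in the region. -/
theorem Hf.den_ge34 (D : Hf α x0 β a h h1 mu K) {x y : ℝ} (hx : x ∈ Icc α β)
    (hy : Reg K (h x) y) : 3 / 4 * y ≤ den a h x y := by
  obtain ⟨a1, a2, a3⟩ := hy
  have e : den a h x y = y + a x * (y - h x) := by unfold den; ring
  rw [e]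
  have ha0 := D.a_pos hx
  have ha1 := D.a_up x hx
  rcases le_or_gt 0 (y - h x) with h0 | h0
  · have := mul_nonneg ha0.le h0
    linarith
  · have e1 : a x * (-(y - h x)) ≤ K * (-(y - h x)) := mul_le_mul_of_nonneg_right ha1 (by linarith)
    linarith

/-- `|h' h g| ≤ 1 / (8 K)`. -/
theorem Hf.pert (D : Hf α x0 β a h h1 mu K) {g : ℝ → ℝ} (hg : Adm α β (1 / (2 * K ^ 2)) g)
    {x : ℝ} (hx : x ∈ Icc α β) : |h1 x * (h x * g x)| ≤ 1 / (8 * K) := by
  have h0 := D.K0
  have e1 := D.h1_le x hx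
  have e2 := D.abs_h_le hx
  have e3 := hg.2 x hx
  rw [abs_mul, abs_mul]
  calc |h1 x| * (|h x| * |g x|) ≤ K * (1 / 4 * (1 / (2 * K ^ 2))) :=
        mul_le_mul e1 (mul_le_mul e2 e3 (abs_nonneg _) (by norm_num)) (by positivity) h0.le
    _ = 1 / (8 * K) := by field_simp; norm_num

theorem Hf.fac (D : Hf α x0 β a h h1 mu K) {g : ℝ → ℝ} (hg : Adm α β (1 / (2 * K ^ 2)) g)
    {x : ℝ} (hx : x ∈ Icc α β) :
    7 / 8 ≤ 1 + h1 x * (h x * g x) ∧ 1 + h1 x * (h x * g x) ≤ 9 / 8 := by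
  have h0 := D.K0
  have e1 := abs_le.1 (D.pert hg hx)
  have e2 : 1 / (8 * K) ≤ 1 / 8 := by
    apply one_div_le_one_div_of_le (by norm_num)
    linarith [D.K1]
  constructor <;> linarith [e1.1, e1.2]

/-- The Lipschitz constant on the region. -/
theorem kreg_lip (D : Hf α x0 β a h h1 mu K) {g : ℝ → ℝ} (hg : Adm α β (1 / (2 * K ^ 2)) g)
    {m : ℝ} (hm : 0 < m) :
    ∀ x ∈ Icc α β, ∀ v ∈ kreg K h m x, ∀ w ∈ kreg K h m x,
      |rhs a h h1 (fun t => h t * g t) x v - rhs a h h1 (fun t => h t * g t) x w| ≤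
        (K ^ 2 / m ^ 2) * |v - w| := by
  intro x hx v hv w hw
  have h0 := D.K0
  have rv := kreg_reg D hm hv
  have rw' := kreg_reg D hm hw
  have e1 := D.den_ge34 hx rv
  have e2 := D.den_ge34 hx rw'
  have hv0 := rv.1
  have hw0 := rw'.1
  have d1 : 0 < den a h x v := by linarith
  have d2 : 0 < den a h x w := by linarith
  have key : rhs a h h1 (fun t => h t * g t) x v - rhs a h h1 (fun t => h t * g t) x w =
      (h1 x * (1 + h1 x * (h x * g x)) * (-(a x * h x))) / (den a h x v * den a h x w) *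
        (v - w) := by
    unfold rhs
    have n1 := d1.ne'
    have n2 := d2.ne'
    field_simp
    unfold den
    ring
  rw [key, abs_mul, abs_div]
  refine mul_le_mul_of_nonneg_right ?_ (abs_nonneg _)
  have hh := D.abs_h_le hx
  have hM := D.h1_le x hx
  obtain ⟨f1, f2⟩ := D.fac hg hx
  have ha2 : |a x| ≤ K := by
    rw [abs_of_pos (D.a_pos hx)]
    exact D.a_up x hx
  have h1G : |1 + h1 x * (h x * g x)| ≤ 9 / 8 := by
    rw [abs_le]
    constructor <;> linarith
  have hnum : |h1 x * (1 + h1 x * (h x * g x)) * (-(a x * h x))| ≤ 9 / 32 * K ^ 2 := by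
    rw [abs_mul, abs_mul, abs_neg, abs_mul]
    have t1 : |h1 x| * |1 + h1 x * (h x * g x)| ≤ K * (9 / 8) :=
      mul_le_mul hM h1G (abs_nonneg _) h0.le
    have t2 : |a x| * |h x| ≤ K * (1 / 4) := mul_le_mul ha2 hh (abs_nonneg _) h0.le
    calc |h1 x| * |1 + h1 x * (h x * g x)| * (|a x| * |h x|) ≤ K * (9 / 8) * (K * (1 / 4)) :=
          mul_le_mul t1 t2 (by positivity) (by positivity)
      _ = 9 / 32 * K ^ 2 := by ring
  have hden : 9 / 16 * m ^ 2 ≤ |den a h x v * den a h x w| := by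
    rw [abs_of_pos (mul_pos d1 d2)]
    have t1 : 3 / 4 * m ≤ den a h x v := by linarith [hv.1]
    have t2 : 3 / 4 * m ≤ den a h x w := by linarith [hw.1]
    have := mul_le_mul t1 t2 (by positivity) d1.le
    calc 9 / 16 * m ^ 2 = 3 / 4 * m * (3 / 4 * m) := by ring
      _ ≤ _ := this
  calc |h1 x * (1 + h1 x * (h x * g x)) * (-(a x * h x))| / |den a h x v * den a h x w|
      ≤ (9 / 32 * K ^ 2) / (9 / 16 * m ^ 2) :=
        div_le_div₀ (by positivity) hnum (by positivity) hden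
    _ = 1 / 2 * (K ^ 2 / m ^ 2) := by field_simp; norm_num
    _ ≤ K ^ 2 / m ^ 2 := by
        have : 0 ≤ K ^ 2 / m ^ 2 := by positivity
        linarith

/-- `0 ≤ rhs ≤ 3 h' / 2` on the region. -/
theorem kreg_rhs (D : Hf α x0 β a h h1 mu K) {g : ℝ → ℝ} (hg : Adm α β (1 / (2 * K ^ 2)) g)
    {m : ℝ} (hm : 0 < m) {x : ℝ} (hx : x ∈ Icc α β) {v : ℝ} (hv : v ∈ kreg K h m x) :
    0 ≤ rhs a h h1 (fun t => h t * g t) x v ∧
      rhs a h h1 (fun t => h t * g t) x v ≤ 3 / 2 * h1 x := by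
  have rv := kreg_reg D hm hv
  have e1 := D.den_ge34 hx rv
  have hv0 := rv.1
  have d1 : 0 < den a h x v := by linarith
  obtain ⟨f1, f2⟩ := D.fac hg hx
  have hn := D.h1_nonneg hx
  constructor
  · unfold rhs
    have : 0 ≤ 1 + h1 x * (h x * g x) := by linarith
    positivity
  · unfold rhs
    rw [div_le_iff₀ d1]
    have t1 : h1 x * (1 + h1 x * (h x * g x)) ≤ h1 x * (9 / 8) := mul_le_mul_of_nonneg_left f2 hn
    have t2 : h1 x * (1 + h1 x * (h x * g x)) * v ≤ h1 x * (9 / 8) * (4 / 3 * den a h x v) :=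
      mul_le_mul t1 (by linarith) hv0.le (by positivity)
    calc h1 x * (1 + h1 x * (h x * g x)) * v ≤ h1 x * (9 / 8) * (4 / 3 * den a h x v) := t2
      _ = 3 / 2 * h1 x * den a h x v := by ring

theorem cont_rhs_kcl (D : Hf α x0 β a h h1 mu K) {g : ℝ → ℝ} (hg : Continuous g) {m : ℝ}
    (hm : 0 < m) (hm1 : m ≤ 1) (v : ℝ) :
    ContinuousOn (fun x => rhs a h h1 (fun t => h t * g t) x (kcl K h m x v)) (Icc α β) := by
  have hh : Continuous h := D.cont_h
  have hc : Continuous fun x => kcl K h m x v := by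
    unfold kcl
    exact continuous_const.max ((continuous_const.mul hh).max continuous_const)
  unfold rhs
  refine ContinuousOn.div ?_ ?_ ?_
  · exact ((D.cont_h1.mul (continuous_const.add (D.cont_h1.mul (hh.mul hg)))).mul
      hc).continuousOn
  · unfold den
    exact (((continuous_const.add D.cont_a).mul hc).sub (D.cont_a.mul hh)).continuousOn
  · intro x hx
    exact (D.den_pos hx (kreg_reg D hm (kcl_mem D hm1 hx))).ne'

/-- One solution. -/
theorem exists_one (D : Hf α x0 β a h h1 mu K) {g : ℝ → ℝ} (hg : Adm α β (1 / (2 * K ^ 2)) g)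
    {z : ℝ} (hz : z ∈ Ioc (0 : ℝ) (1 / 4)) :
    ∃ y : ℝ → ℝ, y α = z ∧ SolK K a h h1 g α β y ∧ ∀ x ∈ Icc α β, y x ∈ kreg K h z x := by
  obtain ⟨hz0, hz1⟩ := hz
  have h0 := D.K0
  have hab : α < β := D.lt
  have hm : 0 < z / 2 := by linarith
  have hm1 : z / 2 ≤ 1 := by linarith
  have hrg : ∀ x ∈ Icc α β, ∀ v, 0 ≤ rhs a h h1 (fun t => h t * g t) x (kcl K h (z / 2) x v) ∧
      rhs a h h1 (fun t => h t * g t) x (kcl K h (z / 2) x v) ≤ 3 / 2 * h1 x := fun x hx v =>
    kreg_rhs D hg hm hx (kcl_mem D hm1 hx)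
  obtain ⟨y, hyα, hy⟩ := exists_Sl
    (f := fun x v => rhs a h h1 (fun t => h t * g t) x (kcl K h (z / 2) x v))
    (a := α) (b := β) (M := 3 / 2 * K) (L := K ^ 2 / (z / 2) ^ 2)
    (fun v => cont_rhs_kcl D hg.1 hm hm1 v)
    (fun x hx v => by
      obtain ⟨r1, r2⟩ := hrg x hx v
      have := (abs_le.1 (D.h1_le x hx)).2
      rw [abs_of_nonneg r1]
      linarith)
    (fun x hx v w => (kreg_lip D hg hm x hx _ (kcl_mem D hm1 hx) _ (kcl_mem D hm1 hx)).trans
        (mul_le_mul_of_nonneg_left (kcl_lip _ _ _ _ _ _) (by positivity)))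
    (x0 := α) D.left_mem z
  -- monotone
  have hmono : MonotoneOn y (Icc α β) := by
    refine monotoneOn_of_deriv_nonneg (convex_Icc _ _) hy.contOn ?_ ?_
    · intro x hx
      rw [interior_Icc] at hx
      exact (hy.inner hx).differentiableAt.differentiableWithinAt
    · intro x hx
      rw [interior_Icc] at hx
      rw [(hy.inner hx).deriv]
      exact (hrg x ⟨hx.1.le, hx.2.le⟩ _).1
  have hyz : ∀ x ∈ Icc α β, z ≤ y x := by
    intro x hx
    have := hmono D.left_mem hx hx.1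
    rwa [hyα] at this
  -- upper bound
  have hup : AntitoneOn (fun x => y x - 3 / 2 * h x) (Icc α β) := by
    refine antitoneOn_of_deriv_nonpos (convex_Icc _ _)
      (hy.contOn.sub (D.cont_h.const_mul _).continuousOn) ?_ ?_
    · intro x hx
      rw [interior_Icc] at hx
      exact ((hy.inner hx).sub ((D.deriv x).const_mul _)).differentiableAt.differentiableWithinAt
    · intro x hx
      rw [interior_Icc] at hx
      have e1 : HasDerivAt (fun x => y x - 3 / 2 * h x)
          (rhs a h h1 (fun t => h t * g t) x (kcl K h (z / 2) x (y x)) - 3 / 2 * h1 x) x :=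
        (hy.inner hx).sub ((D.deriv x).const_mul _)
      rw [e1.deriv]
      have := (hrg x ⟨hx.1.le, hx.2.le⟩ (y x)).2
      linarith
  have hy1 : ∀ x ∈ Icc α β, y x ≤ 1 := by
    intro x hx
    have h1' := hup D.left_mem hx hx.1
    have h2 := (abs_le.1 (D.abs_h_le hx)).2
    simp only at h1'
    rw [hyα, D.h_start] at h1'
    linarith
  -- lower barrier on `[x0, β]`
  have hlow : ∀ x ∈ Icc α β, 4 * K / (4 * K + 1) * h x ≤ y x := by
    intro x hx
    rcases le_total x x0 with hxx | hxx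
    · have h1' := D.strictMono.monotoneOn hx D.x0_mem hxx
      rw [D.h_zero] at h1'
      have h2 := hyz x hx
      have h3 : 0 ≤ 4 * K / (4 * K + 1) := by positivity
      nlinarith [mul_nonneg h3 (neg_nonneg.2 h1')]
    · have hsub : Sl (fun x v => rhs a h h1 (fun t => h t * g t) x (kcl K h (z / 2) x v)) x0 β y :=
        hy.mono D.lt0.le le_rfl
      have key := image_le_of_deriv_right_lt_deriv_boundary'
        (f := fun x => 4 * K / (4 * K + 1) * h x)
        (f' := fun x => 4 * K / (4 * K + 1) * h1 x) (a := x0) (b := β) (B := y)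
        (B' := fun x => rhs a h h1 (fun t => h t * g t) x (kcl K h (z / 2) x (y x)))
        (fun x _ => (continuousAt_const.mul (D.deriv x).continuousAt).continuousWithinAt)
        (fun x _ => ((D.deriv x).const_mul (4 * K / (4 * K + 1))).hasDerivWithinAt)
        (by
          have := hyz x0 D.x0_mem
          rw [D.h_zero]; linarith)
        hsub.contOn (fun x hx => hsub.right hx) (fun x hx he => by
          have hx' : x ∈ Icc α β := ⟨D.lt0.le.trans hx.1, hx.2.le⟩
          have hyx := hyz x hx'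
          have hreg : y x ∈ kreg K h (z / 2) x := ⟨by linarith, he.le, hy1 x hx'⟩
          rw [kcl_eq hreg]
          have h1p : 0 < h1 x := D.h1_pos x ⟨D.lt0.trans_le hx.1, hx.2⟩
          have hd0 := D.den_pos hx' (kreg_reg D hm hreg)
          have hyp : 0 < y x := by linarith
          have hK1 := D.K1
          have hap := D.a_pos hx'
          have hh : 4 * K * h x = (4 * K + 1) * y x := by
            rw [← he]; field_simp
          have hden : 4 * K * den a h x (y x) = (4 * K - a x) * y x := by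
            unfold den
            calc 4 * K * ((1 + a x) * y x - a x * h x)
                = 4 * K * (1 + a x) * y x - a x * (4 * K * h x) := by ring
              _ = _ := by rw [hh]; ring
          have hp := (abs_le.1 (D.pert hg hx')).1
          unfold rhs
          rw [lt_div_iff₀ hd0, div_mul_eq_mul_div, div_mul_eq_mul_div, div_lt_iff₀ (by linarith)]
          set s : ℝ := h1 x * (h x * g x) with hs
          have hs2 : -1 ≤ 8 * K * s := by
            have := mul_le_mul_of_nonneg_left hp (by linarith : (0 : ℝ) ≤ 8 * K)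
            have e : 8 * K * -(1 / (8 * K)) = -1 := by field_simp
            linarith
          have hyh : 0 < h1 x * y x := mul_pos h1p hyp
          have hE : 4 * K * h1 x * den a h x (y x) = (4 * K - a x) * (h1 x * y x) := by
            calc 4 * K * h1 x * den a h x (y x) = h1 x * (4 * K * den a h x (y x)) := by ring
              _ = _ := by rw [hden]; ring
          rw [hE]
          have hF : h1 x * (1 + s) * y x * (4 * K + 1) = (1 + s) * (4 * K + 1) * (h1 x * y x) := by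
            ring
          rw [hF]
          refine mul_lt_mul_of_pos_right ?_ hyh
          nlinarith)
      exact key ⟨hxx, hx.2⟩
  have hreg : ∀ x ∈ Icc α β, y x ∈ kreg K h z x := fun x hx => ⟨hyz x hx, hlow x hx, hy1 x hx⟩
  refine ⟨y, hyα, fun x hx => ⟨kreg_reg D hz0 (hreg x hx), ?_⟩, hreg⟩
  have hd : HasDerivWithinAt y (rhs a h h1 (fun t => h t * g t) x (kcl K h (z / 2) x (y x)))
    (Icc α β) x := hy x hx
  have hr : y x ∈ kreg K h (z / 2) x := ⟨by linarith [hyz x hx], hlow x hx, hy1 x hx⟩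
  rwa [kcl_eq hr] at hd

end basics

/-- For every admissible `g` and every start `z` in `(0, 1/4]` there is a solution in the region;
the solutions are ordered, and the end value is continuous in `z` and Lipschitz in `g`. -/
theorem exists_sol {α x0 β : ℝ} {a h h1 : ℝ → ℝ} {mu K : ℝ} (D : Hf α x0 β a h h1 mu K) :
    ∃ Y : (ℝ → ℝ) → ℝ → ℝ → ℝ,
      (∀ g, Adm α β (1 / (2 * K ^ 2)) g → ∀ z ∈ Ioc (0 : ℝ) (1 / 4),
        Y g z α = z ∧ SolK K a h h1 g α β (Y g z)) ∧
      (∀ g, Adm α β (1 / (2 * K ^ 2)) g → ∀ z ∈ Ioc (0 : ℝ) (1 / 4),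
        ∀ z' ∈ Ioc (0 : ℝ) (1 / 4), z < z' → ∀ x ∈ Icc α β, Y g z x < Y g z' x) ∧
      (∀ g, Adm α β (1 / (2 * K ^ 2)) g → ContinuousOn (fun z => Y g z β) (Ioc 0 (1 / 4))) ∧
      (∀ z ∈ Ioc (0 : ℝ) (1 / 4), ∃ C : ℝ, 0 ≤ C ∧ ∀ g g' : ℝ → ℝ,
        Adm α β (1 / (2 * K ^ 2)) g → Adm α β (1 / (2 * K ^ 2)) g' → ∀ δ : ℝ,
        (∀ x ∈ Icc α β, |g x - g' x| ≤ δ) → |Y g z β - Y g' z β| ≤ C * δ) := by
  have h0 := D.K0
  have hab : α < β := D.lt
  have H : ∀ (g : ℝ → ℝ) (z : ℝ), ∃ y : ℝ → ℝ, Adm α β (1 / (2 * K ^ 2)) g →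
      z ∈ Ioc (0 : ℝ) (1 / 4) →
      (y α = z ∧ SolK K a h h1 g α β y ∧ ∀ x ∈ Icc α β, y x ∈ kreg K h z x) := by
    intro g z
    by_cases hz : Adm α β (1 / (2 * K ^ 2)) g ∧ z ∈ Ioc (0 : ℝ) (1 / 4)
    · obtain ⟨y, hy⟩ := exists_one D hz.1 hz.2
      exact ⟨y, fun _ _ => hy⟩
    · exact ⟨fun _ => 0, fun h1 h2 => absurd ⟨h1, h2⟩ hz⟩
  choose Y hY using H
  have hSl : ∀ g, Adm α β (1 / (2 * K ^ 2)) g → ∀ z ∈ Ioc (0 : ℝ) (1 / 4),
      Sl (fun x v => rhs a h h1 (fun t => h t * g t) x v) α β (Y g z) :=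
    fun g hg z hz x hx => ((hY g z hg hz).2.1 x hx).2
  have hmem : ∀ g, Adm α β (1 / (2 * K ^ 2)) g → ∀ m, ∀ z ∈ Ioc (0 : ℝ) (1 / 4), m ≤ z →
      ∀ x ∈ Icc α β, Y g z x ∈ kreg K h m x := by
    intro g hg m z hz hmz x hx
    obtain ⟨h1, h2, h3⟩ := (hY g z hg hz).2.2 x hx
    exact ⟨hmz.trans h1, h2, h3⟩
  refine ⟨Y, fun g hg z hz => ⟨(hY g z hg hz).1, (hY g z hg hz).2.1⟩, ?_, ?_, ?_⟩
  · intro g hg z hz w hw hzw
    refine Sl.lt (S := fun x => kreg K h z x) (kreg_lip D hg hz.1) (hSl g hg z hz)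
      (hSl g hg w hw) (hmem g hg z z hz le_rfl) (hmem g hg z w hw hzw.le) (x0 := α) D.left_mem ?_
    rw [(hY g z hg hz).1, (hY g w hg hw).1]
    exact hzw
  · intro g hg z hz
    have hz0 : 0 < z := hz.1
    have hm : 0 < z / 2 := by linarith
    set L' : ℝ := K ^ 2 / (z / 2) ^ 2 with hL'
    have hb : ∀ w ∈ Ioc (0 : ℝ) (1 / 4), z / 2 < w →
        |Y g w β - Y g z β| ≤ |w - z| * Real.exp (L' * (β - α)) := by
      intro w hw hw2
      have := Sl.dist_le_exp (S := fun x => kreg K h (z / 2) x) (kreg_lip D hg hm)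
        (hSl g hg w hw) (hSl g hg z hz) (hmem g hg _ w hw hw2.le)
        (hmem g hg _ z hz (by linarith)) β D.right_mem
      rwa [(hY g z hg hz).1, (hY g w hg hw).1] at this
    show Tendsto (fun w => Y g w β) (𝓝[Ioc 0 (1 / 4)] z) (𝓝 (Y g z β))
    rw [tendsto_iff_dist_tendsto_zero]
    have hlim : Tendsto (fun w => |w - z| * Real.exp (L' * (β - α))) (𝓝[Ioc 0 (1 / 4)] z)
        (𝓝 0) := by
      have hcont : Continuous fun w => |w - z| * Real.exp (L' * (β - α)) :=
        ((continuous_id.sub continuous_const).abs).mul continuous_const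
      have := (hcont.tendsto z).mono_left (nhdsWithin_le_nhds (s := Ioc (0 : ℝ) (1 / 4)))
      simpa using this
    refine squeeze_zero' (Eventually.of_forall fun w => dist_nonneg) ?_ hlim
    have hev : ∀ᶠ w in 𝓝[Ioc (0 : ℝ) (1 / 4)] z, z / 2 < w :=
      nhdsWithin_le_nhds (lt_mem_nhds (by linarith))
    filter_upwards [hev, self_mem_nhdsWithin] with w h1 h2
    rw [Real.dist_eq]
    exact hb w h2 h1
  · intro z hz
    have hz0 : 0 < z := hz.1
    set L' : ℝ := K ^ 2 / z ^ 2 with hL'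
    have hL0 : 0 < L' := by positivity
    have hE : 1 ≤ Real.exp (L' * (β - α)) :=
      Real.one_le_exp (mul_nonneg hL0.le (by linarith))
    refine ⟨K ^ 2 / 3 / L' * (Real.exp (L' * (β - α)) - 1),
      mul_nonneg (by positivity) (by linarith), fun g g' hg hg' δ hδ => ?_⟩
    have key := Sl.dist_le (S := fun x => kreg K h z x) (kreg_lip D hg hz0)
      (hSl g hg z hz) (hSl g' hg' z hz) (hmem g hg z z hz le_rfl) (hmem g' hg' z z hz le_rfl)
      (δ := 0) (ε := K ^ 2 / 3 * δ) (fun x hx => ?_) (by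
        rw [(hY g z hg hz).1, (hY g' z hg' hz).1, sub_self, abs_zero]) β D.right_mem
    · rw [gronwallBound_of_K_ne_0 hL0.ne'] at key
      refine key.trans (le_of_eq ?_)
      field_simp
      ring
    · have hr := kreg_reg D hz0 (hmem g' hg' z z hz le_rfl x hx)
      have e1 := D.den_ge34 hx hr
      have hv0 := hr.1
      set v : ℝ := Y g' z x with hv
      have d1 : 0 < den a h x v := by linarith
      have hdg := hδ x hx
      have hδ0 : 0 ≤ δ := (abs_nonneg _).trans hdg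
      have e : rhs a h h1 (fun t => h t * g' t) x v - rhs a h h1 (fun t => h t * g t) x v =
          h1 x ^ 2 * h x * (g' x - g x) * (v / den a h x v) := by
        unfold rhs
        field_simp
        ring
      rw [e, abs_mul, abs_mul, abs_mul, abs_of_nonneg (sq_nonneg (h1 x)), abs_sub_comm (g' x)]
      have t1 : h1 x ^ 2 ≤ K ^ 2 := by
        rw [← sq_abs (h1 x)]
        exact pow_le_pow_left₀ (abs_nonneg _) (D.h1_le x hx) 2
      have t2 : |v / den a h x v| ≤ 4 / 3 := by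
        rw [abs_of_pos (div_pos hv0 d1), div_le_iff₀ d1]
        linarith
      have t3 := D.abs_h_le hx
      calc h1 x ^ 2 * |h x| * |g x - g' x| * |v / den a h x v|
          ≤ K ^ 2 * (1 / 4) * δ * (4 / 3) := by gcongr
        _ = K ^ 2 / 3 * δ := by ring

end Pool.Agent.Lib.MP_95e7ec_an.Dy
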