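import Pool.Agent.Lib.MP_95e7ec_an.Dy.DDefs
import Pool.Agent.Lib.MP_95e7ec_an.Pw.BTarget

/-!
# A linear family of kicks on both sides
-/

set_option autoImplicit false

open Set Filter Topology

namespace Pool.Agent.Lib.MP_95e7ec_an.Dy

open Pool.Agent.Lib.MP_95e7ec_an.Pw

theorem fam_continuous_gg (p q : Polynomial ℝ) : Continuous (gg p q) := by
  unfold gg
  exact (p.continuous.comp Real.continuous_cos).add
    (Real.continuous_sin.mul (q.continuous.comp Real.continuous_cos))

theorem fam_gg_mirror (p q : Polynomial ℝ) (x : ℝ) : -gg p q (-x) = gg (-p) q x := by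
  unfold gg
  rw [Real.cos_neg, Real.sin_neg, Polynomial.eval_neg]
  ring

theorem fam_gg_sum {ι : Type*} (s : Finset ι) (c : ι → ℝ) (P Q : ι → Polynomial ℝ) (x : ℝ) :
    gg (∑ i ∈ s, Polynomial.C (c i) * P i) (∑ i ∈ s, Polynomial.C (c i) * Q i) x =
      ∑ i ∈ s, c i * gg (P i) (Q i) x := by
  unfold gg
  rw [Polynomial.eval_finsetSum, Polynomial.eval_finsetSum, Finset.mul_sum,
    ← Finset.sum_add_distrib]
  refine Finset.sum_congr rfl fun i _ => ?_
  simp only [Polynomial.eval_mul, Polynomial.eval_C]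
  ring

/-- A linear family with prescribed kicks on the right `(0, j)` and on the left `(1, j)`. -/
theorem exists_family (n K : ℕ) (hK : n = 2 * K) (hK1 : 1 ≤ K) (W : ℕ → ℝ → ℝ)
    (hW : ∀ j < K, ContinuousOn (W j) (Icc (z0 n j) (z1 n j)))
    (hpos : ∀ j < K, ∀ x ∈ Ioo (z0 n j) (z1 n j), x ≠ pm n j → 0 < W j x) :
    ∃ (C : ℝ) (p q : (Fin 2 × Fin K → ℝ) → Polynomial ℝ), 0 ≤ C ∧
      (∀ t, (p t).natDegree ≤ K ∧ (q t).natDegree ≤ K) ∧
      (∀ t x, |gg (p t) (q t) x| ≤ C * ∑ i, |t i|) ∧
      (∀ t t' x, |gg (p t) (q t) x - gg (p t') (q t') x| ≤ C * ∑ i, |t i - t' i|) ∧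
      (∀ t (j : Fin K), ∫ x in z0 n j..z1 n j, gg (p t) (q t) x * W j x = t (0, j)) ∧
      (∀ t (j : Fin K), ∫ x in z0 n j..z1 n j, -gg (p t) (q t) (-x) * W j x = t (1, j)) := by
  classical
  have hn : 0 < n := by omega
  obtain ⟨C, hC, H⟩ := exists_target n K hK hK1 W hW hpos
  choose P Q hP hQ hb h1 h2 using H
  -- the unit vectors
  set e : Fin K → ℕ → ℝ := fun i j => if (i : ℕ) = j then 1 else 0 with he
  have hsum_e : ∀ i : Fin K, ∑ j ∈ Finset.range K, |e i j| = 1 := by
    intro i
    rw [Finset.sum_eq_single (i : ℕ)]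
    · simp [he]
    · intro j _ hj
      simp [he, hj.symm]
    · intro h
      exact absurd (Finset.mem_range.2 i.2) h
  -- the two halves of the family
  set PP : Fin 2 × Fin K → Polynomial ℝ := fun i => if i.1 = 0 then P (e i.2) else -P (e i.2)
    with hPP
  set QQ : Fin 2 × Fin K → Polynomial ℝ := fun i => Q (e i.2) with hQQ
  have hPPd : ∀ i, (PP i).natDegree ≤ K := by
    intro i
    rw [hPP]
    by_cases h : i.1 = 0
    · simp only [h, if_true]
      exact hP _
    · simp only [h, if_false, Polynomial.natDegree_neg]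
      exact hP _
  have hQQd : ∀ i, (QQ i).natDegree ≤ K := fun i => hQ _
  have hggb : ∀ i x, |gg (PP i) (QQ i) x| ≤ C := by
    intro i x
    by_cases h : i.1 = 0
    · simp only [hPP, hQQ, h, if_true]
      have := hb (e i.2) x
      rwa [hsum_e, mul_one] at this
    · simp only [hPP, hQQ, h, if_false]
      have := hb (e i.2) (-x)
      rw [hsum_e, mul_one] at this
      rw [← fam_gg_mirror, abs_neg]
      exact this
  -- integrability
  have hz : ∀ j < K, z0 n j ≤ z1 n j := by
    intro j _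
    have hn0 : (0 : ℝ) < n := by exact_mod_cast hn
    have hpi := Real.pi_pos
    unfold z0 z1
    have : Real.pi / (2 * n) ≤ 3 * Real.pi / (2 * n) :=
      div_le_div_of_nonneg_right (by linarith) (by positivity)
    linarith
  have hint : ∀ j < K, ∀ p q : Polynomial ℝ,
      IntervalIntegrable (fun x => gg p q x * W j x) MeasureTheory.volume
        (z0 n j) (z1 n j) := by
    intro j hj p q
    apply ContinuousOn.intervalIntegrable
    rw [uIcc_of_le (hz j hj)]
    exact (fam_continuous_gg p q).continuousOn.mul (hW j hj)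
  have h2' : ∀ τ : ℕ → ℝ, ∀ j < K, ∫ x in z0 n j..z1 n j, gg (-P τ) (Q τ) x * W j x = 0 := by
    intro τ j hj
    rw [← h2 τ j hj]
    congr 1
    funext x
    rw [fam_gg_mirror]
  -- the kicks of the members of the family
  have hk0 : ∀ i : Fin 2 × Fin K, ∀ j : Fin K,
      ∫ x in z0 n j..z1 n j, gg (PP i) (QQ i) x * W j x = if i = (0, j) then 1 else 0 := by
    intro i j
    rcases i with ⟨i0, i1⟩
    by_cases h : i0 = 0
    · subst h
      simp only [hPP, hQQ, if_true]
      rw [h1 _ j j.2]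
      simp only [he, Prod.mk.injEq, true_and, Fin.ext_iff]
    · simp only [hPP, hQQ, h, if_false]
      rw [h2' _ j j.2]
      simp [h]
  have hk1 : ∀ i : Fin 2 × Fin K, ∀ j : Fin K,
      ∫ x in z0 n j..z1 n j, gg (-PP i) (QQ i) x * W j x = if i = (1, j) then 1 else 0 := by
    intro i j
    rcases i with ⟨i0, i1⟩
    by_cases h : i0 = 0
    · subst h
      simp only [hPP, hQQ, if_true]
      rw [h2' _ j j.2]
      simp
    · have h' : i0 = 1 := by omega
      subst h'
      simp only [hPP, hQQ, h, if_false, neg_neg]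
      rw [h1 _ j j.2]
      simp only [he, Prod.mk.injEq, true_and, Fin.ext_iff]
  set p : (Fin 2 × Fin K → ℝ) → Polynomial ℝ := fun t => ∑ i, Polynomial.C (t i) * PP i with hp
  set q : (Fin 2 × Fin K → ℝ) → Polynomial ℝ := fun t => ∑ i, Polynomial.C (t i) * QQ i with hq
  have hev : ∀ t x, gg (p t) (q t) x = ∑ i, t i * gg (PP i) (QQ i) x := by
    intro t x
    exact fam_gg_sum Finset.univ t PP QQ x
  have hevm : ∀ t x, -gg (p t) (q t) (-x) = ∑ i, t i * gg (-PP i) (QQ i) x := by
    intro t x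
    rw [hev, ← Finset.sum_neg_distrib]
    refine Finset.sum_congr rfl fun i _ => ?_
    rw [← fam_gg_mirror]
    ring
  have hint' : ∀ (R S : Fin 2 × Fin K → Polynomial ℝ) (t : Fin 2 × Fin K → ℝ) (j : Fin K),
      ∫ x in z0 n j..z1 n j, (∑ i, t i * gg (R i) (S i) x) * W j x =
        ∑ i, t i * ∫ x in z0 n j..z1 n j, gg (R i) (S i) x * W j x := by
    intro R S t j
    have e1 : (fun x => (∑ i, t i * gg (R i) (S i) x) * W j x) =
        fun x => ∑ i, t i * (gg (R i) (S i) x * W j x) := by
      funext x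
      rw [Finset.sum_mul]
      refine Finset.sum_congr rfl fun i _ => ?_
      ring
    rw [e1, intervalIntegral.integral_finsetSum]
    · refine Finset.sum_congr rfl fun i _ => ?_
      rw [intervalIntegral.integral_const_mul]
    · intro i _
      exact (hint j j.2 (R i) (S i)).const_mul (t i)
  refine ⟨C, p, q, hC, fun t => ⟨?_, ?_⟩, fun t x => ?_, fun t t' x => ?_, fun t j => ?_,
    fun t j => ?_⟩
  · refine Polynomial.natDegree_sum_le_of_forall_le _ _ fun i _ => ?_
    exact (Polynomial.natDegree_C_mul_le _ _).trans (hPPd i)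
  · refine Polynomial.natDegree_sum_le_of_forall_le _ _ fun i _ => ?_
    exact (Polynomial.natDegree_C_mul_le _ _).trans (hQQd i)
  · rw [hev, Finset.mul_sum]
    refine (Finset.abs_sum_le_sum_abs _ _).trans (Finset.sum_le_sum fun i _ => ?_)
    rw [abs_mul, mul_comm]
    exact mul_le_mul_of_nonneg_right (hggb i x) (abs_nonneg _)
  · rw [hev, hev, ← Finset.sum_sub_distrib, Finset.mul_sum]
    refine (Finset.abs_sum_le_sum_abs _ _).trans (Finset.sum_le_sum fun i _ => ?_)
    rw [← sub_mul, abs_mul, mul_comm]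
    exact mul_le_mul_of_nonneg_right (hggb i x) (abs_nonneg _)
  · simp only [hev]
    rw [hint']
    simp only [hk0]
    simp
  · simp only [hevm]
    rw [hint']
    simp only [hk1]
    simp

end Pool.Agent.Lib.MP_95e7ec_an.Dy
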