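import Pool.Agent.Lib.MP_95e7ec_an.Dy.DBasic

/-!
# The mean value inequality with an exceptional point; the function `Kinf`
-/

set_option autoImplicit false

open Set Filter Topology MeasureTheory

namespace Pool.Agent.Lib.MP_95e7ec_an.Dy

open Pool.Agent.Lib.MP_95e7ec_an.Pw

private theorem mv_bound {f f' : ℝ → ℝ} {p q C : ℝ} (hpq : p ≤ q)
    (hc : ContinuousOn f (Icc p q)) (hd : ∀ x ∈ Ioo p q, HasDerivAt f (f' x) x)
    (hC : ∀ x ∈ Ioo p q, |f' x| ≤ C) : |f q - f p| ≤ C * (q - p) := by
  rcases hpq.eq_or_lt with h | h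
  · subst h
    simp
  · obtain ⟨c, hc1, hc2⟩ := exists_hasDerivAt_eq_slope f f' h hc hd
    have hqp : 0 < q - p := by linarith
    have e : f q - f p = f' c * (q - p) := by
      rw [hc2]; field_simp
    rw [e, abs_mul, abs_of_pos hqp]
    exact mul_le_mul_of_nonneg_right (hC c hc1) hqp.le

theorem four_bound {f f' : ℝ → ℝ} {α x0 β e A B : ℝ} (h0 : α < x0) (h1 : x0 < β) (he : 0 < e)
    (hA : 0 ≤ A) (hB : 0 ≤ B) (hc : ContinuousOn f (Icc α β))
    (hd : ∀ x ∈ Ioo α β, x ≠ x0 → HasDerivAt f (f' x) x)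
    (hfA : ∀ x ∈ Ioo α β, e ≤ |x - x0| → |f' x| ≤ A)
    (hfB : ∀ x ∈ Ioo α β, x ≠ x0 → |f' x| ≤ B) :
    |f β - f α| ≤ A * (β - α) + 2 * e * B := by
  set p : ℝ := max α (x0 - e) with hp
  set q : ℝ := min β (x0 + e) with hq
  have p1 : α ≤ p := le_max_left _ _
  have p2 : x0 - e ≤ p := le_max_right _ _
  have p3 : p ≤ x0 := max_le h0.le (by linarith)
  have q1 : q ≤ β := min_le_left _ _
  have q2 : q ≤ x0 + e := min_le_right _ _
  have q3 : x0 ≤ q := le_min h1.le (by linarith)
  have b1 : |f p - f α| ≤ A * (p - α) := by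
    refine mv_bound (f' := f') p1 (hc.mono (Icc_subset_Icc_right (by linarith))) ?_ ?_
    · intro x hx
      exact hd x ⟨hx.1, by linarith [hx.2]⟩ (by have := hx.2; intro h; linarith)
    · intro x hx
      have hx2 : x < x0 - e := by
        rcases le_total α (x0 - e) with h | h
        · rw [hp, max_eq_right h] at hx
          exact hx.2
        · rw [hp, max_eq_left h] at hx
          exact absurd (hx.1.trans hx.2) (lt_irrefl _)
      refine hfA x ⟨hx.1, by linarith⟩ ?_
      rw [abs_of_neg (by linarith)]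
      linarith
  have b2 : |f x0 - f p| ≤ B * (x0 - p) := by
    refine mv_bound (f' := f') p3 (hc.mono (Icc_subset_Icc p1 h1.le)) ?_ ?_
    · intro x hx
      exact hd x ⟨by linarith [hx.1], by linarith [hx.2]⟩ (ne_of_lt hx.2)
    · intro x hx
      exact hfB x ⟨by linarith [hx.1], by linarith [hx.2]⟩ (ne_of_lt hx.2)
  have b3 : |f q - f x0| ≤ B * (q - x0) := by
    refine mv_bound (f' := f') q3 (hc.mono (Icc_subset_Icc h0.le q1)) ?_ ?_
    · intro x hx
      exact hd x ⟨by linarith [hx.1], by linarith [hx.2]⟩ (ne_of_gt hx.1)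
    · intro x hx
      exact hfB x ⟨by linarith [hx.1], by linarith [hx.2]⟩ (ne_of_gt hx.1)
  have b4 : |f β - f q| ≤ A * (β - q) := by
    refine mv_bound (f' := f') q1 (hc.mono (Icc_subset_Icc_left (by linarith))) ?_ ?_
    · intro x hx
      exact hd x ⟨by linarith [hx.1], hx.2⟩ (by have := hx.1; intro h; linarith)
    · intro x hx
      have hx2 : x0 + e < x := by
        rcases le_total β (x0 + e) with h | h
        · rw [hq, min_eq_left h] at hx
          exact absurd (hx.1.trans hx.2) (lt_irrefl _)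
        · rw [hq, min_eq_right h] at hx
          exact hx.1
      refine hfA x ⟨by linarith, hx.2⟩ ?_
      rw [abs_of_pos (by linarith)]
      linarith
  have c1 : B * (x0 - p) ≤ B * e := mul_le_mul_of_nonneg_left (by linarith) hB
  have c2 : B * (q - x0) ≤ B * e := mul_le_mul_of_nonneg_left (by linarith) hB
  have c3 : A * (p - α) + A * (β - q) ≤ A * (β - α) := by
    have : A * p ≤ A * q := mul_le_mul_of_nonneg_left (by linarith) hA
    linarith
  have d : f β - f α = (f β - f q) + (f q - f x0) + (f x0 - f p) + (f p - f α) := by ring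
  have t1 := abs_add_le ((f β - f q) + (f q - f x0) + (f x0 - f p)) (f p - f α)
  have t2 := abs_add_le ((f β - f q) + (f q - f x0)) (f x0 - f p)
  have t3 := abs_add_le (f β - f q) (f q - f x0)
  rw [d]
  linarith

variable {α x0 β : ℝ} {a h h1 : ℝ → ℝ} {mu K : ℝ}

theorem kinf_bound (D : Hf α x0 β a h h1 mu K) {x : ℝ} (hx : x ∈ Icc α β) :
    |kinf mu a h h1 x| ≤ K ^ 3 := by
  have hK := D.K0
  have hlip := D.a_lip x hx
  unfold kinf
  rcases eq_or_ne (h x) 0 with h0 | h0
  · rw [h0, abs_zero, mul_zero] at hlip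
    have h3 : mu - a x = 0 := by
      have := abs_nonpos_iff.1 hlip
      linarith
    rw [h3, zero_mul, zero_div, abs_zero]
    positivity
  · have h3 : 0 < |h x| := abs_pos.2 h0
    have hden : |h x| ≤ K * (max (h x) 0 + a x * max (-h x) 0) := by
      have hK1 := D.K1
      rcases le_total (h x) 0 with h4 | h4
      · rw [max_eq_right h4, max_eq_left (by linarith : 0 ≤ -h x), abs_of_nonpos h4]
        have := D.a_lo x hx
        nlinarith
      · rw [max_eq_left h4, max_eq_right (by linarith : -h x ≤ 0), abs_of_nonneg h4]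
        nlinarith
    have h4 : 0 < max (h x) 0 + a x * max (-h x) 0 := by
      by_contra hcon
      rw [not_lt] at hcon
      nlinarith
    rw [abs_div, abs_mul, abs_of_pos h4, div_le_iff₀ h4]
    rw [abs_sub_comm] at hlip
    calc |mu - a x| * |h1 x| ≤ (K * |h x|) * K :=
          mul_le_mul hlip (D.h1_le x hx) (abs_nonneg _) (by positivity)
      _ = K ^ 2 * |h x| := by ring
      _ ≤ K ^ 2 * (K * (max (h x) 0 + a x * max (-h x) 0)) :=
          mul_le_mul_of_nonneg_left hden (by positivity)
      _ = K ^ 3 * (max (h x) 0 + a x * max (-h x) 0) := by ring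

private theorem kinf_int (D : Hf α x0 β a h h1 mu K) :
    IntervalIntegrable (kinf mu a h h1) volume α β := by
  have hh : Continuous h := D.cont_h
  have hm : Measurable (kinf mu a h h1) := by
    unfold kinf
    exact ((measurable_const.sub D.cont_a.measurable).mul D.cont_h1.measurable).div
      ((hh.measurable.max measurable_const).add
        (D.cont_a.measurable.mul (hh.measurable.neg.max measurable_const)))
  refine (intervalIntegrable_const (c := K ^ 3)).mono_fun' hm.aestronglyMeasurable ?_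
  refine (ae_restrict_iff' measurableSet_uIoc).2 (Eventually.of_forall fun t ht => ?_)
  rw [uIoc_of_le D.lt.le] at ht
  have h5 := kinf_bound D ⟨ht.1.le, ht.2⟩
  rwa [← Real.norm_eq_abs] at h5

theorem Kinf_cont (D : Hf α x0 β a h h1 mu K) :
    ContinuousOn (Kinf mu a h h1 α) (Icc α β) := by
  have h3 := kinf_int D
  have h4 := intervalIntegral.continuousOn_primitive_interval' h3
    (left_mem_uIcc : α ∈ uIcc α β)
  rw [uIcc_of_le D.lt.le] at h4
  exact h4

theorem Kinf_deriv (D : Hf α x0 β a h h1 mu K) {x : ℝ} (hx : x ∈ Ioo α β) (h0 : x ≠ x0) :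
    HasDerivAt (Kinf mu a h h1 α) (kinf mu a h h1 x) x := by
  have hh : Continuous h := D.cont_h
  have hxx : x ∈ Icc α β := ⟨hx.1.le, hx.2.le⟩
  have hm : Measurable (kinf mu a h h1) := by
    unfold kinf
    exact ((measurable_const.sub D.cont_a.measurable).mul D.cont_h1.measurable).div
      ((hh.measurable.max measurable_const).add
        (D.cont_a.measurable.mul (hh.measurable.neg.max measurable_const)))
  have hne : h x ≠ 0 := D.h_ne hxx h0
  have ha := D.a_pos hxx
  have hden : max (h x) 0 + a x * max (-h x) 0 ≠ 0 := by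
    rcases lt_or_gt_of_ne hne with h4 | h4
    · rw [max_eq_right h4.le, max_eq_left (by linarith : 0 ≤ -h x)]
      have : 0 < a x * -h x := mul_pos ha (by linarith)
      linarith
    · rw [max_eq_left h4.le, max_eq_right (by linarith : -h x ≤ 0)]
      linarith
  have hcont : ContinuousAt (kinf mu a h h1) x := by
    unfold kinf
    exact (((continuous_const.sub D.cont_a).mul D.cont_h1).continuousAt).div
      (((hh.max continuous_const).add (D.cont_a.mul (hh.neg.max continuous_const))).continuousAt)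
      hden
  have hint : IntervalIntegrable (kinf mu a h h1) volume α x :=
    (kinf_int D).mono_set (by
      rw [uIcc_of_le hx.1.le, uIcc_of_le D.lt.le]
      exact Icc_subset_Icc_right hx.2.le)
  exact intervalIntegral.integral_hasDerivAt_right hint
    (hm.stronglyMeasurable.stronglyMeasurableAtFilter) hcont

theorem Kinf_bound (D : Hf α x0 β a h h1 mu K) {x : ℝ} (hx : x ∈ Icc α β) :
    |Kinf mu a h h1 α x| ≤ K ^ 4 := by
  have hK := D.K0
  have h2 := intervalIntegral.norm_integral_le_of_norm_le_const (a := α) (b := x)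
    (f := kinf mu a h h1) (C := K ^ 3) (by
      intro t ht
      rw [uIoc_of_le hx.1] at ht
      rw [Real.norm_eq_abs]
      exact kinf_bound D ⟨ht.1.le, ht.2.trans hx.2⟩)
  rw [Real.norm_eq_abs, abs_of_nonneg (by linarith [hx.1] : 0 ≤ x - α)] at h2
  refine h2.trans ?_
  have h3 : x - α ≤ K := by linarith [hx.2, D.len]
  calc K ^ 3 * (x - α) ≤ K ^ 3 * K := mul_le_mul_of_nonneg_left h3 (by positivity)
    _ = K ^ 4 := by ring

theorem wK_cont (D : Hf α x0 β a h h1 mu K) : ContinuousOn (wK mu a h h1 α β) (Icc x0 β) := by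
  have hmu := D.mu_pos
  have h1 : ContinuousOn (Kinf mu a h h1 α) (Icc x0 β) :=
    (Kinf_cont D).mono (Icc_subset_Icc_left D.lt0.le)
  have h2 : Continuous fun x => h x ^ mu :=
    D.cont_h.rpow_const fun x => Or.inr hmu.le
  unfold wK wgt
  exact ((Real.continuous_exp.comp_continuousOn (continuousOn_const.sub h1)).mul
    (((D.cont_h1.pow 2).mul h2).continuousOn)).mul D.cont_h.continuousOn

theorem wK_pos (D : Hf α x0 β a h h1 mu K) {x : ℝ} (hx : x ∈ Ioo x0 β) :
    0 < wK mu a h h1 α β x := by
  have hp := D.h_pos ⟨hx.1, hx.2.le⟩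
  have h1p := D.h1_pos x ⟨D.lt0.trans hx.1, hx.2⟩
  have h3 : 0 < h x ^ mu := Real.rpow_pos_of_pos hp _
  unfold wK wgt
  positivity

end Pool.Agent.Lib.MP_95e7ec_an.Dy
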