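import Pool.Agent.Lib.MP_95e7ec_an.Dy.DBound
import Pool.Agent.Lib.MP_95e7ec_an.Dy.DFour

/-!
# The first order term in `g`
-/

set_option autoImplicit false

open Set Filter Topology

namespace Pool.Agent.Lib.MP_95e7ec_an.Dy

open Pool.Agent.Lib.MP_95e7ec_an.Pw

variable {α x0 β : ℝ} {a h h1 g y : ℝ → ℝ} {mu K η x ε : ℝ}

theorem LinAux.abs_le_den (D : Hf α x0 β a h h1 mu K) (hx : x ∈ Icc α β)
    (hr : Reg K (h x) (y x)) : |h x| ≤ 4 * K * den a h x (y x) :=
  hr.abs_le.trans (D.den_ge hx hr)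

theorem LinAux.kk_le (D : Hf α x0 β a h h1 mu K) (hx : x ∈ Icc α β)
    (hr : Reg K (h x) (y x)) : |kk mu a h h1 y x| ≤ 4 * K ^ 3 := by
  have hd := D.den_pos hx hr
  have hK := D.K0
  have e1 := LinAux.abs_le_den D hx hr
  have e2 := D.a_lip x hx
  have e3 := D.h1_le x hx
  unfold kk
  rw [abs_div, abs_mul, abs_of_pos hd, div_le_iff₀ hd, abs_sub_comm]
  calc |a x - mu| * |h1 x| ≤ (K * |h x|) * K :=
        mul_le_mul e2 e3 (abs_nonneg _) (by positivity)
    _ = K ^ 2 * |h x| := by ring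
    _ ≤ K ^ 2 * (4 * K * den a h x (y x)) := mul_le_mul_of_nonneg_left e1 (by positivity)
    _ = 4 * K ^ 3 * den a h x (y x) := by ring

theorem LinAux.kk_sub (D : Hf α x0 β a h h1 mu K) (hx : x ∈ Icc α β)
    (hr : Reg K (h x) (y x)) (h0 : h x ≠ 0) (hε : 0 ≤ ε)
    (hy : |y x - max (h x) 0| ≤ ε * |h x|) :
    |kk mu a h h1 y x - kinf mu a h h1 x| ≤ 8 * K ^ 5 * ε := by
  have hd := D.den_pos hx hr
  have hK := D.K0
  have hK1 := D.K1
  have e1 := LinAux.abs_le_den D hx hr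
  have e2 := D.a_lip x hx
  have e3 := D.h1_le x hx
  have ha := D.a_pos hx
  have ha2 := D.a_up x hx
  have ha1 := D.a_lo x hx
  set d := den a h x (y x) with hdd
  set d' := max (h x) 0 + a x * max (-h x) 0 with hd'
  have e4 : |h x| ≤ K * d' := by
    rcases le_or_gt 0 (h x) with hh | hh
    · rw [hd', max_eq_left hh, max_eq_right (by linarith), abs_of_nonneg hh]
      nlinarith
    · rw [hd', max_eq_right hh.le, max_eq_left (by linarith), abs_of_neg hh]
      nlinarith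
  have hh0 : 0 < |h x| := abs_pos.2 h0
  have hd'0 : 0 < d' := by
    by_contra hc
    nlinarith
  have e5 : d - d' = (1 + a x) * (y x - max (h x) 0) := by
    rw [hdd, hd']
    unfold den
    rcases le_or_gt 0 (h x) with hh | hh
    · rw [max_eq_left hh, max_eq_right (by linarith)]
      ring
    · rw [max_eq_right hh.le, max_eq_left (by linarith)]
      ring
  have e6 : kk mu a h h1 y x - kinf mu a h h1 x =
      (mu - a x) * h1 x * (d' - d) / (d * d') := by
    unfold kk kinf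
    rw [← hdd, ← hd']
    field_simp
  rw [e6, abs_div, abs_mul, abs_mul, abs_of_pos (mul_pos hd hd'0), div_le_iff₀ (mul_pos hd hd'0),
    abs_sub_comm mu, abs_sub_comm d', e5, abs_mul, abs_of_pos (by linarith : 0 < 1 + a x)]
  have e7 : |a x - mu| * |h1 x| * ((1 + a x) * |y x - max (h x) 0|) ≤
      (K * |h x|) * K * ((2 * K) * (ε * |h x|)) := by
    refine mul_le_mul (mul_le_mul e2 e3 (abs_nonneg _) (by positivity))
      (mul_le_mul (by linarith) hy (abs_nonneg _) (by positivity)) (by positivity)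
      (by positivity)
  refine e7.trans ?_
  have e8 : |h x| * |h x| ≤ (4 * K * d) * (K * d') :=
    mul_le_mul e1 e4 (abs_nonneg _) (by positivity)
  calc (K * |h x|) * K * ((2 * K) * (ε * |h x|)) = 2 * K ^ 3 * ε * (|h x| * |h x|) := by ring
    _ ≤ 2 * K ^ 3 * ε * ((4 * K * d) * (K * d')) :=
        mul_le_mul_of_nonneg_left e8 (by positivity)
    _ = 8 * K ^ 5 * ε * (d * d') := by ring

/-- the quotient `(u + mu w) / D` -/
noncomputable def LinAux.qq (mu : ℝ) (a h y : ℝ → ℝ) (x : ℝ) : ℝ :=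
  (y x + mu * (y x - h x)) / den a h x (y x)

theorem LinAux.qq_le (D : Hf α x0 β a h h1 mu K) (hx : x ∈ Icc α β)
    (hr : Reg K (h x) (y x)) : |LinAux.qq mu a h y x| ≤ 4 * K ^ 2 := by
  have hd := D.den_pos hx hr
  have hK := D.K0
  have hK1 := D.K1
  have e1 := D.den_ge hx hr
  have hmu := D.mu_pos
  have hmu2 := D.mu_up
  unfold LinAux.qq
  rw [abs_div, abs_of_pos hd, div_le_iff₀ hd]
  have e2 : |y x + mu * (y x - h x)| ≤ K * (y x + |y x - h x|) := by
    refine (abs_add_le _ _).trans ?_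
    rw [abs_mul, abs_of_pos hmu, abs_of_pos hr.1]
    have h2 : mu * |y x - h x| ≤ K * |y x - h x| :=
      mul_le_mul_of_nonneg_right hmu2 (abs_nonneg _)
    have h3 : y x ≤ K * y x := by nlinarith [hr.1]
    linarith
  calc |y x + mu * (y x - h x)| ≤ K * (y x + |y x - h x|) := e2
    _ ≤ K * (4 * K * den a h x (y x)) := mul_le_mul_of_nonneg_left e1 hK.le
    _ = 4 * K ^ 2 * den a h x (y x) := by ring

/-- for `h > 0` the quotient is near `1` -/
theorem LinAux.qq_sub (D : Hf α x0 β a h h1 mu K) (hx : x ∈ Icc α β)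
    (hr : Reg K (h x) (y x)) (h0 : 0 < h x) (hε : 0 ≤ ε)
    (hy : |y x - max (h x) 0| ≤ ε * |h x|) :
    |LinAux.qq mu a h y x - 1| ≤ 4 * K ^ 2 * ε := by
  have hd := D.den_pos hx hr
  have hK := D.K0
  have e1 := LinAux.abs_le_den D hx hr
  have e2 := D.a_lip x hx
  have e3 := D.abs_h_le hx
  rw [max_eq_left h0.le] at hy
  have e4 : LinAux.qq mu a h y x - 1 = (mu - a x) * (y x - h x) / den a h x (y x) := by
    unfold LinAux.qq
    rw [div_sub_one hd.ne']
    congr 1
    unfold den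
    ring
  rw [e4, abs_div, abs_of_pos hd, div_le_iff₀ hd, abs_mul, abs_sub_comm mu]
  calc |a x - mu| * |y x - h x| ≤ (K * |h x|) * (ε * |h x|) :=
        mul_le_mul e2 hy (abs_nonneg _) (by positivity)
    _ = K * ε * |h x| * |h x| := by ring
    _ ≤ K * ε * 1 * (4 * K * den a h x (y x)) :=
        mul_le_mul (mul_le_mul_of_nonneg_left (by linarith) (by positivity)) e1
          (abs_nonneg _) (by positivity)
    _ = 4 * K ^ 2 * ε * den a h x (y x) := by ring

/-- the limit of the inhomogeneous term -/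
noncomputable def LinAux.ei (mu : ℝ) (h h1 g : ℝ → ℝ) (x : ℝ) : ℝ :=
  h1 x ^ 2 * (h x * g x) * (max (h x) 0) ^ mu

theorem LinAux.EE_eq : EE mu a h h1 (fun t => h t * g t) y x =
    h1 x ^ 2 * (h x * g x) * ((y x) ^ mu * LinAux.qq mu a h y x) := by
  unfold EE LinAux.qq
  rw [mul_div_assoc]

theorem LinAux.pre_le (D : Hf α x0 β a h h1 mu K) (hx : x ∈ Icc α β) (_hη : 0 ≤ η)
    (hg : Adm α β η g) : |h1 x ^ 2 * (h x * g x)| ≤ K ^ 2 * η := by
  have hK := D.K0
  have e3 := D.abs_h_le hx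
  have e4 := hg.2 x hx
  rw [abs_mul, abs_mul, abs_pow]
  refine mul_le_mul (pow_le_pow_left₀ (abs_nonneg _) (D.h1_le x hx) 2) ?_ (by positivity)
    (by positivity)
  calc |h x| * |g x| ≤ 1 * η := mul_le_mul (by linarith) e4 (abs_nonneg _) (by norm_num)
    _ = η := one_mul _

theorem LinAux.maxh_mem (D : Hf α x0 β a h h1 mu K) (hx : x ∈ Icc α β) :
    max (h x) 0 ∈ Icc (0 : ℝ) 1 := by
  have e3 := D.abs_h_le hx
  have e4 := le_abs_self (h x)
  exact ⟨le_max_right _ _, max_le (by linarith) (by norm_num)⟩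

theorem LinAux.EE_sub_le (D : Hf α x0 β a h h1 mu K) (hx : x ∈ Icc α β) (hη : 0 ≤ η)
    (hg : Adm α β η g) (hr : Reg K (h x) (y x)) :
    |EE mu a h h1 (fun t => h t * g t) y x - LinAux.ei mu h h1 g x| ≤ 5 * K ^ 4 * η := by
  have hK := D.K0
  have hK1 := D.K1
  have hmu := D.mu_pos
  rw [LinAux.EE_eq, LinAux.ei, ← mul_sub, abs_mul]
  have e1 := LinAux.pre_le D hx hη hg
  have e2 := LinAux.qq_le D hx hr
  have e3 := LinAux.maxh_mem D hx
  have e4 : |(y x) ^ mu| ≤ 1 := by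
    rw [abs_of_pos (Real.rpow_pos_of_pos hr.1 _)]
    exact Real.rpow_le_one hr.1.le hr.2.2 hmu.le
  have e5 : |(max (h x) 0) ^ mu| ≤ 1 := by
    rw [abs_of_nonneg (Real.rpow_nonneg e3.1 _)]
    exact Real.rpow_le_one e3.1 e3.2 hmu.le
  have e6 : |(y x) ^ mu * LinAux.qq mu a h y x - (max (h x) 0) ^ mu| ≤ 5 * K ^ 2 := by
    refine (abs_sub _ _).trans ?_
    rw [abs_mul]
    have h2 : |(y x) ^ mu| * |LinAux.qq mu a h y x| ≤ 1 * (4 * K ^ 2) :=
      mul_le_mul e4 e2 (abs_nonneg _) (by norm_num)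
    have h3 : 1 ≤ K ^ 2 := one_le_pow₀ hK1
    linarith
  calc |h1 x ^ 2 * (h x * g x)| * |(y x) ^ mu * LinAux.qq mu a h y x - (max (h x) 0) ^ mu|
      ≤ (K ^ 2 * η) * (5 * K ^ 2) := mul_le_mul e1 e6 (abs_nonneg _) (by positivity)
    _ = 5 * K ^ 4 * η := by ring

theorem LinAux.EE_sub_small (D : Hf α x0 β a h h1 mu K) (hx : x ∈ Icc α β) (hη : 0 ≤ η)
    (hg : Adm α β η g) (hr : Reg K (h x) (y x)) (h0 : h x ≠ 0) (hε : 0 ≤ ε) {σ : ℝ}
    (hy : |y x - max (h x) 0| ≤ ε * |h x|)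
    (hs : |(y x) ^ mu - (max (h x) 0) ^ mu| ≤ σ) :
    |EE mu a h h1 (fun t => h t * g t) y x - LinAux.ei mu h h1 g x| ≤
      4 * K ^ 4 * (σ + ε) * η := by
  have hK := D.K0
  have hmu := D.mu_pos
  have hσ : 0 ≤ σ := (abs_nonneg _).trans hs
  rw [LinAux.EE_eq, LinAux.ei, ← mul_sub, abs_mul]
  have e1 := LinAux.pre_le D hx hη hg
  have e2 := LinAux.qq_le D hx hr
  have e3 := LinAux.maxh_mem D hx
  have e6 : |(y x) ^ mu * LinAux.qq mu a h y x - (max (h x) 0) ^ mu| ≤
      4 * K ^ 2 * (σ + ε) := by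
    have e7 : (y x) ^ mu * LinAux.qq mu a h y x - (max (h x) 0) ^ mu =
        ((y x) ^ mu - (max (h x) 0) ^ mu) * LinAux.qq mu a h y x +
          (max (h x) 0) ^ mu * (LinAux.qq mu a h y x - 1) := by ring
    rw [e7]
    refine (abs_add_le _ _).trans ?_
    rw [abs_mul, abs_mul]
    have h2 : |(y x) ^ mu - (max (h x) 0) ^ mu| * |LinAux.qq mu a h y x| ≤ σ * (4 * K ^ 2) :=
      mul_le_mul hs e2 (abs_nonneg _) hσ
    have h3 : |(max (h x) 0) ^ mu| * |LinAux.qq mu a h y x - 1| ≤ 4 * K ^ 2 * ε := by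
      rcases lt_or_gt_of_ne h0 with hh | hh
      · rw [max_eq_right hh.le, Real.zero_rpow hmu.ne', abs_zero, zero_mul]
        positivity
      · have e5 : |(max (h x) 0) ^ mu| ≤ 1 := by
          rw [abs_of_nonneg (Real.rpow_nonneg e3.1 _)]
          exact Real.rpow_le_one e3.1 e3.2 hmu.le
        calc |(max (h x) 0) ^ mu| * |LinAux.qq mu a h y x - 1| ≤ 1 * (4 * K ^ 2 * ε) :=
              mul_le_mul e5 (LinAux.qq_sub D hx hr hh hε hy) (abs_nonneg _) (by norm_num)
          _ = _ := one_mul _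
    linarith
  calc |h1 x ^ 2 * (h x * g x)| * |(y x) ^ mu * LinAux.qq mu a h y x - (max (h x) 0) ^ mu|
      ≤ (K ^ 2 * η) * (4 * K ^ 2 * (σ + ε)) := mul_le_mul e1 e6 (abs_nonneg _) (by positivity)
    _ = 4 * K ^ 4 * (σ + ε) * η := by ring

/-- uniform continuity of `t ↦ t ^ mu` on `[0, 1]` -/
theorem LinAux.rpow_unif (hmu : 0 < mu) {σ : ℝ} (hσ : 0 < σ) : ∃ ε : ℝ, 0 < ε ∧
    ∀ s ∈ Icc (0 : ℝ) 1, ∀ t ∈ Icc (0 : ℝ) 1, |s - t| ≤ ε → |s ^ mu - t ^ mu| ≤ σ := by
  have h1 : UniformContinuousOn (fun t : ℝ => t ^ mu) (Icc 0 1) :=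
    isCompact_Icc.uniformContinuousOn_of_continuous
      (Real.continuous_rpow_const hmu.le).continuousOn
  obtain ⟨δ, hδ, h2⟩ := Metric.uniformContinuousOn_iff.1 h1 σ hσ
  refine ⟨δ / 2, by positivity, fun s hs t ht hst => ?_⟩
  have := h2 s hs t ht (by rw [Real.dist_eq]; linarith)
  rw [Real.dist_eq] at this
  exact this.le

theorem LinAux.ei_cont (D : Hf α x0 β a h h1 mu K) (hg : Continuous g) :
    Continuous (LinAux.ei mu h h1 g) := by
  have h2 := D.cont_h
  have h3 := D.cont_h1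
  have h4 : Continuous fun x => (max (h x) 0) ^ mu :=
    (Real.continuous_rpow_const D.mu_pos.le).comp (h2.max continuous_const)
  unfold LinAux.ei
  exact ((h3.pow 2).mul (h2.mul hg)).mul h4

theorem lin_term {α x0 β : ℝ} {a h h1 : ℝ → ℝ} {mu K : ℝ} (D : Hf α x0 β a h h1 mu K) :
    ∃ C : ℝ, 0 ≤ C ∧ ∀ δ : ℝ, 0 < δ → ∃ r : ℝ, 0 < r ∧ r ≤ 1 / (2 * K ^ 2) ∧
      ∀ (g y : ℝ → ℝ) (η : ℝ), 0 < η → η ≤ r → Adm α β η g → SolK K a h h1 g α β y →
      y α ≤ r →
      |PP mu h y β - ∫ x in x0..β, wK mu a h h1 α β x * g x| ≤ C * (y α) ^ mu + δ * η := by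
  have hK := D.K0
  have hK1 := D.K1
  have hmu := D.mu_pos
  have hαβ := D.lt
  obtain ⟨C0, hC0, hPP⟩ := PP_boundK D
  set M : ℝ := Real.exp (K ^ 4) with hM
  have hM1 : 1 ≤ M := Real.one_le_exp (by positivity)
  have hM0 : 0 < M := by linarith
  refine ⟨3 * M, by positivity, fun δ hδ => ?_⟩
  -- the constant of the derivative bounds
  set B1 : ℝ := M * (16 * K ^ 5 * C0) with hB1
  have hB10 : 0 < B1 := by positivity
  -- the smallness wanted
  set σ0 : ℝ := min 1 (δ / M) with hσ0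
  have hσ00 : 0 < σ0 := lt_min one_pos (by positivity)
  set e : ℝ := σ0 / (4 * B1) with he
  have he0 : 0 < e := by positivity
  set τ : ℝ := σ0 / (4 * (K * B1)) with hτ
  have hτ0 : 0 < τ := by positivity
  obtain ⟨ε1, hε1, hu⟩ := LinAux.rpow_unif hmu hτ0
  set ε : ℝ := min (min ε1 τ) (e / K) with hε
  have hε0 : 0 < ε := lt_min (lt_min hε1 hτ0) (by positivity)
  obtain ⟨r, hr, hr2, hreg⟩ := region_small D ε hε0
  refine ⟨r, hr, hr2, fun g y η hη hηr hg hS hyr => ?_⟩
  have hg' : Adm α β r g := ⟨hg.1, fun x hx => (hg.2 x hx).trans hηr⟩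
  have hreg' := hreg g y hg' hS hyr
  have hPP' := hPP g y η hη.le (hηr.trans hr2) hg hS
  set S : ℝ := (y α) ^ mu + η with hSdef
  have hyα := (hS α D.left_mem).1
  have hzmu : 0 ≤ (y α) ^ mu := Real.rpow_nonneg hyα.1.le _
  have hS0 : 0 < S := by linarith
  -- the function f
  set F : ℝ → ℝ := fun t => Real.exp (-Kinf mu a h h1 α t) * LinAux.ei mu h h1 g t with hF
  have hKc := Kinf_cont D
  have hFc : ContinuousOn F (Icc α β) :=
    (Real.continuous_exp.comp_continuousOn hKc.neg).mul (LinAux.ei_cont D hg.1).continuousOn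
  have hFi : IntervalIntegrable F MeasureTheory.volume α β := by
    apply ContinuousOn.intervalIntegrable
    rwa [uIcc_of_le hαβ.le]
  set f : ℝ → ℝ := fun x => Real.exp (-Kinf mu a h h1 α x) * PP mu h y x -
    ∫ t in α..x, F t with hf
  have hPc : ContinuousOn (PP mu h y) (Icc α β) := fun x hx =>
    (PP_derivK D hS hx).continuousWithinAt
  have hfc : ContinuousOn f (Icc α β) := by
    refine ((Real.continuous_exp.comp_continuousOn hKc.neg).mul hPc).sub ?_
    have := intervalIntegral.continuousOn_primitive_interval' hFi left_mem_uIcc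
    rwa [uIcc_of_le hαβ.le] at this
  have hfd : ∀ x ∈ Ioo α β, x ≠ x0 → HasDerivAt f (Real.exp (-Kinf mu a h h1 α x) *
      ((kk mu a h h1 y x - kinf mu a h h1 x) * PP mu h y x +
        (EE mu a h h1 (fun t => h t * g t) y x - LinAux.ei mu h h1 g x))) x := by
    intro x hx hx0
    have hxI : x ∈ Icc α β := Ioo_subset_Icc_self hx
    have d1 : HasDerivAt (fun x => Real.exp (-Kinf mu a h h1 α x))
        (Real.exp (-Kinf mu a h h1 α x) * -kinf mu a h h1 x) x :=
      (Kinf_deriv D hx hx0).neg.exp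
    have d2 : HasDerivAt (PP mu h y) (kk mu a h h1 y x * PP mu h y x +
        EE mu a h h1 (fun t => h t * g t) y x) x :=
      (PP_derivK D hS hxI).hasDerivAt (Icc_mem_nhds hx.1 hx.2)
    have d3 : HasDerivAt (fun x => ∫ t in α..x, F t) (F x) x := by
      refine intervalIntegral.integral_hasDerivAt_right ?_ ?_ ?_
      · refine hFi.mono_set ?_
        rw [uIcc_of_le hx.1.le, uIcc_of_le hαβ.le]
        exact Icc_subset_Icc_right hx.2.le
      · exact ContinuousOn.stronglyMeasurableAtFilter isOpen_Ioo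
          (hFc.mono Ioo_subset_Icc_self) x hx
      · exact hFc.continuousAt (Icc_mem_nhds hx.1 hx.2)
    refine ((d1.mul d2).sub d3).congr_deriv ?_
    simp only [hF]
    ring
  have hexp : ∀ x ∈ Icc α β, Real.exp (-Kinf mu a h h1 α x) ≤ M := by
    intro x hx
    apply Real.exp_le_exp.2
    have := Kinf_bound D hx
    have := neg_abs_le (Kinf mu a h h1 α x)
    linarith
  have hbd : ∀ x ∈ Icc α β, ∀ A1 A2 : ℝ, 0 ≤ A1 → 0 ≤ A2 →
      |kk mu a h h1 y x - kinf mu a h h1 x| ≤ A1 →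
      |EE mu a h h1 (fun t => h t * g t) y x - LinAux.ei mu h h1 g x| ≤ A2 * η →
      |Real.exp (-Kinf mu a h h1 α x) *
        ((kk mu a h h1 y x - kinf mu a h h1 x) * PP mu h y x +
          (EE mu a h h1 (fun t => h t * g t) y x - LinAux.ei mu h h1 g x))| ≤
      M * (A1 * C0 + A2) * S := by
    intro x hx A1 A2 hA1 hA2 b1 b2
    rw [abs_mul, abs_of_pos (Real.exp_pos _), mul_assoc]
    refine mul_le_mul (hexp x hx) ?_ (abs_nonneg _) hM0.le
    refine (abs_add_le _ _).trans ?_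
    rw [abs_mul]
    have c1 : |kk mu a h h1 y x - kinf mu a h h1 x| * |PP mu h y x| ≤ A1 * (C0 * S) :=
      mul_le_mul b1 (hPP' x hx) (abs_nonneg _) hA1
    have c2 : A2 * η ≤ A2 * S := mul_le_mul_of_nonneg_left (by linarith) hA2
    linarith [c1, c2, b2]
  have hK5 : K ^ 3 ≤ K ^ 5 := pow_le_pow_right₀ hK1 (by norm_num)
  have hK45 : K ^ 4 ≤ K ^ 5 := pow_le_pow_right₀ hK1 (by norm_num)
  have hB : ∀ x ∈ Ioo α β, x ≠ x0 → |Real.exp (-Kinf mu a h h1 α x) *
        ((kk mu a h h1 y x - kinf mu a h h1 x) * PP mu h y x +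
          (EE mu a h h1 (fun t => h t * g t) y x - LinAux.ei mu h h1 g x))| ≤ B1 * S := by
    intro x hx _
    have hxI : x ∈ Icc α β := Ioo_subset_Icc_self hx
    have hrx := (hS x hxI).1
    have b1 : |kk mu a h h1 y x - kinf mu a h h1 x| ≤ 5 * K ^ 3 := by
      have := LinAux.kk_le D hxI hrx
      have := kinf_bound D hxI
      exact (abs_sub _ _).trans (by linarith)
    have b2 := LinAux.EE_sub_le D hxI hη.le hg hrx
    refine (hbd x hxI _ _ (by positivity) (by positivity) b1 b2).trans ?_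
    refine mul_le_mul_of_nonneg_right ?_ hS0.le
    rw [hB1]
    refine mul_le_mul_of_nonneg_left ?_ hM0.le
    have c1 : 5 * K ^ 3 * C0 ≤ 5 * K ^ 5 * C0 := by gcongr
    have c2 : 5 * K ^ 4 ≤ 5 * K ^ 5 * C0 := by
      calc 5 * K ^ 4 ≤ 5 * K ^ 5 := by gcongr
        _ = 5 * K ^ 5 * 1 := by ring
        _ ≤ _ := by gcongr
    have c3 : 0 ≤ K ^ 5 * C0 := by positivity
    nlinarith
  have hA : ∀ x ∈ Ioo α β, e ≤ |x - x0| → |Real.exp (-Kinf mu a h h1 α x) *
        ((kk mu a h h1 y x - kinf mu a h h1 x) * PP mu h y x +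
          (EE mu a h h1 (fun t => h t * g t) y x - LinAux.ei mu h h1 g x))| ≤ B1 * τ * S := by
    intro x hx hex
    have hxI : x ∈ Icc α β := Ioo_subset_Icc_self hx
    have hrx := (hS x hxI).1
    have c1 : ε ≤ |h x| := by
      have h2 := D.h_lower x hxI
      have h3 : e / K ≤ |h x| := by
        rw [div_le_iff₀ hK]
        linarith
      exact (min_le_right _ _).trans h3
    have c2 := hreg' x hxI c1
    have c0 : h x ≠ 0 := by
      intro h00
      rw [h00, abs_zero] at c1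
      linarith
    have cε : ε ≤ τ := (min_le_left _ _).trans (min_le_right _ _)
    have c3 : |y x - max (h x) 0| ≤ τ * |h x| :=
      c2.trans (mul_le_mul_of_nonneg_right cε (abs_nonneg _))
    have c4 : |(y x) ^ mu - (max (h x) 0) ^ mu| ≤ τ := by
      refine hu _ ⟨hrx.1.le, hrx.2.2⟩ _ (LinAux.maxh_mem D hxI) ?_
      refine c2.trans ?_
      have h2 := D.abs_h_le hxI
      have h3 : ε ≤ ε1 := (min_le_left _ _).trans (min_le_left _ _)
      calc ε * |h x| ≤ ε * 1 := mul_le_mul_of_nonneg_left (by linarith) hε0.le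
        _ ≤ ε1 := by linarith
    have b1 := LinAux.kk_sub D hxI hrx c0 hτ0.le c3
    have b2 := LinAux.EE_sub_small D hxI hη.le hg hrx c0 hτ0.le c3 c4
    refine (hbd x hxI _ _ (by positivity) (by positivity) b1 b2).trans ?_
    refine mul_le_mul_of_nonneg_right ?_ hS0.le
    have c5 : 4 * K ^ 4 * (τ + τ) ≤ 8 * K ^ 5 * τ * C0 := by
      calc 4 * K ^ 4 * (τ + τ) = 8 * τ * K ^ 4 := by ring
        _ ≤ 8 * τ * K ^ 5 := by gcongr
        _ = 8 * K ^ 5 * τ * 1 := by ring
        _ ≤ _ := by gcongr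
    calc M * (8 * K ^ 5 * τ * C0 + 4 * K ^ 4 * (τ + τ))
        ≤ M * (8 * K ^ 5 * τ * C0 + 8 * K ^ 5 * τ * C0) := by gcongr
      _ = B1 * τ := by rw [hB1]; ring
  have hmain : |f β - f α| ≤ σ0 * S := by
    have h4 := four_bound D.lt0 D.lt1 he0 (A := B1 * τ * S) (B := B1 * S) (by positivity)
      (by positivity) hfc hfd hA hB
    refine h4.trans ?_
    have h5 : B1 * τ * S * (β - α) ≤ B1 * τ * S * K :=
      mul_le_mul_of_nonneg_left D.len (by positivity)
    have h6 : B1 * τ * S * K = σ0 / 4 * S := by rw [hτ]; field_simp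
    have h7 : 2 * e * (B1 * S) = σ0 / 2 * S := by rw [he]; field_simp; ring
    have h8 : 0 ≤ σ0 * S := by positivity
    linarith
  have hfα : |f α| ≤ 2 * (y α) ^ mu := by
    have h4 : f α = (y α + 1 / 4) * (y α) ^ mu := by
      simp only [hf, Kinf, intervalIntegral.integral_same, neg_zero, Real.exp_zero, one_mul,
        sub_zero, PP, D.h_start]
      ring
    rw [h4, abs_mul, abs_of_nonneg hzmu, abs_of_pos (by linarith [hyα.1])]
    have := hyα.2.2
    nlinarith
  have hint : Real.exp (Kinf mu a h h1 α β) * ∫ t in α..β, F t =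
      ∫ x in x0..β, wK mu a h h1 α β x * g x := by
    have i1 : IntervalIntegrable F MeasureTheory.volume α x0 := by
      refine hFi.mono_set ?_
      rw [uIcc_of_le D.lt0.le, uIcc_of_le hαβ.le]
      exact Icc_subset_Icc_right D.lt1.le
    have i2 : IntervalIntegrable F MeasureTheory.volume x0 β := by
      refine hFi.mono_set ?_
      rw [uIcc_of_le D.lt1.le, uIcc_of_le hαβ.le]
      exact Icc_subset_Icc_left D.lt0.le
    have i3 : ∫ t in α..x0, F t = 0 := by
      have : ∫ t in α..x0, F t = ∫ t in α..x0, (0 : ℝ) := by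
        refine intervalIntegral.integral_congr fun t ht => ?_
        rw [uIcc_of_le D.lt0.le] at ht
        have h4 : h t ≤ 0 := by
          rcases eq_or_lt_of_le ht.2 with h5 | h5
          · rw [h5, D.h_zero]
          · exact (D.h_neg ⟨ht.1, h5⟩).le
        simp only [hF, LinAux.ei, max_eq_right h4, Real.zero_rpow hmu.ne', mul_zero]
      rw [this, intervalIntegral.integral_zero]
    rw [← intervalIntegral.integral_add_adjacent_intervals i1 i2, i3, zero_add,
      ← intervalIntegral.integral_const_mul]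
    refine intervalIntegral.integral_congr fun t ht => ?_
    rw [uIcc_of_le D.lt1.le] at ht
    have h4 : 0 ≤ h t := by
      rcases eq_or_lt_of_le ht.1 with h5 | h5
      · rw [← h5, D.h_zero]
      · exact (D.h_pos ⟨h5, ht.2⟩).le
    simp only [hF, LinAux.ei, max_eq_left h4, wK, wgt]
    rw [sub_eq_add_neg, Real.exp_add]
    ring
  have hfin : PP mu h y β - ∫ x in x0..β, wK mu a h h1 α β x * g x =
      Real.exp (Kinf mu a h h1 α β) * f β := by
    rw [← hint]
    simp only [hf]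
    rw [mul_sub, ← mul_assoc, ← Real.exp_add, add_neg_cancel, Real.exp_zero, one_mul]
  rw [hfin, abs_mul, abs_of_pos (Real.exp_pos _)]
  have h9 : Real.exp (Kinf mu a h h1 α β) ≤ M := by
    apply Real.exp_le_exp.2
    exact (le_abs_self _).trans (Kinf_bound D D.right_mem)
  have h10 : |f β| ≤ 2 * (y α) ^ mu + σ0 * S := by
    have := abs_sub_abs_le_abs_sub (f β) (f α)
    linarith
  have h11 : σ0 ≤ 1 := min_le_left _ _
  have h12 : M * σ0 ≤ δ := by
    calc M * σ0 ≤ M * (δ / M) := mul_le_mul_of_nonneg_left (min_le_right _ _) hM0.le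
      _ = δ := by field_simp
  calc Real.exp (Kinf mu a h h1 α β) * |f β| ≤ M * (2 * (y α) ^ mu + σ0 * S) :=
        mul_le_mul h9 h10 (abs_nonneg _) hM0.le
    _ = M * (2 + σ0) * (y α) ^ mu + M * σ0 * η := by rw [hSdef]; ring
    _ ≤ 3 * M * (y α) ^ mu + δ * η := by
        have h13 : M * (2 + σ0) ≤ 3 * M := by nlinarith
        exact add_le_add (mul_le_mul_of_nonneg_right h13 hzmu)
          (mul_le_mul_of_nonneg_right h12 hη.le)

end Pool.Agent.Lib.MP_95e7ec_an.Dy
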