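import Pool.Agent.Lib.MP_95e7ec_an.Dy.DBasic

/-!
# The ratio of the `y`-derivatives of `k P + E` and `P` at a fixed `x`

`u = v`, `w = v - H`, `D = u + a w`, `P = w u ^ mu`, `k = (mu - a) H1 / D`,
`E = H1 ^ 2 (H g) u ^ mu (u + mu w) / D`.
-/

set_option autoImplicit false

open Set Filter Topology

namespace Pool.Agent.Lib.MP_95e7ec_an.Dy

/-- `P` at a fixed `x`. -/
noncomputable def Pv (mu H v : ℝ) : ℝ := (v - H) * v ^ mu

/-- `k P + E` at a fixed `x`. -/
noncomputable def Fv (mu a H H1 g v : ℝ) : ℝ :=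
  (mu - a) * H1 / ((1 + a) * v - a * H) * ((v - H) * v ^ mu) +
    H1 ^ 2 * (H * g) * (v ^ mu * (v + mu * (v - H)) / ((1 + a) * v - a * H))

theorem Pv_deriv {mu H v : ℝ} (hv : 0 < v) :
    HasDerivAt (Pv mu H) (v ^ (mu - 1) * (v + mu * (v - H))) v := by
  have e1 := ((hasDerivAt_id v).sub_const H).mul
    (Real.hasDerivAt_rpow_const (x := v) (p := mu) (Or.inl hv.ne'))
  refine HasDerivAt.congr_deriv e1 ?_
  have e2 : v ^ mu = v ^ (mu - 1) * v := by
    rw [Real.rpow_sub_one hv.ne']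
    field_simp
  simp only [id]
  rw [e2]
  ring

/-- The derivative of `k P + E`. -/
theorem Fv_deriv {mu a H H1 g v : ℝ} (hv : 0 < v) (hD : 0 < (1 + a) * v - a * H) :
    HasDerivAt (Fv mu a H H1 g)
      (v ^ (mu - 1) * ((mu - a) * H1 / ((1 + a) * v - a * H) * (v + mu * (v - H)) -
        (mu - a) * H1 * (1 + a) * ((v - H) * v) / ((1 + a) * v - a * H) ^ 2 +
        H1 ^ 2 * (H * g) * ((mu * (v + mu * (v - H)) + v * (1 + mu)) / ((1 + a) * v - a * H) -
          v * (v + mu * (v - H)) * (1 + a) / ((1 + a) * v - a * H) ^ 2))) v := by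
  have d1 : HasDerivAt (fun v : ℝ => (1 + a) * v - a * H) (1 + a) v := by
    simpa using ((hasDerivAt_id v).const_mul (1 + a)).sub_const (a * H)
  have d2 : HasDerivAt (fun v : ℝ => v + mu * (v - H)) (1 + mu) v := by
    have := (hasDerivAt_id' v).fun_add (((hasDerivAt_id' v).sub_const H).const_mul mu)
    simpa using this
  have d3 := Real.hasDerivAt_rpow_const (x := v) (p := mu) (Or.inl hv.ne')
  have e1 := ((hasDerivAt_const v ((mu - a) * H1)).div d1 hD.ne').mul
    (Pv_deriv (mu := mu) (H := H) hv)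
  have e3 := ((d3.mul d2).div d1 hD.ne').const_mul (H1 ^ 2 * (H * g))
  refine HasDerivAt.congr_deriv (e1.add e3) ?_
  have e2 : v ^ mu = v ^ (mu - 1) * v := by
    rw [Real.rpow_sub_one hv.ne']
    field_simp
  simp only [Pi.mul_apply, Pi.div_apply, Pv]
  rw [e2]
  have hne := hD.ne'
  generalize v ^ (mu - 1) = r
  generalize (1 + a) * v - a * H = D at hne ⊢
  field_simp
  ring

/-- `m = |v - H⁺|`: `|w| v ≤ m s`, `|D - D∞| = (1 + a) m`, `s = v + |w|`. -/
theorem Reg.m_facts {K H v a : ℝ} (ha : 0 < a) (h : Reg K H v) :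
    |v - H| * v ≤ |v - max H 0| * (v + |v - H|) ∧
    |(1 + a) * v - a * H - (max H 0 + a * max (-H) 0)| = (1 + a) * |v - max H 0| := by
  obtain ⟨h1, h2, h3⟩ := h
  have ha' : 0 < 1 + a := by linarith
  rcases le_or_gt 0 H with h0 | h0
  · rw [max_eq_left h0, max_eq_right (by linarith : -H ≤ 0)]
    refine ⟨?_, ?_⟩
    · have := abs_nonneg (v - H)
      nlinarith
    · have e : (1 + a) * v - a * H - (H + a * 0) = (1 + a) * (v - H) := by ring
      rw [e, _root_.abs_mul, abs_of_pos ha']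
  · rw [max_eq_right h0.le, max_eq_left (by linarith : 0 ≤ -H), sub_zero,
      abs_of_pos h1, abs_of_pos (by linarith : 0 < v - H)]
    refine ⟨by nlinarith, ?_⟩
    have e : (1 + a) * v - a * H - (0 + a * -H) = (1 + a) * v := by ring
    rw [e, abs_of_pos (mul_pos ha' h1)]

/-- The derivative of `k P + E`, divided by the derivative of `P`, is near the limit of `k`. -/
theorem ratio_bound {K mu a H H1 g η v : ℝ} (hK : 1 ≤ K) (ha : 1 ≤ K * a) (ha' : a ≤ K)
    (hmu : 1 ≤ K * mu) (hmu' : mu ≤ K) (hH1 : |H1| ≤ K) (hl : |a - mu| ≤ K * |H|)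
    (hH : |H| ≤ 1 / 4) (hg : |g| ≤ η) (hv : Reg K H v) :
    ∃ F' : ℝ, HasDerivAt (Fv mu a H H1 g) F' v ∧ 0 < v ^ (mu - 1) * (v + mu * (v - H)) ∧
      (H ≠ 0 → |F' / (v ^ (mu - 1) * (v + mu * (v - H))) -
        (mu - a) * H1 / (max H 0 + a * max (-H) 0)| ≤
        136 * K ^ 6 * (η + |v - max H 0| / (v + |v - H|))) := by
  have hK0 : 0 < K := by linarith
  have hap : 0 < a := by nlinarith
  have hmup : 0 < mu := by nlinarith
  have hη : 0 ≤ η := (abs_nonneg _).trans hg
  obtain ⟨m1, m2⟩ := hv.m_facts hap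
  have hs := hv.s_pos
  have hh := hv.abs_le
  have hD0 := hv.lin_ge hK ha ha'
  have hq0 := hv.lin_ge hK hmu hmu'
  have hvp := hv.1
  have hm := abs_nonneg (v - max H 0)
  have eD : (1 + a) * v - a * H = v + a * (v - H) := by ring
  have hys : v ≤ v + |v - H| := by linarith [abs_nonneg (v - H)]
  have hDp : 0 < v + a * (v - H) := by
    by_contra hc
    rw [not_lt] at hc
    nlinarith
  have hqp : 0 < v + mu * (v - H) := by
    by_contra hc
    rw [not_lt] at hc
    nlinarith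
  have hvr : 0 < v ^ (mu - 1) := Real.rpow_pos_of_pos hvp _
  refine ⟨_, Fv_deriv hvp (by rw [eD]; exact hDp), mul_pos hvr hqp, fun hH0 => ?_⟩
  rw [eD] at m2 ⊢
  -- names
  obtain ⟨s, es⟩ : ∃ s, s = v + |v - H| := ⟨_, rfl⟩
  obtain ⟨m, em⟩ : ∃ m, m = |v - max H 0| := ⟨_, rfl⟩
  obtain ⟨D, eDD⟩ : ∃ D, D = v + a * (v - H) := ⟨_, rfl⟩
  obtain ⟨q, eq⟩ : ∃ q, q = v + mu * (v - H) := ⟨_, rfl⟩
  obtain ⟨E, eE⟩ : ∃ E, E = max H 0 + a * max (-H) 0 := ⟨_, rfl⟩
  rw [← es] at m1 hs hh hD0 hq0 hys ⊢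
  rw [← em] at m1 m2 hm ⊢
  rw [← eDD] at m2 hD0 hDp ⊢
  rw [← eq] at hq0 hqp ⊢
  rw [← eE] at m2 ⊢
  have hl' : |mu - a| ≤ K * |H| := by rw [abs_sub_comm]; exact hl
  -- the numerator
  have n1 : |(mu - a) * H1| ≤ K ^ 2 * |H| := by
    rw [_root_.abs_mul]
    calc |mu - a| * |H1| ≤ (K * |H|) * K :=
          mul_le_mul hl' hH1 (abs_nonneg _) (mul_nonneg hK0.le (abs_nonneg _))
      _ = K ^ 2 * |H| := by ring
  have hHp : 0 < |H| := abs_pos.2 hH0
  have hE0 : |H| ≤ K * E := by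
    rw [eE]
    rcases le_or_gt 0 H with h0 | h0
    · rw [max_eq_left h0, max_eq_right (by linarith : -H ≤ 0), abs_of_nonneg h0]
      nlinarith
    · rw [max_eq_right h0.le, max_eq_left (by linarith : 0 ≤ -H), abs_of_neg h0]
      nlinarith
  have hEp : 0 < E := by
    by_contra hc
    rw [not_lt] at hc
    nlinarith
  have h1a : 1 + a ≤ 2 * K := by linarith
  have p1 : 0 ≤ m / s := by positivity
  -- first term
  have t1 : |(mu - a) * H1 / D - (mu - a) * H1 / E| ≤ 8 * K ^ 5 * (m / s) := by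
    have e1 : (mu - a) * H1 / D - (mu - a) * H1 / E = (mu - a) * H1 * (E - D) / (D * E) := by
      field_simp
    rw [e1, _root_.abs_div, _root_.abs_mul ((mu - a) * H1), abs_sub_comm E D, m2,
      abs_of_pos (mul_pos hDp hEp), div_le_iff₀ (mul_pos hDp hEp)]
    have e2 : s * |H| ≤ 4 * K ^ 2 * (D * E) := by
      calc s * |H| ≤ (4 * K * D) * (K * E) := mul_le_mul hD0 hE0 hHp.le (by positivity)
        _ = 4 * K ^ 2 * (D * E) := by ring
    calc |(mu - a) * H1| * ((1 + a) * m) ≤ (K ^ 2 * |H|) * (2 * K * m) := by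
          refine mul_le_mul n1 ?_ (mul_nonneg (by linarith) hm) (by positivity)
          exact mul_le_mul_of_nonneg_right h1a hm
      _ = 2 * K ^ 3 * (m / s) * (s * |H|) := by
          field_simp
      _ ≤ 2 * K ^ 3 * (m / s) * (4 * K ^ 2 * (D * E)) :=
          mul_le_mul_of_nonneg_left e2 (by positivity)
      _ = 8 * K ^ 5 * (m / s) * (D * E) := by ring
  -- second term
  have t2 : |(mu - a) * H1 * (1 + a) * ((v - H) * v) / D ^ 2| ≤
      128 * K ^ 6 * (m / s) * q := by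
    rw [_root_.abs_div, _root_.abs_mul, _root_.abs_mul ((mu - a) * H1),
      abs_of_pos (by linarith : 0 < 1 + a), _root_.abs_mul (v - H), abs_of_pos hvp,
      abs_of_pos (by positivity : 0 < D ^ 2), div_le_iff₀ (by positivity)]
    have e1 : s ^ 3 ≤ 64 * K ^ 3 * (q * D ^ 2) := by
      calc s ^ 3 = s * s ^ 2 := by ring
        _ ≤ (4 * K * q) * (4 * K * D) ^ 2 := mul_le_mul hq0 (pow_le_pow_left₀ hs.le hD0 2)
            (by positivity) (by positivity)
        _ = 64 * K ^ 3 * (q * D ^ 2) := by ring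
    calc |(mu - a) * H1| * (1 + a) * (|v - H| * v) ≤ (K ^ 2 * s) * (2 * K) * (m * s) := by
          refine mul_le_mul (mul_le_mul (n1.trans ?_) h1a (by linarith) (by positivity))
            m1 (by positivity) (by positivity)
          exact mul_le_mul_of_nonneg_left hh (by positivity)
      _ = 2 * K ^ 3 * (m / s) * s ^ 3 := by
          field_simp
      _ ≤ 2 * K ^ 3 * (m / s) * (64 * K ^ 3 * (q * D ^ 2)) :=
          mul_le_mul_of_nonneg_left e1 (by positivity)
      _ = 128 * K ^ 6 * (m / s) * q * D ^ 2 := by ring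
  -- third term
  have t3 : |H1 ^ 2 * (H * g) * ((mu * q + v * (1 + mu)) / D - v * q * (1 + a) / D ^ 2)| ≤
      136 * K ^ 6 * η * q := by
    have g1 : |H1 ^ 2 * (H * g)| ≤ K ^ 2 * (s * η) := by
      rw [_root_.abs_mul, abs_pow, _root_.abs_mul]
      refine mul_le_mul (pow_le_pow_left₀ (abs_nonneg _) hH1 2) ?_ (by positivity) (by positivity)
      exact mul_le_mul hh hg (abs_nonneg _) hs.le
    have g2 : |(mu * q + v * (1 + mu)) / D - v * q * (1 + a) / D ^ 2| ≤
        (K * q + s * (2 * K)) / (s / (4 * K)) + s * q * (2 * K) / (s / (4 * K)) ^ 2 := by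
      have hD1 : s / (4 * K) ≤ D := by
        rw [div_le_iff₀ (by positivity)]
        linarith
      refine (abs_sub _ _).trans (add_le_add ?_ ?_)
      · rw [abs_of_nonneg (by positivity)]
        refine div_le_div₀ (by positivity) ?_ (by positivity) hD1
        exact add_le_add (mul_le_mul_of_nonneg_right hmu' hqp.le)
          (mul_le_mul hys (by linarith) (by linarith) hs.le)
      · rw [abs_of_nonneg (by positivity)]
        refine div_le_div₀ (by positivity) ?_ (by positivity)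
          (pow_le_pow_left₀ (by positivity) hD1 2)
        exact mul_le_mul (mul_le_mul_of_nonneg_right hys hqp.le) h1a (by linarith)
          (by positivity)
    have g3 : s * ((K * q + s * (2 * K)) / (s / (4 * K)) + s * q * (2 * K) / (s / (4 * K)) ^ 2) =
        4 * K ^ 2 * q + 8 * K ^ 2 * s + 32 * K ^ 3 * q := by
      field_simp
      ring
    have g4 : 4 * K ^ 2 * q + 8 * K ^ 2 * s + 32 * K ^ 3 * q ≤ 136 * K ^ 3 * q := by
      have f1 : 8 * K ^ 2 * s ≤ 8 * K ^ 2 * (4 * K * q) :=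
        mul_le_mul_of_nonneg_left hq0 (by positivity)
      have f2 : K ^ 2 * q ≤ K ^ 3 * q :=
        mul_le_mul_of_nonneg_right (pow_le_pow_right₀ hK (by norm_num)) hqp.le
      have f3 : 0 ≤ K ^ 3 * q := by positivity
      nlinarith
    rw [_root_.abs_mul]
    calc |H1 ^ 2 * (H * g)| * |(mu * q + v * (1 + mu)) / D - v * q * (1 + a) / D ^ 2|
        ≤ (K ^ 2 * (s * η)) *
          ((K * q + s * (2 * K)) / (s / (4 * K)) + s * q * (2 * K) / (s / (4 * K)) ^ 2) :=
          mul_le_mul g1 g2 (abs_nonneg _) (by positivity)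
      _ = K ^ 2 * η *
          (s * ((K * q + s * (2 * K)) / (s / (4 * K)) +
            s * q * (2 * K) / (s / (4 * K)) ^ 2)) := by ring
      _ ≤ K ^ 2 * η * (136 * K ^ 3 * q) := by
          rw [g3]
          exact mul_le_mul_of_nonneg_left g4 (by positivity)
      _ = 136 * K ^ 5 * (η * q) := by ring
      _ ≤ 136 * K ^ 6 * (η * q) := by
          refine mul_le_mul_of_nonneg_right ?_ (by positivity)
          have := pow_le_pow_right₀ hK (show 5 ≤ 6 by norm_num)
          linarith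
      _ = _ := by ring
  -- sum
  have hX : v ^ (mu - 1) * ((mu - a) * H1 / D * q -
        (mu - a) * H1 * (1 + a) * ((v - H) * v) / D ^ 2 +
        H1 ^ 2 * (H * g) * ((mu * q + v * (1 + mu)) / D - v * q * (1 + a) / D ^ 2)) /
        (v ^ (mu - 1) * q) - (mu - a) * H1 / E =
      ((mu - a) * H1 / D - (mu - a) * H1 / E) -
      (mu - a) * H1 * (1 + a) * ((v - H) * v) / D ^ 2 / q +
      H1 ^ 2 * (H * g) * ((mu * q + v * (1 + mu)) / D - v * q * (1 + a) / D ^ 2) / q := by
    have hvr' := hvr.ne'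
    have hq' := hqp.ne'
    rw [mul_div_mul_left _ _ hvr']
    generalize (mu - a) * H1 / E = c1
    generalize (mu - a) * H1 * (1 + a) * ((v - H) * v) / D ^ 2 = c2
    generalize H1 ^ 2 * (H * g) * ((mu * q + v * (1 + mu)) / D - v * q * (1 + a) / D ^ 2) = c3
    generalize (mu - a) * H1 / D = c4
    field_simp
    ring
  rw [hX]
  have k2 : |(mu - a) * H1 * (1 + a) * ((v - H) * v) / D ^ 2 / q| ≤ 128 * K ^ 6 * (m / s) := by
    rw [_root_.abs_div, abs_of_pos hqp, div_le_iff₀ hqp]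
    exact t2
  have k3 : |H1 ^ 2 * (H * g) * ((mu * q + v * (1 + mu)) / D - v * q * (1 + a) / D ^ 2) / q| ≤
      136 * K ^ 6 * η := by
    rw [_root_.abs_div, abs_of_pos hqp, div_le_iff₀ hqp]
    exact t3
  refine (abs_add_le _ _).trans ?_
  have k5 : 8 * K ^ 5 * (m / s) ≤ 8 * K ^ 6 * (m / s) := by
    refine mul_le_mul_of_nonneg_right ?_ p1
    have := pow_le_pow_right₀ hK (show 5 ≤ 6 by norm_num)
    linarith
  calc _ ≤ (8 * K ^ 6 * (m / s) + 128 * K ^ 6 * (m / s)) + 136 * K ^ 6 * η :=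
        add_le_add ((abs_sub _ _).trans (add_le_add (t1.trans k5) k2)) k3
    _ = 136 * K ^ 6 * (η + m / s) := by ring

end Pool.Agent.Lib.MP_95e7ec_an.Dy
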