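import Pool.Agent.Lib.MP_95e7ec_an.Dy.DBound
import Pool.Agent.Lib.MP_95e7ec_an.Dy.DRatio
import Pool.Agent.Lib.MP_95e7ec_an.Dy.DFour

/-!
# The difference of two solutions
-/

set_option autoImplicit false

open Set Filter Topology

namespace Pool.Agent.Lib.MP_95e7ec_an.Dy

open Pool.Agent.Lib.MP_95e7ec_an.Pw

/-- A mean value inequality for the quotient of two increments. -/
theorem diff_le {F P F' P' : ℝ → ℝ} {κ e y1 y2 : ℝ} (h12 : y1 ≤ y2)
    (hF : ∀ v ∈ Icc y1 y2, HasDerivAt F (F' v) v) (hP : ∀ v ∈ Icc y1 y2, HasDerivAt P (P' v) v)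
    (hp : ∀ v ∈ Icc y1 y2, 0 < P' v) (hb : ∀ v ∈ Icc y1 y2, |F' v / P' v - κ| ≤ e) :
    |(F y2 - F y1) - κ * (P y2 - P y1)| ≤ e * (P y2 - P y1) := by
  have cP : ContinuousOn P (Icc y1 y2) := fun y hy => (hP y hy).continuousAt.continuousWithinAt
  have cF : ContinuousOn F (Icc y1 y2) := fun y hy => (hF y hy).continuousAt.continuousWithinAt
  have key : ∀ v ∈ Icc y1 y2, |F' v - κ * P' v| ≤ e * P' v := by
    intro v hv
    have h1 := hp v hv
    have h2 : F' v - κ * P' v = (F' v / P' v - κ) * P' v := by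
      have := h1.ne'
      field_simp
    rw [h2, abs_mul, abs_of_pos h1]
    exact mul_le_mul_of_nonneg_right (hb v hv) h1.le
  have m1 : MonotoneOn (fun y => F y - (κ - e) * P y) (Icc y1 y2) := by
    refine monotoneOn_of_deriv_nonneg (convex_Icc _ _) (cF.sub (cP.const_mul _)) ?_ ?_
    · intro y hy
      have hy' := interior_subset hy
      exact ((hF y hy').sub ((hP y hy').const_mul _)).differentiableAt.differentiableWithinAt
    · intro y hy
      have hy' := interior_subset hy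
      rw [((hF y hy').fun_sub ((hP y hy').const_mul _)).deriv]
      have := (abs_le.1 (key y hy')).1
      linarith
  have m2 : MonotoneOn (fun y => (κ + e) * P y - F y) (Icc y1 y2) := by
    refine monotoneOn_of_deriv_nonneg (convex_Icc _ _) ((cP.const_mul _).sub cF) ?_ ?_
    · intro y hy
      have hy' := interior_subset hy
      exact (((hP y hy').const_mul _).sub (hF y hy')).differentiableAt.differentiableWithinAt
    · intro y hy
      have hy' := interior_subset hy
      rw [(((hP y hy').const_mul _).fun_sub (hF y hy')).deriv]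
      have := (abs_le.1 (key y hy')).2
      linarith
  have k1 := m1 ⟨le_refl _, h12⟩ ⟨h12, le_refl _⟩ h12
  have k2 := m2 ⟨le_refl _, h12⟩ ⟨h12, le_refl _⟩ h12
  simp only at k1 k2
  rw [abs_le]
  constructor <;> linarith

/-- The increment of a function with positive derivative is positive. -/
theorem incr_pos {P P' : ℝ → ℝ} {y1 y2 : ℝ} (h12 : y1 < y2)
    (hP : ∀ v ∈ Icc y1 y2, HasDerivAt P (P' v) v) (hp : ∀ v ∈ Icc y1 y2, 0 < P' v) :
    0 < P y2 - P y1 := by
  have cP : ContinuousOn P (Icc y1 y2) := fun y hy => (hP y hy).continuousAt.continuousWithinAt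
  have m1 : StrictMonoOn P (Icc y1 y2) := by
    refine strictMonoOn_of_deriv_pos (convex_Icc _ _) cP ?_
    intro y hy
    have hy' := interior_subset hy
    rw [(hP y hy').deriv]
    exact hp y hy'
  have := m1 ⟨le_refl _, h12.le⟩ ⟨h12.le, le_refl _⟩ h12
  linarith

/-- `m / s ≤ 1`. -/
theorem Reg.m_le {K H v : ℝ} (h : Reg K H v) : |v - max H 0| ≤ v + |v - H| := by
  rcases le_or_gt 0 H with h0 | h0
  · rw [max_eq_left h0]
    linarith [h.1]
  · rw [max_eq_right h0.le, sub_zero, abs_of_pos h.1]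
    linarith [abs_nonneg (v - H)]

/-- The difference `Q = P₂ - P₁` of two solutions is multiplied by `exp (Kinf + o(1))`. -/
theorem quot {α x0 β : ℝ} {a h h1 : ℝ → ℝ} {mu K : ℝ} (D : Hf α x0 β a h h1 mu K) (δ : ℝ)
    (hδ : 0 < δ) : ∃ r : ℝ, 0 < r ∧ r ≤ 1 / (2 * K ^ 2) ∧ ∀ g y1 y2 : ℝ → ℝ, Adm α β r g →
      SolK K a h h1 g α β y1 → SolK K a h h1 g α β y2 → (∀ x ∈ Icc α β, y1 x < y2 x) →
      y2 α ≤ r →
      0 < PP mu h y2 α - PP mu h y1 α ∧ 0 < PP mu h y2 β - PP mu h y1 β ∧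
      |Real.log (PP mu h y2 β - PP mu h y1 β) - Real.log (PP mu h y2 α - PP mu h y1 α) -
        Kinf mu a h h1 α β| ≤ δ := by
  have hK1 := D.K1
  have hK0 := D.K0
  -- the constants
  obtain ⟨C, hC⟩ : ∃ C, C = 136 * K ^ 6 := ⟨_, rfl⟩
  have hC0 : 0 < C := by rw [hC]; positivity
  obtain ⟨e, he⟩ : ∃ e, e = δ / (8 * C) := ⟨_, rfl⟩
  have he0 : 0 < e := by rw [he]; positivity
  obtain ⟨ε, hε⟩ : ∃ ε, ε = min (e / K) (δ / (4 * C * K)) := ⟨_, rfl⟩
  have hε0 : 0 < ε := by rw [hε]; exact lt_min (by positivity) (by positivity)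
  have hε1 : ε ≤ e / K := by rw [hε]; exact min_le_left _ _
  have hε2 : ε ≤ δ / (4 * C * K) := by rw [hε]; exact min_le_right _ _
  obtain ⟨r0, hr0, hr1, hsm⟩ := region_small D ε hε0
  have hK2 : 1 / (2 * K ^ 2) ≤ 1 := by
    rw [div_le_one (by positivity)]
    nlinarith
  refine ⟨min r0 (δ / (4 * C * K)), lt_min hr0 (by positivity), (min_le_left _ _).trans hr1, ?_⟩
  intro g y1 y2 hg hS1 hS2 hlt hy2
  obtain ⟨η, hη⟩ : ∃ η, η = min r0 (δ / (4 * C * K)) := ⟨_, rfl⟩
  rw [← hη] at hg hy2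
  have hη0 : 0 < η := by rw [hη]; exact lt_min hr0 (by positivity)
  have hηr : η ≤ r0 := by rw [hη]; exact min_le_left _ _
  have hη2 : η ≤ δ / (4 * C * K) := by rw [hη]; exact min_le_right _ _
  have hη1 : η ≤ 1 := (hηr.trans hr1).trans hK2
  have hg0 : Adm α β r0 g := ⟨hg.1, fun x hx => (hg.2 x hx).trans hηr⟩
  -- the region between the two solutions
  have hR : ∀ x ∈ Icc α β, ∀ v ∈ Icc (y1 x) (y2 x), Reg K (h x) v := fun x hx v hv =>
    (hS1 x hx).1.between hK1 (hS2 x hx).1 hv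
  have hPd : ∀ x ∈ Icc α β, ∀ v ∈ Icc (y1 x) (y2 x),
      HasDerivAt (Pv mu (h x)) (v ^ (mu - 1) * (v + mu * (v - h x))) v := fun x hx v hv =>
    Pv_deriv (hR x hx v hv).1
  have hrb := fun x (hx : x ∈ Icc α β) v (hv : v ∈ Icc (y1 x) (y2 x)) =>
    ratio_bound (H1 := h1 x) hK1 (D.a_lo x hx) (D.a_up x hx) D.mu_lo D.mu_up (D.h1_le x hx)
      (D.a_lip x hx) (D.abs_h_le hx) (hg.2 x hx) (hR x hx v hv)
  have hPp : ∀ x ∈ Icc α β, ∀ v ∈ Icc (y1 x) (y2 x),
      0 < v ^ (mu - 1) * (v + mu * (v - h x)) := fun x hx v hv => by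
    obtain ⟨F', -, h2, -⟩ := hrb x hx v hv
    exact h2
  have hQ : ∀ x ∈ Icc α β, 0 < PP mu h y2 x - PP mu h y1 x := fun x hx =>
    incr_pos (P := Pv mu (h x)) (hlt x hx) (hPd x hx) (hPp x hx)
  refine ⟨hQ α D.left_mem, hQ β D.right_mem, ?_⟩
  -- the derivative of `Q`
  have hder : ∀ x ∈ Ioo α β, HasDerivAt (fun x => PP mu h y2 x - PP mu h y1 x)
      (Fv mu (a x) (h x) (h1 x) (g x) (y2 x) - Fv mu (a x) (h x) (h1 x) (g x) (y1 x)) x := by
    intro x hx
    have hx' : x ∈ Icc α β := ⟨hx.1.le, hx.2.le⟩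
    have e1 := (PP_derivK D hS1 hx').hasDerivAt (Icc_mem_nhds hx.1 hx.2)
    have e2 := (PP_derivK D hS2 hx').hasDerivAt (Icc_mem_nhds hx.1 hx.2)
    exact e2.sub e1
  -- the bound of the logarithmic derivative
  have hbd : ∀ x ∈ Ioo α β, x ≠ x0 → ∀ m : ℝ,
      (∀ v ∈ Icc (y1 x) (y2 x), |v - max (h x) 0| / (v + |v - h x|) ≤ m) →
      |(Fv mu (a x) (h x) (h1 x) (g x) (y2 x) - Fv mu (a x) (h x) (h1 x) (g x) (y1 x)) /
        (PP mu h y2 x - PP mu h y1 x) - kinf mu a h h1 x| ≤ C * (η + m) := by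
    intro x hx hne m hm
    have hx' : x ∈ Icc α β := ⟨hx.1.le, hx.2.le⟩
    have hh := D.h_ne hx' hne
    have hq := hQ x hx'
    choose! F' hF using hrb x hx'
    have hdl := diff_le (F := Fv mu (a x) (h x) (h1 x) (g x)) (P := Pv mu (h x)) (F' := F')
      (P' := fun v => v ^ (mu - 1) * (v + mu * (v - h x)))
      (κ := kinf mu a h h1 x) (e := C * (η + m)) (hlt x hx').le
      (fun v hv => (hF v hv).1) (hPd x hx') (hPp x hx') (fun v hv => by
        refine ((hF v hv).2.2 hh).trans ?_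
        rw [hC]
        exact mul_le_mul_of_nonneg_left (by linarith [hm v hv]) (by positivity))
    have e1 : (Fv mu (a x) (h x) (h1 x) (g x) (y2 x) - Fv mu (a x) (h x) (h1 x) (g x) (y1 x)) /
        (PP mu h y2 x - PP mu h y1 x) - kinf mu a h h1 x =
        ((Fv mu (a x) (h x) (h1 x) (g x) (y2 x) - Fv mu (a x) (h x) (h1 x) (g x) (y1 x)) -
        kinf mu a h h1 x * (PP mu h y2 x - PP mu h y1 x)) / (PP mu h y2 x - PP mu h y1 x) := by
      have := hq.ne'
      field_simp
    rw [e1, abs_div, abs_of_pos hq, div_le_iff₀ hq]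
    exact hdl
  have hfour := four_bound (f := fun x => Real.log (PP mu h y2 x - PP mu h y1 x) -
      Kinf mu a h h1 α x)
    (f' := fun x => (Fv mu (a x) (h x) (h1 x) (g x) (y2 x) -
      Fv mu (a x) (h x) (h1 x) (g x) (y1 x)) /
        (PP mu h y2 x - PP mu h y1 x) - kinf mu a h h1 x)
    (A := C * (η + ε)) (B := C * (η + 1)) D.lt0 D.lt1 he0 (by positivity) (by positivity)
    (by
      refine ContinuousOn.sub (ContinuousOn.log ?_ fun x hx => (hQ x hx).ne') (Kinf_cont D)
      exact ContinuousOn.sub (fun x hx => (PP_derivK D hS2 hx).continuousWithinAt)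
        (fun x hx => (PP_derivK D hS1 hx).continuousWithinAt))
    (fun x hx hne => ((hder x hx).log (hQ x ⟨hx.1.le, hx.2.le⟩).ne').sub (Kinf_deriv D hx hne))
    (fun x hx hex => by
      have hx' : x ∈ Icc α β := ⟨hx.1.le, hx.2.le⟩
      have hne : x ≠ x0 := by
        rintro rfl
        rw [sub_self, abs_zero] at hex
        linarith
      have hhl : ε ≤ |h x| := by
        have e1 := D.h_lower x hx'
        have e2 : e ≤ K * |h x| := hex.trans e1
        refine hε1.trans ?_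
        rw [div_le_iff₀ hK0]
        linarith
      refine hbd x hx hne ε fun v hv => ?_
      have hRv := hR x hx' v hv
      have hs := hRv.s_pos
      rw [div_le_iff₀ hs]
      have k1 := abs_le.1 (hsm g y1 hg0 hS1 ((hlt α D.left_mem).le.trans (hy2.trans hηr)) x hx' hhl)
      have k2 := abs_le.1 (hsm g y2 hg0 hS2 (hy2.trans hηr) x hx' hhl)
      have k3 : |v - max (h x) 0| ≤ ε * |h x| :=
        abs_le.2 ⟨by linarith [hv.1], by linarith [hv.2]⟩
      exact k3.trans (mul_le_mul_of_nonneg_left hRv.abs_le hε0.le))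
    (fun x hx hne => by
      have hx' : x ∈ Icc α β := ⟨hx.1.le, hx.2.le⟩
      refine hbd x hx hne 1 fun v hv => ?_
      have hRv := hR x hx' v hv
      rw [div_le_one hRv.s_pos]
      exact hRv.m_le)
  have hKα : Kinf mu a h h1 α α = 0 := by
    unfold Kinf
    exact intervalIntegral.integral_same
  simp only [hKα, sub_zero] at hfour
  have hfin : Real.log (PP mu h y2 β - PP mu h y1 β) - Real.log (PP mu h y2 α - PP mu h y1 α) -
      Kinf mu a h h1 α β = Real.log (PP mu h y2 β - PP mu h y1 β) - Kinf mu a h h1 α β -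
      Real.log (PP mu h y2 α - PP mu h y1 α) := by ring
  rw [hfin]
  refine hfour.trans ?_
  have hlen := D.len
  have hlen0 : 0 ≤ β - α := by linarith [D.lt]
  have b1 : C * (η + ε) * (β - α) ≤ δ / 2 := by
    have c1 : η + ε ≤ δ / (2 * C * K) := by
      have : δ / (2 * C * K) = δ / (4 * C * K) + δ / (4 * C * K) := by field_simp; ring
      linarith
    calc C * (η + ε) * (β - α) ≤ C * (δ / (2 * C * K)) * K :=
          mul_le_mul (mul_le_mul_of_nonneg_left c1 hC0.le) hlen hlen0 (by positivity)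
      _ = δ / 2 := by field_simp
  have b2 : 2 * e * (C * (η + 1)) ≤ δ / 2 := by
    calc 2 * e * (C * (η + 1)) ≤ 2 * e * (C * 2) :=
          mul_le_mul_of_nonneg_left (mul_le_mul_of_nonneg_left (by linarith) hC0.le)
            (by positivity)
      _ = δ / 2 := by rw [he]; field_simp; ring
  linarith

end Pool.Agent.Lib.MP_95e7ec_an.Dy
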