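import Pool.Agent.Lib.MP_95e7ec_an.Dy.DExist
import Pool.Agent.Lib.MP_95e7ec_an.Dy.DQuot
import Pool.Agent.Lib.MP_95e7ec_an.Dy.DLin

/-!
# The relative half period lemma
-/

set_option autoImplicit false

open Set Filter Topology

namespace Pool.Agent.Lib.MP_95e7ec_an.Dy

open Pool.Agent.Lib.MP_95e7ec_an.Pw

/-- The conclusion of the half period lemma. `P0 g` is the limit of `P` at the right end when the
start tends to `0`. -/
structure HalfRel (α x0 β : ℝ) (a h h1 : ℝ → ℝ) (mu K A r0 : ℝ) (P0 : (ℝ → ℝ) → ℝ)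
    (Y : (ℝ → ℝ) → ℝ → ℝ → ℝ) : Prop where
  Apos : 0 < A
  r0pos : 0 < r0
  r0le : r0 ≤ 1 / (2 * K ^ 2)
  sol : ∀ g, Adm α β r0 g → ∀ z ∈ Ioc (0 : ℝ) (1 / 4),
    Y g z α = z ∧ SolK K a h h1 g α β (Y g z)
  cont_z : ∀ g, Adm α β r0 g → ContinuousOn (fun z => Y g z β) (Ioc 0 (1 / 4))
  rel : ∀ δ : ℝ, 0 < δ → ∃ r : ℝ, 0 < r ∧ r ≤ r0 ∧ r ≤ 1 / 4 ∧ ∀ g, Adm α β r g →
    ∀ z ∈ Ioc (0 : ℝ) r, |PP mu h (Y g z) β - (P0 g + A * z ^ mu)| ≤ δ * z ^ mu
  lin : ∀ δ : ℝ, 0 < δ → ∃ r : ℝ, 0 < r ∧ ∀ η : ℝ, 0 < η → η ≤ r → ∀ g : ℝ → ℝ,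
    Adm α β η g → |P0 g - ∫ x in x0..β, wK mu a h h1 α β x * g x| ≤ δ * η
  cont : ∀ ε : ℝ, 0 < ε → ∃ δ : ℝ, 0 < δ ∧ ∀ g g' : ℝ → ℝ, Adm α β r0 g → Adm α β r0 g' →
    (∀ x ∈ Icc α β, |g x - g' x| ≤ δ) → |P0 g - P0 g'| ≤ ε

theorem Adm.mono {α β r r' : ℝ} {g : ℝ → ℝ} (hg : Adm α β r g) (hr : r ≤ r') : Adm α β r' g :=
  ⟨hg.1, fun x hx => (hg.2 x hx).trans hr⟩

/-- `P` at the right end as a function of the value of the solution. -/
noncomputable def pf (mu v : ℝ) : ℝ := (v - 1 / 4) * v ^ mu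

theorem Hf.PP_end {α x0 β : ℝ} {a h h1 : ℝ → ℝ} {mu K : ℝ} (D : Hf α x0 β a h h1 mu K)
    (y : ℝ → ℝ) : PP mu h y β = pf mu (y β) := by
  unfold PP pf
  rw [D.h_end]

theorem Reg.mem_Icc {K v : ℝ} (hK : 1 ≤ K) (h : Reg K (1 / 4) v) :
    v ∈ Icc (K / (4 * K + 1)) 1 := by
  refine ⟨?_, h.2.2⟩
  rw [div_le_iff₀ (by linarith)]
  have := h.2.1
  linarith

theorem Reg.of_mem_Icc {K v : ℝ} (hK : 1 ≤ K) (h : v ∈ Icc (K / (4 * K + 1)) 1) :
    Reg K (1 / 4) v := by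
  have hlo : 0 < K / (4 * K + 1) := by positivity
  refine ⟨hlo.trans_le h.1, ?_, h.2⟩
  have := (div_le_iff₀ (by linarith)).1 h.1
  linarith

theorem continuous_pf {mu : ℝ} (hmu : 0 < mu) : Continuous (pf mu) :=
  (continuous_id.sub continuous_const).mul (Real.continuous_rpow_const hmu.le)

theorem pf_strictMono {mu K : ℝ} (hK : 1 ≤ K) (h1 : 1 ≤ K * mu) (h2 : mu ≤ K) :
    StrictMonoOn (pf mu) (Icc (K / (4 * K + 1)) 1) := by
  have hK0 : 0 < K := by linarith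
  have hlo : 0 < K / (4 * K + 1) := by positivity
  have hder : ∀ v : ℝ, 0 < v → HasDerivAt (pf mu)
      (1 * v ^ mu + (v - 1 / 4) * (mu * v ^ (mu - 1))) v := by
    intro v hv
    exact ((hasDerivAt_id v).sub_const (1 / 4)).mul (Real.hasDerivAt_rpow_const (Or.inl hv.ne'))
  refine strictMonoOn_of_deriv_pos (convex_Icc _ _)
    (fun v hv => (hder v (hlo.trans_le hv.1)).continuousAt.continuousWithinAt) ?_
  intro v hv
  rw [interior_Icc] at hv
  have hv0 : 0 < v := hlo.trans hv.1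
  have hR := Reg.of_mem_Icc hK ⟨hv.1.le, hv.2.le⟩
  rw [(hder v hv0).deriv]
  have e : v ^ mu = v ^ (mu - 1) * v := by
    rw [Real.rpow_sub_one hv0.ne']
    field_simp
  have e2 : 0 < v ^ (mu - 1) := Real.rpow_pos_of_pos hv0 _
  have e3 := hR.lin_ge hK h1 h2
  have e4 := hR.s_pos
  have e5 : 0 < v + mu * (v - 1 / 4) := by
    by_contra hc
    rw [not_lt] at hc
    have : 4 * K * (v + mu * (v - 1 / 4)) ≤ 0 := mul_nonpos_of_nonneg_of_nonpos (by linarith) hc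
    linarith
  have e6 : 1 * v ^ mu + (v - 1 / 4) * (mu * v ^ (mu - 1)) =
      v ^ (mu - 1) * (v + mu * (v - 1 / 4)) := by
    rw [e]
    ring
  rw [e6]
  exact mul_pos e2 e5

/-- From the logarithms to the quotients. -/
theorem exp_bounds {x y k δ : ℝ} (hx : 0 < x) (hy : 0 < y)
    (h : |Real.log y - Real.log x - k| ≤ δ) :
    Real.exp (k - δ) * x ≤ y ∧ y ≤ Real.exp (k + δ) * x := by
  obtain ⟨h1, h2⟩ := abs_le.1 h
  constructor
  · calc Real.exp (k - δ) * x = Real.exp (k - δ + Real.log x) := by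
          rw [Real.exp_add, Real.exp_log hx]
      _ ≤ Real.exp (Real.log y) := Real.exp_le_exp.2 (by linarith)
      _ = y := Real.exp_log hy
  · calc y = Real.exp (Real.log y) := (Real.exp_log hy).symm
      _ ≤ Real.exp (k + δ + Real.log x) := Real.exp_le_exp.2 (by linarith)
      _ = Real.exp (k + δ) * x := by rw [Real.exp_add, Real.exp_log hx]

theorem tendsto_rpow_zero {mu : ℝ} (hmu : 0 < mu) :
    Tendsto (fun z : ℝ => z ^ mu) (𝓝[>] 0) (𝓝 0) := by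
  have h1 : Tendsto (fun z : ℝ => z ^ mu) (𝓝 0) (𝓝 ((0 : ℝ) ^ mu)) :=
    (Real.continuous_rpow_const hmu.le).tendsto 0
  rw [Real.zero_rpow hmu.ne'] at h1
  exact h1.mono_left nhdsWithin_le_nhds

/-- The relative half period lemma; the solutions are ordered. -/
theorem half_rel_mono {α x0 β : ℝ} {a h h1 : ℝ → ℝ} {mu K : ℝ} (D : Hf α x0 β a h h1 mu K) :
    ∃ (A r0 : ℝ) (P0 : (ℝ → ℝ) → ℝ) (Y : (ℝ → ℝ) → ℝ → ℝ → ℝ),
      HalfRel α x0 β a h h1 mu K A r0 P0 Y ∧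
      ∀ g, Adm α β r0 g → ∀ z ∈ Ioc (0 : ℝ) (1 / 4), ∀ z' ∈ Ioc (0 : ℝ) (1 / 4), z < z' →
        ∀ x ∈ Icc α β, Y g z x < Y g z' x := by
  obtain ⟨Y, hsol, hord, hcz, hLip⟩ := exists_sol D
  have hK := D.K1
  have hK0 := D.K0
  have hmu := D.mu_pos
  have hRpos : 0 < 1 / (2 * K ^ 2) := by positivity
  set F : (ℝ → ℝ) → ℝ → ℝ := fun g z => PP mu h (Y g z) β with hF
  -- the values at the right end
  have hreg : ∀ g, Adm α β (1 / (2 * K ^ 2)) g → ∀ z ∈ Ioc (0 : ℝ) (1 / 4),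
      Y g z β ∈ Icc (K / (4 * K + 1)) 1 := by
    intro g hg z hz
    have e := ((hsol g hg z hz).2 β D.right_mem).1
    rw [D.h_end] at e
    exact e.mem_Icc hK
  have hlo : 0 < K / (4 * K + 1) := by positivity
  have hmono : ∀ g, Adm α β (1 / (2 * K ^ 2)) g → MonotoneOn (F g) (Ioc 0 (1 / 4)) := by
    intro g hg z hz z' hz' hzz
    rcases hzz.eq_or_lt with h0 | h0
    · rw [h0]
    · simp only [hF, D.PP_end]
      exact (pf_strictMono hK D.mu_lo D.mu_up).monotoneOn (hreg g hg z hz) (hreg g hg z' hz')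
        (hord g hg z hz z' hz' h0 β D.right_mem).le
  have hbdd : ∀ g, Adm α β (1 / (2 * K ^ 2)) g → BddBelow (F g '' Ioo 0 (1 / 4)) := by
    intro g hg
    refine ⟨-1, ?_⟩
    rintro _ ⟨z, hz, rfl⟩
    have e := hreg g hg z ⟨hz.1, hz.2.le⟩
    simp only [hF, D.PP_end, pf]
    have hv0 : 0 < Y g z β := hlo.trans_le e.1
    have e1 : Y g z β ^ mu ≤ 1 := Real.rpow_le_one hv0.le e.2 hmu.le
    have e2 : 0 < Y g z β ^ mu := Real.rpow_pos_of_pos hv0 _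
    nlinarith
  set P0 : (ℝ → ℝ) → ℝ := fun g => sInf (F g '' Ioo 0 (1 / 4)) with hP0
  have hlim : ∀ g, Adm α β (1 / (2 * K ^ 2)) g → Tendsto (F g) (𝓝[>] 0) (𝓝 (P0 g)) := by
    intro g hg
    exact ((hmono g hg).mono Ioo_subset_Ioc_self).tendsto_nhdsWithin_Ioo_right
      ⟨1 / 8, by norm_num, by norm_num⟩ (hbdd g hg)
  -- the start
  have hPα : ∀ g, Adm α β (1 / (2 * K ^ 2)) g → ∀ z ∈ Ioc (0 : ℝ) (1 / 4),
      PP mu h (Y g z) α = (z + 1 / 4) * z ^ mu := by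
    intro g hg z hz
    unfold PP
    rw [(hsol g hg z hz).1, D.h_start]
    ring
  have hq0 : Tendsto (fun z : ℝ => (z + 1 / 4) * z ^ mu) (𝓝[>] 0) (𝓝 0) := by
    have e1 : Tendsto (fun z : ℝ => z + 1 / 4) (𝓝[>] 0) (𝓝 (0 + 1 / 4)) :=
      (Continuous.tendsto (by fun_prop) 0).mono_left nhdsWithin_le_nhds
    have e2 := e1.mul (tendsto_rpow_zero hmu)
    rwa [mul_zero] at e2
  set A : ℝ := Real.exp (Kinf mu a h h1 α β) / 4 with hA
  have hA0 : 0 < A := by positivity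
  have hA4 : Real.exp (Kinf mu a h h1 α β) = 4 * A := by rw [hA]; ring
  -- two solutions, the smaller one tends to zero
  have key : ∀ δ : ℝ, 0 < δ → ∃ r : ℝ, 0 < r ∧ r ≤ 1 / (2 * K ^ 2) ∧ r ≤ 1 / 4 ∧
      ∀ g, Adm α β r g → ∀ z ∈ Ioc (0 : ℝ) r,
        Real.exp (-δ) * (4 * A * ((z + 1 / 4) * z ^ mu)) ≤ F g z - P0 g ∧
        F g z - P0 g ≤ Real.exp δ * (4 * A * ((z + 1 / 4) * z ^ mu)) := by
    intro δ hδ
    obtain ⟨r, hr, hrR, H⟩ := quot D δ hδ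
    refine ⟨min r (1 / 4), lt_min hr (by norm_num), (min_le_left _ _).trans hrR,
      min_le_right _ _, fun g hg z hz => ?_⟩
    have hgr : Adm α β r g := hg.mono (min_le_left _ _)
    have hgR : Adm α β (1 / (2 * K ^ 2)) g := hgr.mono hrR
    have hz4 : z ∈ Ioc (0 : ℝ) (1 / 4) := ⟨hz.1, hz.2.trans (min_le_right _ _)⟩
    have hev : ∀ᶠ z1 in 𝓝[>] (0 : ℝ),
        Real.exp (-δ) * (4 * A * ((z + 1 / 4) * z ^ mu - (z1 + 1 / 4) * z1 ^ mu)) ≤
          F g z - F g z1 ∧ F g z - F g z1 ≤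
        Real.exp δ * (4 * A * ((z + 1 / 4) * z ^ mu - (z1 + 1 / 4) * z1 ^ mu)) := by
      filter_upwards [Ioo_mem_nhdsGT hz.1] with z1 hz1
      have hz14 : z1 ∈ Ioc (0 : ℝ) (1 / 4) := ⟨hz1.1, hz1.2.le.trans hz4.2⟩
      obtain ⟨q1, q2, q3⟩ := H g (Y g z1) (Y g z) hgr (hsol g hgR z1 hz14).2
        (hsol g hgR z hz4).2 (hord g hgR z1 hz14 z hz4 hz1.2)
        (by rw [(hsol g hgR z hz4).1]; exact hz.2.trans (min_le_left _ _))
      have q4 := exp_bounds q1 q2 q3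
      rw [hPα g hgR z hz4, hPα g hgR z1 hz14, sub_eq_add_neg, Real.exp_add, Real.exp_add, hA4]
        at q4
      constructor
      · calc _ = 4 * A * Real.exp (-δ) * ((z + 1 / 4) * z ^ mu - (z1 + 1 / 4) * z1 ^ mu) := by
              ring
          _ ≤ _ := q4.1
      · calc _ ≤ 4 * A * Real.exp δ * ((z + 1 / 4) * z ^ mu - (z1 + 1 / 4) * z1 ^ mu) := q4.2
          _ = _ := by ring
    have l1 : Tendsto (fun z1 => F g z - F g z1) (𝓝[>] 0) (𝓝 (F g z - P0 g)) :=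
      tendsto_const_nhds.sub (hlim g hgR)
    have l2 : ∀ c : ℝ, Tendsto (fun z1 : ℝ =>
        c * (4 * A * ((z + 1 / 4) * z ^ mu - (z1 + 1 / 4) * z1 ^ mu))) (𝓝[>] 0)
        (𝓝 (c * (4 * A * ((z + 1 / 4) * z ^ mu)))) := by
      intro c
      have e := ((tendsto_const_nhds (x := (z + 1 / 4) * z ^ mu)).sub hq0).const_mul (4 * A)
      rw [sub_zero] at e
      exact e.const_mul c
    exact ⟨le_of_tendsto_of_tendsto (l2 _) l1 (hev.mono fun _ e => e.1),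
      le_of_tendsto_of_tendsto l1 (l2 _) (hev.mono fun _ e => e.2)⟩
  -- the relative statement
  have rel : ∀ δ : ℝ, 0 < δ → ∃ r : ℝ, 0 < r ∧ r ≤ 1 / (2 * K ^ 2) ∧ r ≤ 1 / 4 ∧
      ∀ g, Adm α β r g → ∀ z ∈ Ioc (0 : ℝ) r, |F g z - (P0 g + A * z ^ mu)| ≤ δ * z ^ mu := by
    intro δ hδ
    set ρ : ℝ := min 1 (δ / (3 * A)) with hρ
    have hρ0 : 0 < ρ := lt_min one_pos (by positivity)
    have hρ1 : ρ ≤ 1 := min_le_left _ _
    have hρA : 3 * (A * ρ) ≤ δ := by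
      have e : ρ ≤ δ / (3 * A) := min_le_right _ _
      rw [le_div_iff₀ (by positivity)] at e
      linarith
    have hlog : 0 < Real.log (1 + ρ) := Real.log_pos (by linarith)
    obtain ⟨r, hr, hrR, hr4, H⟩ := key (Real.log (1 + ρ)) hlog
    refine ⟨min r (ρ / 4), lt_min hr (by positivity), (min_le_left _ _).trans hrR,
      (min_le_left _ _).trans hr4, fun g hg z hz => ?_⟩
    have hzr : z ∈ Ioc (0 : ℝ) r := ⟨hz.1, hz.2.trans (min_le_left _ _)⟩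
    have hzρ : 4 * z ≤ ρ := by
      have := hz.2.trans (min_le_right r (ρ / 4))
      linarith
    obtain ⟨b1, b2⟩ := H g (hg.mono (min_le_left _ _)) z hzr
    have hzm : 0 < z ^ mu := Real.rpow_pos_of_pos hz.1 _
    rw [Real.exp_log (by linarith)] at b2
    have e1 : 1 - ρ ≤ Real.exp (-Real.log (1 + ρ)) := by
      have e2 := Real.add_one_le_exp (-Real.log (1 + ρ))
      have e3 := Real.log_le_sub_one_of_pos (show (0 : ℝ) < 1 + ρ by linarith)
      linarith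
    have hAz : 0 < A * z ^ mu := by positivity
    rw [abs_le]
    constructor
    · have e4 : (1 - ρ) * (4 * A * ((z + 1 / 4) * z ^ mu)) ≤ F g z - P0 g :=
        (mul_le_mul_of_nonneg_right e1 (by
          have := hz.1
          positivity)).trans b1
      have e5 : (1 - ρ) * (A * z ^ mu) ≤ (1 - ρ) * (4 * A * ((z + 1 / 4) * z ^ mu)) := by
        refine mul_le_mul_of_nonneg_left ?_ (by linarith)
        have : 4 * A * ((z + 1 / 4) * z ^ mu) = A * z ^ mu + 4 * z * (A * z ^ mu) := by ring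
        rw [this]
        have := mul_pos (mul_pos (by norm_num : (0 : ℝ) < 4) hz.1) hAz
        linarith
      have e6 : A * ρ * z ^ mu ≤ δ * z ^ mu := by
        refine mul_le_mul_of_nonneg_right ?_ hzm.le
        have := mul_pos hA0 hρ0
        linarith
      linarith
    · have e5 : (1 + ρ) * (4 * A * ((z + 1 / 4) * z ^ mu)) ≤ (1 + 3 * ρ) * (A * z ^ mu) := by
        have : (1 + ρ) * (4 * A * ((z + 1 / 4) * z ^ mu)) =
            (1 + ρ) * (1 + 4 * z) * (A * z ^ mu) := by ring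
        rw [this]
        refine mul_le_mul_of_nonneg_right ?_ hAz.le
        nlinarith
      have e6 : 3 * (A * ρ) * z ^ mu ≤ δ * z ^ mu := mul_le_mul_of_nonneg_right hρA hzm.le
      linarith
  obtain ⟨r0, hr0, hr0R, hr04, hrel0⟩ := rel 1 one_pos
  refine ⟨A, r0, P0, Y, ⟨hA0, hr0, hr0R, fun g hg => hsol g (hg.mono hr0R),
    fun g hg => hcz g (hg.mono hr0R), ?_, ?_, ?_⟩, fun g hg => hord g (hg.mono hr0R)⟩
  · intro δ hδ
    obtain ⟨r, hr, hrR, hr4, H⟩ := rel δ hδ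
    exact ⟨min r r0, lt_min hr hr0, min_le_right _ _, (min_le_left _ _).trans hr4,
      fun g hg z hz => H g (hg.mono (min_le_left _ _)) z ⟨hz.1, hz.2.trans (min_le_left _ _)⟩⟩
  · intro δ hδ
    obtain ⟨C, hC, H⟩ := lin_term D
    obtain ⟨r, hr, hrR, H⟩ := H δ hδ
    refine ⟨r, hr, fun η hη hηr g hg => ?_⟩
    have hgR : Adm α β (1 / (2 * K ^ 2)) g := hg.mono (hηr.trans hrR)
    have l1 : Tendsto (fun z => |F g z - ∫ x in x0..β, wK mu a h h1 α β x * g x|) (𝓝[>] 0)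
        (𝓝 |P0 g - ∫ x in x0..β, wK mu a h h1 α β x * g x|) :=
      ((hlim g hgR).sub tendsto_const_nhds).abs
    have l2 : Tendsto (fun z : ℝ => C * z ^ mu + δ * η) (𝓝[>] 0) (𝓝 (δ * η)) := by
      have e := ((tendsto_rpow_zero hmu).const_mul C).add_const (δ * η)
      rwa [mul_zero, zero_add] at e
    refine le_of_tendsto_of_tendsto l1 l2 ?_
    filter_upwards [Ioo_mem_nhdsGT (show (0 : ℝ) < min r (1 / 4) from lt_min hr (by norm_num))]
      with z hz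
    have hz4 : z ∈ Ioc (0 : ℝ) (1 / 4) := ⟨hz.1, hz.2.le.trans (min_le_right _ _)⟩
    have e := H g (Y g z) η hη hηr hg (hsol g hgR z hz4).2
      (by rw [(hsol g hgR z hz4).1]; exact hz.2.le.trans (min_le_left _ _))
    rwa [(hsol g hgR z hz4).1] at e
  · intro ε hε
    -- a small start
    obtain ⟨z, hz, hzε⟩ : ∃ z : ℝ, z ∈ Ioc 0 r0 ∧ (A + 1) * z ^ mu ≤ ε / 3 := by
      have e1 := (tendsto_rpow_zero hmu).const_mul (A + 1)
      rw [mul_zero] at e1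
      have e2 := (e1.eventually (gt_mem_nhds (show 0 < ε / 3 by positivity))).and
        (Ioo_mem_nhdsGT hr0)
      obtain ⟨z, e3, e4⟩ := e2.exists
      exact ⟨z, ⟨e4.1, e4.2.le⟩, le_of_lt e3⟩
    have hz4 : z ∈ Ioc (0 : ℝ) (1 / 4) := ⟨hz.1, hz.2.trans hr04⟩
    have hnear : ∀ g, Adm α β r0 g → |F g z - P0 g| ≤ ε / 3 := by
      intro g hg
      have e1 := hrel0 g hg z hz
      have hzm : 0 < z ^ mu := Real.rpow_pos_of_pos hz.1 _
      have e2 : F g z - P0 g = (F g z - (P0 g + A * z ^ mu)) + A * z ^ mu := by ring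
      rw [e2]
      refine (abs_add_le _ _).trans ?_
      rw [abs_of_pos (mul_pos hA0 hzm)]
      linarith
    obtain ⟨C, hC, hL⟩ := hLip z hz4
    obtain ⟨δ2, hδ2, hu⟩ := Metric.uniformContinuousOn_iff.1
      (isCompact_Icc.uniformContinuousOn_of_continuous
        (continuous_pf hmu).continuousOn : UniformContinuousOn (pf mu) (Icc 0 1)) (ε / 3)
        (by positivity)
    refine ⟨δ2 / (2 * (C + 1)), by positivity, fun g g' hg hg' hgg => ?_⟩
    have hgR := hg.mono hr0R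
    have hgR' := hg'.mono hr0R
    have e1 := hL g g' hgR hgR' _ hgg
    have e2 : C * (δ2 / (2 * (C + 1))) < δ2 := by
      rw [mul_div_assoc', div_lt_iff₀ (by positivity)]
      nlinarith
    have m1 := hreg g hgR z hz4
    have m2 := hreg g' hgR' z hz4
    have e3 := hu (Y g z β) ⟨hlo.le.trans m1.1, m1.2⟩ (Y g' z β) ⟨hlo.le.trans m2.1, m2.2⟩
      (by rw [Real.dist_eq]; exact e1.trans_lt e2)
    rw [Real.dist_eq] at e3
    have e4 : |F g z - F g' z| ≤ ε / 3 := by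
      simp only [hF, D.PP_end]
      exact e3.le
    have e5 := hnear g hg
    have e6 := hnear g' hg'
    rw [abs_le] at e4 e5 e6 ⊢
    constructor <;> linarith [e4.1, e4.2, e5.1, e5.2, e6.1, e6.2]

theorem half_rel {α x0 β : ℝ} {a h h1 : ℝ → ℝ} {mu K : ℝ} (D : Hf α x0 β a h h1 mu K) :
    ∃ (A r0 : ℝ) (P0 : (ℝ → ℝ) → ℝ) (Y : (ℝ → ℝ) → ℝ → ℝ → ℝ),
      HalfRel α x0 β a h h1 mu K A r0 P0 Y := by
  obtain ⟨A, r0, P0, Y, H, -⟩ := half_rel_mono D
  exact ⟨A, r0, P0, Y, H⟩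

end Pool.Agent.Lib.MP_95e7ec_an.Dy
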