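import Mathlib
import Pool.Agent.Lib.MP_95e7ec_an.Pw.BTarget

/-!
# Perturbations `h (p(cos x) + sin x q(cos x))` with prescribed kicks on both sides

There are `2 K` of them; the kicks on the `K` periods of `[0, π]` and the kicks of the mirror image
`- G(-x)` are the coordinates.
-/

set_option autoImplicit false

open Set Filter Topology

namespace Pool.Agent.Lib.MP_95e7ec_an.Dy

open Pool.Agent.Lib.MP_95e7ec_an.Pw

theorem hh_neg (n : ℕ) (x : ℝ) : hh n (-x) = hh n x := by
  unfold hh
  rw [mul_neg, Real.cos_neg]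

/-- `h > 0` between the two zeros of a period. -/
theorem hh_pos_Ioo (n j : ℕ) (hn : 0 < n) {x : ℝ} (hx : x ∈ Ioo (z0 n j) (z1 n j)) :
    0 < hh n x := by
  have hn0 : (0 : ℝ) < n := by exact_mod_cast hn
  have e0 : (n : ℝ) * z0 n j = 2 * Real.pi * j + Real.pi / 2 := by
    unfold z0 pl; field_simp
  have e1 : (n : ℝ) * z1 n j = 2 * Real.pi * j + 3 * Real.pi / 2 := by
    unfold z1 pl; field_simp
  have h0 := mul_lt_mul_of_pos_left hx.1 hn0
  have h1 := mul_lt_mul_of_pos_left hx.2 hn0
  rw [e0] at h0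
  rw [e1] at h1
  have h2 : Real.cos (n * x - j * (2 * Real.pi)) < 0 := by
    apply Real.cos_neg_of_pi_div_two_lt_of_lt <;> linarith
  rw [Real.cos_sub_nat_mul_two_pi] at h2
  unfold hh
  linarith

/-- the perturbation -/
noncomputable def gh (n : ℕ) (p q : Polynomial ℝ) (x : ℝ) : ℝ := hh n x * gg p q x

theorem continuous_gg (p q : Polynomial ℝ) : Continuous (gg p q) := by
  unfold gg
  exact (p.continuous.comp Real.continuous_cos).add
    (Real.continuous_sin.mul (q.continuous.comp Real.continuous_cos))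

theorem continuous_hh' (n : ℕ) : Continuous (hh n) := by
  unfold hh
  fun_prop

theorem continuous_gh (n : ℕ) (p q : Polynomial ℝ) : Continuous (gh n p q) :=
  (continuous_hh' n).mul (continuous_gg p q)

theorem gg_mirror (p q : Polynomial ℝ) (x : ℝ) : -gg p q (-x) = gg (-p) q x := by
  unfold gg
  rw [Real.cos_neg, Real.sin_neg, Polynomial.eval_neg]
  ring

theorem gg_add (p p' q q' : Polynomial ℝ) (x : ℝ) :
    gg (p + p') (q + q') x = gg p q x + gg p' q' x := by
  unfold gg
  rw [Polynomial.eval_add, Polynomial.eval_add]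
  ring

/-- `2 K` perturbations whose kicks on both sides are the coordinates. -/
theorem exists_kick_basis (n K : ℕ) (hK : n = 2 * K) (hK1 : 1 ≤ K) (W : ℕ → ℝ → ℝ)
    (hW : ∀ j < K, ContinuousOn (W j) (Icc (z0 n j) (z1 n j)))
    (hpos : ∀ j < K, ∀ x ∈ Ioo (z0 n j) (z1 n j), x ≠ pm n j → 0 < W j x) :
    ∃ p q : ℕ → Polynomial ℝ, (∀ i, (p i).natDegree ≤ K ∧ (q i).natDegree ≤ K) ∧
      (∀ i < 2 * K, ∀ j < K, ∫ x in z0 n j..z1 n j, gh n (p i) (q i) x * W j x =
        if i = j then 1 else 0) ∧
      (∀ i < 2 * K, ∀ j < K, ∫ x in z0 n j..z1 n j, -gh n (p i) (q i) (-x) * W j x =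
        if i = K + j then 1 else 0) := by
  have hn : 0 < n := by omega
  obtain ⟨C, -, H⟩ := exists_target n K hK hK1 (fun j x => hh n x * W j x)
    (fun j hj => (continuous_hh' n).continuousOn.mul (hW j hj))
    (fun j hj x hx hne => mul_pos (hh_pos_Ioo n j hn hx) (hpos j hj x hx hne))
  choose P Q hP hQ _hb h1 h2 using H
  -- the unit vectors
  set e : ℕ → ℕ → ℝ := fun i j => if i = j then 1 else 0 with he
  -- integrability
  have hz : ∀ j < K, z0 n j ≤ z1 n j := by
    intro j _
    have hn0 : (0 : ℝ) < n := by exact_mod_cast hn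
    have hpi := Real.pi_pos
    unfold z0 z1
    have : Real.pi / (2 * n) ≤ 3 * Real.pi / (2 * n) :=
      div_le_div_of_nonneg_right (by linarith) (by positivity)
    linarith
  have hint : ∀ j < K, ∀ p q : Polynomial ℝ,
      IntervalIntegrable (fun x => gg p q x * (hh n x * W j x)) MeasureTheory.volume
        (z0 n j) (z1 n j) := by
    intro j hj p q
    apply ContinuousOn.intervalIntegrable
    rw [uIcc_of_le (hz j hj)]
    exact (continuous_gg p q).continuousOn.mul ((continuous_hh' n).continuousOn.mul (hW j hj))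
  have hk : ∀ (p q : Polynomial ℝ) (j : ℕ), ∫ x in z0 n j..z1 n j, gh n p q x * W j x =
      ∫ x in z0 n j..z1 n j, gg p q x * (hh n x * W j x) := by
    intro p q j
    congr 1
    funext x
    unfold gh
    ring
  have hm : ∀ (p q : Polynomial ℝ) (j : ℕ), ∫ x in z0 n j..z1 n j, -gh n p q (-x) * W j x =
      ∫ x in z0 n j..z1 n j, gg (-p) q x * (hh n x * W j x) := by
    intro p q j
    congr 1
    funext x
    rw [← gg_mirror]
    unfold gh
    rw [hh_neg]
    ring
  have h2' : ∀ τ : ℕ → ℝ, ∀ j < K,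
      ∫ x in z0 n j..z1 n j, gg (-P τ) (Q τ) x * (hh n x * W j x) = 0 := by
    intro τ j hj
    rw [← h2 τ j hj]
    congr 1
    funext x
    rw [gg_mirror]
  refine ⟨fun i => if i < K then P (e i) else -P (e (i - K)),
    fun i => if i < K then Q (e i) else Q (e (i - K)), fun i => ?_, fun i hi j hj => ?_,
    fun i hi j hj => ?_⟩
  · by_cases h : i < K
    · simp only [h, if_true]
      exact ⟨hP _, hQ _⟩
    · simp only [h, if_false, Polynomial.natDegree_neg]
      exact ⟨hP _, hQ _⟩
  · by_cases h : i < K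
    · simp only [h, if_true]
      rw [hk, h1 _ j hj]
    · simp only [h, if_false]
      rw [hk, h2' _ j hj, if_neg (by omega)]
  · by_cases h : i < K
    · simp only [h, if_true]
      rw [hm, h2' _ j hj, if_neg (by omega)]
    · simp only [h, if_false]
      rw [hm, neg_neg, h1 _ j hj]
      simp only [he]
      have : (i - K = j) ↔ (i = K + j) := by omega
      simp only [this]

end Pool.Agent.Lib.MP_95e7ec_an.Dy
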