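import Pool.Agent.Lib.MP_95e7ec_an.Dy.DFam
import Pool.Agent.Lib.MP_95e7ec_an.Dy.DBox

/-!
# Exact splittings
-/

set_option autoImplicit false

open Set Filter Topology

namespace Pool.Agent.Lib.MP_95e7ec_an.Dy

open Pool.Agent.Lib.MP_95e7ec_an.Pw

private lemma continuous_gg (p q : Polynomial ℝ) : Continuous (gg p q) := by
  unfold gg
  exact (p.continuous.comp Real.continuous_cos).add
    (Real.continuous_sin.mul (q.continuous.comp Real.continuous_cos))

theorem exists_exact (n K : ℕ) (hK : n = 2 * K) (hK1 : 1 ≤ K) (a : ℝ → ℝ) (μ A r0 : ℕ → ℝ)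
    (W : ℕ → ℝ → ℝ) (B : ℕ → (ℝ → ℝ) → ℝ) (Y : ℕ → (ℝ → ℝ) → ℝ → ℝ → ℝ)
    (hc : ∀ j < K, PerRel n j a (μ j) (A j) (r0 j) (W j) (B j) (Y j)) :
    ∃ C s0 : ℝ, 0 ≤ C ∧ 0 < s0 ∧ ∀ (τ : ℕ → ℝ) (s : ℝ), 0 < s → s ≤ s0 →
      (∀ j < K, |τ j| ≤ s) → ∃ p q : Polynomial ℝ, p.natDegree ≤ K ∧ q.natDegree ≤ K ∧
      (∀ x, |gg p q x| ≤ C * s) ∧ (∀ j < K, B j (gg p q) = τ j) ∧
      (∀ j < K, B j (fun x => -gg p q (-x)) = 0) := by
  classical
  obtain ⟨C0, p, q, hC0, hdeg, hbd, hlip, hint0, hint1⟩ := exists_family n K hK hK1 W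
    (fun j hj => (hc j hj).W_cont) (fun j hj => (hc j hj).W_pos)
  have hKpos : (0 : ℝ) < 2 * K := by
    have : (1 : ℝ) ≤ K := by exact_mod_cast hK1
    linarith
  set M : ℝ := C0 * (2 * K) + 1 with hM
  have hMpos : 0 < M := by positivity
  -- the sizes
  have hlin : ∀ j : Fin K, ∃ r : ℝ, 0 < r ∧ ∀ η : ℝ, 0 < η → η ≤ r → ∀ g : ℝ → ℝ,
      Adm (pl n j) (pl n (j + 1)) η g →
      |B j g - ∫ x in z0 n j..z1 n j, g x * W j x| ≤ 1 / (4 * M) * η :=
    fun j => (hc j j.2).lin (1 / (4 * M)) (by positivity)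
  choose r hr hrl using hlin
  haveI : Nonempty (Fin K) := ⟨⟨0, by omega⟩⟩
  obtain ⟨s1, hs1, hs1r, hs1r0⟩ : ∃ s1 : ℝ, 0 < s1 ∧ (∀ j : Fin K, s1 ≤ r j) ∧
      ∀ j : Fin K, s1 ≤ r0 j := by
    refine ⟨Finset.univ.inf' Finset.univ_nonempty fun j : Fin K => min (r j) (r0 j), ?_, ?_, ?_⟩
    · rw [Finset.lt_inf'_iff]
      exact fun j _ => lt_min (hr j) (hc j j.2).r0pos
    · exact fun j => (Finset.inf'_le _ (Finset.mem_univ j)).trans (min_le_left _ _)
    · exact fun j => (Finset.inf'_le _ (Finset.mem_univ j)).trans (min_le_right _ _)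
  refine ⟨4 * M, s1 / (4 * M), by positivity, by positivity, fun τ s hs hs0 hτ => ?_⟩
  have hη : M * (4 * s) ≤ s1 := by
    have := (le_div_iff₀ (by positivity : (0 : ℝ) < 4 * M)).1 hs0
    linarith
  have hη0 : 0 < M * (4 * s) := by positivity
  -- bounds on the cube
  have hsum : ∀ (t : Fin 2 × Fin K → ℝ) (ρ : ℝ), (∀ i, |t i| ≤ ρ) → ∑ i, |t i| ≤ 2 * K * ρ := by
    intro t ρ ht
    refine (Finset.sum_le_sum fun i _ => ht i).trans ?_
    rw [Finset.sum_const, Finset.card_univ, Fintype.card_prod, Fintype.card_fin, Fintype.card_fin,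
      nsmul_eq_mul]
    push_cast
    exact le_rfl
  have hG : ∀ t : Fin 2 × Fin K → ℝ, (∀ i, |t i| ≤ 4 * s) → ∀ x,
      |gg (p t) (q t) x| ≤ M * (4 * s) := by
    intro t ht x
    refine (hbd t x).trans ?_
    have h1 := mul_le_mul_of_nonneg_left (hsum t _ ht) hC0
    rw [hM]
    nlinarith
  have hadm : ∀ (η : ℝ) (t : Fin 2 × Fin K → ℝ), (∀ i, |t i| ≤ 4 * s) → M * (4 * s) ≤ η →
      ∀ α β : ℝ, Adm α β η (gg (p t) (q t)) ∧ Adm α β η (fun x => -gg (p t) (q t) (-x)) := by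
    intro η t ht hη α β
    refine ⟨⟨continuous_gg _ _, fun x _ => (hG t ht x).trans hη⟩,
      ⟨((continuous_gg _ _).comp continuous_neg).neg, fun x _ => ?_⟩⟩
    rw [abs_neg]
    exact (hG t ht (-x)).trans hη
  let b : (Fin 2 × Fin K → ℝ) → Fin 2 × Fin K → ℝ := fun t i =>
    if i.1 = 0 then B i.2 (gg (p t) (q t)) else B i.2 (fun x => -gg (p t) (q t) (-x))
  have hb0 : ∀ t (j : Fin K), b t (0, j) = B j (gg (p t) (q t)) := fun t j => if_pos rfl
  have hb1 : ∀ t (j : Fin K), b t (1, j) = B j (fun x => -gg (p t) (q t) (-x)) :=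
    fun t j => if_neg (by simp)
  have hcont : ContinuousOn b {x | ∀ i, |x i| ≤ 4 * s} := by
    rw [continuousOn_pi]
    rintro ⟨i, j⟩
    rw [Metric.continuousOn_iff]
    intro t ht ε hε
    obtain ⟨δ, hδ, hcj⟩ := (hc j j.2).cont (ε / 2) (by positivity)
    refine ⟨δ / M, by positivity, fun t' ht' hd => ?_⟩
    have hd' : ∀ i, |t' i - t i| ≤ dist t' t := fun i => by
      rw [← Real.dist_eq]
      exact dist_le_pi_dist t' t i
    have hdd : ∀ x, |gg (p t') (q t') x - gg (p t) (q t) x| ≤ δ := by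
      intro x
      refine (hlip t' t x).trans ?_
      have h1 := mul_le_mul_of_nonneg_left (hsum (fun i => t' i - t i) _ hd') hC0
      have h2 : M * dist t' t ≤ δ := by
        have := (lt_div_iff₀ hMpos).1 hd
        linarith
      have h3 : 0 ≤ dist t' t := dist_nonneg
      rw [hM] at h2
      nlinarith
    have ha := fun t ht => hadm (r0 j) t ht (hη.trans (hs1r0 j)) (pl n j) (pl n (j + 1))
    have hfin : |b t' (i, j) - b t (i, j)| ≤ ε / 2 := by
      fin_cases i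
      · rw [show (((⟨0, by omega⟩ : Fin 2), j) : Fin 2 × Fin K) = (0, j) from rfl, hb0, hb0]
        exact hcj _ _ (ha t' ht').1 (ha t ht).1 fun x _ => hdd x
      · rw [show (((⟨1, by omega⟩ : Fin 2), j) : Fin 2 × Fin K) = (1, j) from rfl, hb1, hb1]
        refine hcj _ _ (ha t' ht').2 (ha t ht).2 fun x _ => ?_
        rw [show -gg (p t') (q t') (-x) - -gg (p t) (q t) (-x) =
          -(gg (p t') (q t') (-x) - gg (p t) (q t) (-x)) by ring, abs_neg]
        exact hdd (-x)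
    rw [Real.dist_eq]
    linarith
  have hnear : ∀ x : Fin 2 × Fin K → ℝ, (∀ i, |x i| ≤ 4 * s) → ∀ i, |b x i - x i| ≤ 4 * s / 4 := by
    intro t ht
    rintro ⟨i, j⟩
    have ha := hadm (M * (4 * s)) t ht le_rfl (pl n j) (pl n (j + 1))
    have h4 : 1 / (4 * M) * (M * (4 * s)) = 4 * s / 4 := by
      field_simp
    have hrj := hrl j (M * (4 * s)) hη0 (hη.trans (hs1r j))
    rw [h4] at hrj
    fin_cases i
    · rw [show (((⟨0, by omega⟩ : Fin 2), j) : Fin 2 × Fin K) = (0, j) from rfl, hb0,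
        ← hint0 t j]
      exact hrj _ ha.1
    · rw [show (((⟨1, by omega⟩ : Fin 2), j) : Fin 2 × Fin K) = (1, j) from rfl, hb1,
        ← hint1 t j]
      exact hrj _ ha.2
  obtain ⟨t, ht, hbt⟩ := box b (4 * s) (by positivity) hcont hnear
    (fun i => if i.1 = 0 then τ i.2 else 0) (fun i => by
      by_cases h : i.1 = 0
      · rw [if_pos h]
        have := hτ i.2 i.2.2
        linarith
      · rw [if_neg h, abs_zero]
        positivity)
  refine ⟨p t, q t, (hdeg t).1, (hdeg t).2, fun x => ?_, fun j hj => ?_, fun j hj => ?_⟩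
  · have := hG t ht x
    linarith
  · have h1 := congrFun hbt (0, ⟨j, hj⟩)
    rw [hb0] at h1
    simpa using h1
  · have h1 := congrFun hbt (1, ⟨j, hj⟩)
    rw [hb1] at h1
    simpa using h1

end Pool.Agent.Lib.MP_95e7ec_an.Dy
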