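import Pool.Agent.Lib.MP_95e7ec_an.Dy.DDefs
import Pool.Agent.Lib.MP_95e7ec_an.Pw.AInt

/-!
# Trigonometric polynomials: the exponents

`a(x) = P(cos x)`, `P` the sum of `μ_j` times the squares of the two Lagrange polynomials at the
zeros of `h` in the `j`-th period (proof by helper41).
-/

set_option autoImplicit false

open Set Filter Topology

namespace Pool.Agent.Lib.MP_95e7ec_an.Dy

open Pool.Agent.Lib.MP_95e7ec_an.Pw

/-- The ratio function with prescribed positive values at the zeros of `h` in `[0, π]`. -/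
private theorem exists_ratio_pos' (n K : ℕ) (hK : n = 2 * K) (hK1 : 1 ≤ K) (μ : ℕ → ℝ)
    (hμ : ∀ j < K, 0 < μ j) : ∃ P : Polynomial ℝ, P.natDegree ≤ 2 * n ∧
      (∃ c : ℝ, 0 < c ∧ ∀ x, c ≤ P.eval (Real.cos x)) ∧
      (∃ C : ℝ, ∀ x, P.eval (Real.cos x) ≤ C) ∧
      ∀ j < K, P.eval (Real.cos (z0 n j)) = μ j ∧ P.eval (Real.cos (z1 n j)) = μ j := by
  classical
  have hn : 0 < n := by omega
  have hn' : (0 : ℝ) < n := by exact_mod_cast hn
  set v : ℕ → ℝ := fun m => Real.cos (nd n m) with hv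
  have hinj : InjOn v (Finset.range n : Set ℕ) := nd_injOn n
  set b : ℕ → Polynomial ℝ := fun m => Lagrange.basis (Finset.range n) v m with hb
  set P : Polynomial ℝ := ∑ m ∈ Finset.range n, Polynomial.C (μ (m / 2)) * b m ^ 2 with hP
  have hdegb : ∀ m ∈ Finset.range n, (b m).natDegree ≤ n := by
    intro m hm
    have h1 := Lagrange.degree_basis hinj hm
    have h2 : (b m).degree ≤ (n : WithBot ℕ) := by
      rw [hb, h1, Finset.card_range]
      exact_mod_cast Nat.sub_le n 1
    exact Polynomial.natDegree_le_iff_degree_le.2 h2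
  -- the minimum of the exponents
  obtain ⟨c, hc0, hc⟩ : ∃ c : ℝ, 0 < c ∧ ∀ j < K, c ≤ μ j := by
    have hne : (Finset.range K).Nonempty := Finset.nonempty_range_iff.2 (by omega)
    refine ⟨(Finset.range K).inf' hne μ, ?_, fun j hj => ?_⟩
    · rw [Finset.lt_inf'_iff]
      intro j hj
      exact hμ j (by simpa using hj)
    · exact Finset.inf'_le _ (by simpa using hj)
  have hev : ∀ t : ℝ, P.eval t = ∑ m ∈ Finset.range n, μ (m / 2) * ((b m).eval t) ^ 2 := by
    intro t
    rw [hP, Polynomial.eval_finsetSum]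
    refine Finset.sum_congr rfl fun m _ => ?_
    simp
  have hsum1 : ∀ t : ℝ, ∑ m ∈ Finset.range n, (b m).eval t = 1 := by
    intro t
    have h1 := Lagrange.sum_basis hinj (Finset.nonempty_range_iff.2 hn.ne')
    have h2 := congrArg (Polynomial.eval t) h1
    rw [Polynomial.eval_finsetSum, Polynomial.eval_one] at h2
    exact h2
  have hval : ∀ k ∈ Finset.range n, P.eval (v k) = μ (k / 2) := by
    intro k hk
    rw [hev, Finset.sum_eq_single k]
    · rw [hb]
      simp only []
      rw [Lagrange.eval_basis_self hinj hk]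
      ring
    · intro m hm hmk
      rw [hb]
      simp only []
      rw [Lagrange.eval_basis_of_ne hmk hk]
      ring
    · intro h
      exact absurd hk h
  refine ⟨P, ?_, ⟨c / n, by positivity, fun x => ?_⟩, ?_, fun j hj => ?_⟩
  · refine Polynomial.natDegree_sum_le_of_forall_le _ _ fun m hm => ?_
    refine (Polynomial.natDegree_C_mul_le _ _).trans ?_
    refine Polynomial.natDegree_pow_le.trans ?_
    exact Nat.mul_le_mul_left 2 (hdegb m hm)
  · rw [hev]
    have h1 : ∀ m ∈ Finset.range n, c * ((b m).eval (Real.cos x)) ^ 2 ≤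
        μ (m / 2) * ((b m).eval (Real.cos x)) ^ 2 := by
      intro m hm
      have hm' : m < n := by simpa using hm
      exact mul_le_mul_of_nonneg_right (hc _ (by omega)) (sq_nonneg _)
    have h2 : (∑ m ∈ Finset.range n, (b m).eval (Real.cos x)) ^ 2 ≤
        (Finset.range n).card * ∑ m ∈ Finset.range n, ((b m).eval (Real.cos x)) ^ 2 :=
      sq_sum_le_card_mul_sum_sq
    rw [hsum1, Finset.card_range] at h2
    rw [div_le_iff₀ hn']
    calc c = c * 1 ^ 2 := by ring
      _ ≤ c * (n * ∑ m ∈ Finset.range n, ((b m).eval (Real.cos x)) ^ 2) :=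
          mul_le_mul_of_nonneg_left h2 hc0.le
      _ = (∑ m ∈ Finset.range n, c * ((b m).eval (Real.cos x)) ^ 2) * n := by
          rw [← Finset.mul_sum]; ring
      _ ≤ _ := mul_le_mul_of_nonneg_right (Finset.sum_le_sum h1) hn'.le
  · obtain ⟨C, -, hC⟩ := exists_bd_cos P
    exact ⟨C, fun x => (le_abs_self _).trans (hC x)⟩
  · constructor
    · have h1 : Real.cos (z0 n j) = v (2 * j) := by rw [z0_eq_nd n j hn]
      rw [h1, hval _ (by rw [Finset.mem_range]; omega), show 2 * j / 2 = j by omega]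
    · have h1 : Real.cos (z1 n j) = v (2 * j + 1) := by rw [z1_eq_nd n j hn]
      rw [h1, hval _ (by rw [Finset.mem_range]; omega), show (2 * j + 1) / 2 = j by omega]

/-- Interpolation with a positive polynomial: the sum of the squares of the Lagrange polynomials
with the weights `μ`. -/
theorem exists_ratio_pos (n K : ℕ) (hK : n = 2 * K) (hK1 : 1 ≤ K) (μ : ℕ → ℝ)
    (hμ : ∀ j < K, 0 < μ j) : ∃ P : Polynomial ℝ, P.natDegree ≤ 2 * n ∧
      (∀ x, 0 < P.eval (Real.cos x)) ∧
      ∀ j < K, P.eval (Real.cos (z0 n j)) = μ j ∧ P.eval (Real.cos (z1 n j)) = μ j := by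
  obtain ⟨P, h1, ⟨c, hc, h2⟩, -, h3⟩ := exists_ratio_pos' n K hK hK1 μ hμ
  exact ⟨P, h1, fun x => hc.trans_le (h2 x), h3⟩

/-- The difference `a - μ` is at most a multiple of `|h|` on the `j`-th period. -/
theorem exists_lip_hh (n j : ℕ) (hn : 0 < n) (P : Polynomial ℝ) (μ : ℝ)
    (h2 : P.eval (Real.cos (z0 n j)) = μ) (h3 : P.eval (Real.cos (z1 n j)) = μ) :
    ∃ L : ℝ, 0 ≤ L ∧ ∀ x ∈ Icc (pl n j) (pl n (j + 1)),
      |P.eval (Real.cos x) - μ| ≤ L * |hh n x| := by
  obtain ⟨B, hB0, hB⟩ := exists_lip_cos P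
  have hn0 : (0 : ℝ) < n := by exact_mod_cast hn
  have hn1 : (1 : ℝ) ≤ n := by exact_mod_cast hn
  have hpi := Real.pi_pos
  refine ⟨B * (2 * Real.pi), by positivity, fun x hx => ?_⟩
  -- the key estimate
  have key : ∀ z : ℝ, P.eval (Real.cos z) = μ → |(n : ℝ) * (x - z)| ≤ Real.pi / 2 →
      |Real.cos (n * x)| = |Real.sin (n * (x - z))| →
      |P.eval (Real.cos x) - μ| ≤ B * (2 * Real.pi) * |hh n x| := by
    intro z hz hxz hc
    have h4 := Real.mul_abs_le_abs_sin hxz
    have h5 : |hh n x| = |Real.sin (n * (x - z))| / 4 := by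
      unfold hh
      rw [abs_div, abs_neg, hc, abs_of_pos (show (0 : ℝ) < 4 by norm_num)]
    have h6 : |P.eval (Real.cos x) - μ| ≤ B * |x - z| := by
      rw [← hz]; exact hB x z
    have h7 : |x - z| ≤ |(n : ℝ) * (x - z)| := by
      rw [abs_mul, abs_of_pos hn0]
      nlinarith [abs_nonneg (x - z)]
    have h8 : |(n : ℝ) * (x - z)| ≤ Real.pi / 2 * |Real.sin (n * (x - z))| := by
      have : 2 / Real.pi * |(n : ℝ) * (x - z)| * (Real.pi / 2) =
          |(n : ℝ) * (x - z)| := by field_simp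
      calc |(n : ℝ) * (x - z)| = 2 / Real.pi * |(n : ℝ) * (x - z)| * (Real.pi / 2) := this.symm
        _ ≤ |Real.sin (n * (x - z))| * (Real.pi / 2) :=
            mul_le_mul_of_nonneg_right h4 (by positivity)
        _ = _ := by ring
    calc |P.eval (Real.cos x) - μ| ≤ B * |x - z| := h6
      _ ≤ B * (Real.pi / 2 * |Real.sin (n * (x - z))|) :=
          mul_le_mul_of_nonneg_left (h7.trans h8) hB0
      _ = B * (2 * Real.pi) * |hh n x| := by rw [h5]; ring
  have hx1 : 2 * Real.pi * j ≤ n * x := by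
    have := hx.1
    unfold pl at this
    rw [div_le_iff₀ hn0] at this
    linarith
  have hx2 : n * x ≤ 2 * Real.pi * j + 2 * Real.pi := by
    have := hx.2
    unfold pl at this
    rw [le_div_iff₀ hn0] at this
    push_cast at this
    linarith
  have e0 : (n : ℝ) * z0 n j = 2 * Real.pi * j + Real.pi / 2 := by
    unfold z0 pl; field_simp
  have e1 : (n : ℝ) * z1 n j = 2 * Real.pi * j + 3 * Real.pi / 2 := by
    unfold z1 pl; field_simp
  rcases le_total ((n : ℝ) * x) (2 * Real.pi * j + Real.pi) with h | h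
  · refine key (z0 n j) h2 ?_ ?_
    · rw [mul_sub, e0, abs_le]
      constructor <;> linarith
    · rw [mul_sub, e0]
      have : (n : ℝ) * x - (2 * Real.pi * j + Real.pi / 2) =
          (n : ℝ) * x - Real.pi / 2 - j * (2 * Real.pi) := by ring
      rw [this, Real.sin_sub_nat_mul_two_pi, Real.sin_sub_pi_div_two, abs_neg]
  · refine key (z1 n j) h3 ?_ ?_
    · rw [mul_sub, e1, abs_le]
      constructor <;> linarith
    · rw [mul_sub, e1]
      have : (n : ℝ) * x - (2 * Real.pi * j + 3 * Real.pi / 2) =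
          (n : ℝ) * x + Real.pi / 2 - 2 * Real.pi - j * (2 * Real.pi) := by ring
      rw [this, Real.sin_sub_nat_mul_two_pi, Real.sin_sub_two_pi, Real.sin_add_pi_div_two]

theorem exists_lip (n j : ℕ) (hn : 0 < n) (P : Polynomial ℝ) (μ : ℝ)
    (h2 : P.eval (Real.cos (z0 n j)) = μ) (h3 : P.eval (Real.cos (z1 n j)) = μ) :
    ∃ L : ℝ, ∀ x ∈ Icc (pl n j) (pl n (j + 1)), |P.eval (Real.cos x) - μ| ≤ L * |hh n x| := by
  obtain ⟨L, -, hL⟩ := exists_lip_hh n j hn P μ h2 h3
  exact ⟨L, hL⟩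

end Pool.Agent.Lib.MP_95e7ec_an.Dy
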