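import Pool.Agent.Lib.MP_95e7ec_an.Dy.DPer
import Pool.Agent.Lib.MP_95e7ec_an.Dy.DSolve
import Pool.Agent.Lib.MP_95e7ec_an.Dy.DTrig
import Pool.Agent.Lib.MP_95e7ec_an.Dy.DChain
import Pool.Agent.Lib.MP_95e7ec_an.Pw.BGlue
import Pool.Agent.Lib.MP_95e7ec_an.Pw.BMainAux

/-!
# Every word with positive exponents is realised
-/

set_option autoImplicit false

open Set Filter Topology Pool.Agent.MP95e7W

namespace Pool.Agent.Lib.MP_95e7ec_an.Dy

open Pool.Agent.Lib.MP_95e7ec_an.Pw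

theorem D_main (n K : ℕ) (hK : n = 2 * K) (hK1 : 1 ≤ K) (l : List (ℝ × ℝ)) (N : ℕ) (z : ℕ → ℝ)
    (hl : l.length = K) (hpos : ∀ p ∈ l, 0 < p.1) (hz : ∀ i ≤ N, 0 < z i ∧ Ok l (z i))
    (hzm : ∀ i < N, z i < z (i + 1)) (hsg : ∀ i ≤ N, 0 < (-1) ^ i * (wd l (z i) - z i)) :
    ∃ (p r s : ℝ → ℝ) (y : ℕ → ℝ → ℝ), IsTrig (4 * n) p ∧ IsTrig (4 * n) r ∧ IsTrig (4 * n) s ∧
      (∀ i ≤ N, ∀ x ∈ Icc (-Real.pi) Real.pi, 0 < y i x ∧ y i x < 1 ∧ 0 < r x * y i x - s x ∧
        HasDerivWithinAt (y i) ((p x * y i x + 0) / (r x * y i x - s x))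
          (Icc (-Real.pi) Real.pi) x) ∧
      (∀ i < N, y i (-Real.pi) < y (i + 1) (-Real.pi)) ∧
      (∀ i < N, (y i Real.pi - y i (-Real.pi)) *
        (y (i + 1) Real.pi - y (i + 1) (-Real.pi)) < 0) := by
  have hn : 0 < n := by omega
  set μ : ℕ → ℝ := fun j => (l.getD j (1, 0)).1 with hμdef
  set b : ℕ → ℝ := fun j => (l.getD j (1, 0)).2 with hbdef
  have hμp : ∀ j < K, 0 < μ j := by
    intro j hj
    refine hpos _ ?_
    rw [List.getD_eq_getElem l _ (by omega : j < l.length)]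
    exact List.getElem_mem _
  have hμ0 : ∀ j < K, μ j ≠ 0 := fun j hj => (hμp j hj).ne'
  obtain ⟨P, hPd, hPpos, hPμ⟩ := exists_ratio_pos n K hK hK1 μ hμp
  set a : ℝ → ℝ := fun x => P.eval (Real.cos x) with hadef
  have hac : Continuous a := P.continuous.comp Real.continuous_cos
  have hae : ∀ x, a (-x) = a x := fun x => by simp only [hadef, Real.cos_neg]
  have hper : ∀ j, ∃ (A r0 : ℝ) (W : ℝ → ℝ) (B : (ℝ → ℝ) → ℝ) (Y : (ℝ → ℝ) → ℝ → ℝ → ℝ),
      j < K → PerRel n j a (μ j) A r0 W B Y := by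
    intro j
    by_cases hj : j < K
    · obtain ⟨L, hL⟩ := exists_lip n j hn P (μ j) (hPμ j hj).1 (hPμ j hj).2
      obtain ⟨A, r0, W, B, Y, h⟩ := exists_perRel n j hn a hac (μ j) L (hμp j hj) hPpos hL
      exact ⟨A, r0, W, B, Y, fun _ => h⟩
    · exact ⟨0, 0, fun _ => 0, fun _ => 0, fun _ _ _ => 0, fun h => absurd h hj⟩
  choose A r0 W B YY hPC using hper
  obtain ⟨Ct, s0, hCt, hs0, hexact⟩ := exists_exact n K hK hK1 a μ A r0 W B YY hPC
  -- the family of perturbations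
  set τ : ℝ → ℕ → ℝ := fun S j =>
    Real.exp (-(μ j * S)) * (cc μ A (j + 1) ^ μ j * b j) with hτdef
  set s : ℝ → ℝ := fun S => (∑ j ∈ Finset.range K, |τ S j|) + Real.exp (-S) with hsdef
  have hs_pos : ∀ S, 0 < s S := fun S =>
    add_pos_of_nonneg_of_pos (Finset.sum_nonneg fun _ _ => abs_nonneg _) (Real.exp_pos _)
  have hs_le : ∀ S, ∀ j < K, |τ S j| ≤ s S := by
    intro S j hj
    have h1 : |τ S j| ≤ ∑ j ∈ Finset.range K, |τ S j| :=
      Finset.single_le_sum (f := fun j => |τ S j|) (fun _ _ => abs_nonneg _)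
        (Finset.mem_range.2 hj)
    have h2 := Real.exp_pos (-S)
    show |τ S j| ≤ (∑ j ∈ Finset.range K, |τ S j|) + Real.exp (-S)
    linarith
  have hs_lim : Tendsto s atTop (𝓝 0) := by
    have h1 : Tendsto (fun S => ∑ j ∈ Finset.range K, |τ S j|) atTop
        (𝓝 (∑ j ∈ Finset.range K, (0 : ℝ))) := by
      refine tendsto_finsetSum _ fun j hj => ?_
      have h2 : Tendsto (fun S : ℝ => μ j * S) atTop atTop :=
        tendsto_id.const_mul_atTop (hμp j (Finset.mem_range.1 hj))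
      have h3 : Tendsto (fun S : ℝ => Real.exp (-(μ j * S))) atTop (𝓝 0) :=
        Real.tendsto_exp_atBot.comp (tendsto_neg_atTop_atBot.comp h2)
      have h4 := (h3.mul_const (cc μ A (j + 1) ^ μ j * b j)).abs
      rw [zero_mul, abs_zero] at h4
      exact h4
    have h5 : Tendsto (fun S : ℝ => Real.exp (-S)) atTop (𝓝 0) :=
      Real.tendsto_exp_atBot.comp tendsto_neg_atTop_atBot
    have h6 := h1.add h5
    rw [Finset.sum_const_zero, add_zero] at h6
    exact h6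
  have hs_small : ∀ᶠ S in atTop, s S ≤ s0 := hs_lim.eventually_le_const hs0
  have hfam : ∀ S : ℝ, ∃ p q : Polynomial ℝ, p.natDegree ≤ K ∧ q.natDegree ≤ K ∧
      (s S ≤ s0 → (∀ x, |gg p q x| ≤ Ct * s S) ∧ (∀ j < K, B j (gg p q) = τ S j) ∧
        (∀ j < K, B j (fun x => -gg p q (-x)) = 0)) := by
    intro S
    by_cases hS : s S ≤ s0
    · obtain ⟨p, q, h1, h2, h3, h4, h5⟩ := hexact (τ S) (s S) (hs_pos S) hS (hs_le S)
      exact ⟨p, q, h1, h2, fun _ => ⟨h3, h4, h5⟩⟩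
    · exact ⟨0, 0, by simp, by simp, fun h => absurd h hS⟩
  choose p q hp hq hfam' using hfam
  have hρ : Tendsto (fun S => Ct * s S) atTop (𝓝 0) := by
    have h1 := hs_lim.const_mul Ct
    rw [mul_zero] at h1
    exact h1
  -- the two chains
  have hok : ∀ i ≤ N, wd l (z i) = st μ b (z i) K ∧ ∀ j < K, 0 < st μ b (z i) j ^ μ j + b j := by
    intro i hi
    have h := wd_eq_st l (z i) (hz i hi).2
    rw [hl] at h
    exact h
  have hA : ∀ j < K, 0 < A j := fun j hj => (hPC j hj).Apos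
  have hccK : 0 < cc μ A K := cc_pos μ A K hA K le_rfl
  have hR : ∀ i ≤ N, ∃ Y : ℝ → ℝ → ℝ,
      (∀ᶠ S in atTop, Y S 0 = Real.exp (-S) * z i ∧
        Gd n a (fun x => hh n x * gg (p S) (q S) x) 0 Real.pi (Y S)) ∧
      Tendsto (fun S => Real.exp S * Y S Real.pi) atTop (𝓝 (cc μ A K * wd l (z i))) := by
    intro i hi
    have h := chainK n K hK hK1 a μ A r0 W B YY hμp hPC (fun S => gg (p S) (q S))
      (fun S => gg_continuous _ _) (fun S => Ct * s S) hρ
      (hs_small.mono fun S hS x _ => (hfam' S hS).1 x) b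
      (fun j hj => hs_small.mono fun S hS => (hfam' S hS).2.1 j hj) (z i)
      (hz i hi).1 (hok i hi).2 K le_rfl
    rw [pl_K hK hK1, ← (hok i hi).1] at h
    exact h
  have hLft : ∀ i ≤ N, ∃ Y : ℝ → ℝ → ℝ,
      (∀ᶠ S in atTop, Y S 0 = Real.exp (-S) * z i ∧
        Gd n a (fun x => hh n x * -gg (p S) (q S) (-x)) 0 Real.pi (Y S)) ∧
      Tendsto (fun S => Real.exp S * Y S Real.pi) atTop (𝓝 (cc μ A K * z i)) := by
    intro i hi
    have h := chainK n K hK hK1 a μ A r0 W B YY hμp hPC (fun S x => -gg (p S) (q S) (-x))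
      (fun S => ((gg_continuous _ _).comp continuous_neg).neg) (fun S => Ct * s S) hρ
      (hs_small.mono fun S hS x _ => by rw [abs_neg]; exact (hfam' S hS).1 (-x)) (fun _ => 0)
      (fun j hj => hs_small.mono fun S hS => by
        rw [(hfam' S hS).2.2 j hj, mul_zero, mul_zero]) (z i) (hz i hi).1
      (fun j hj => by
        rw [st_zero_b μ (z i) (hz i hi).1 K hμ0 j hj.le, add_zero]
        exact Real.rpow_pos_of_pos (hz i hi).1 _) K le_rfl
    rw [pl_K hK hK1, st_zero_b μ (z i) (hz i hi).1 K hμ0 K le_rfl] at h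
    exact h
  have hR' : ∀ i, ∃ Y : ℝ → ℝ → ℝ, i ≤ N →
      (∀ᶠ S in atTop, Y S 0 = Real.exp (-S) * z i ∧
        Gd n a (fun x => hh n x * gg (p S) (q S) x) 0 Real.pi (Y S)) ∧
      Tendsto (fun S => Real.exp S * Y S Real.pi) atTop (𝓝 (cc μ A K * wd l (z i))) := by
    intro i
    by_cases hi : i ≤ N
    · obtain ⟨Y, hY⟩ := hR i hi
      exact ⟨Y, fun _ => hY⟩
    · exact ⟨fun _ _ => 0, fun h => absurd h hi⟩
  have hLft' : ∀ i, ∃ Y : ℝ → ℝ → ℝ, i ≤ N →
      (∀ᶠ S in atTop, Y S 0 = Real.exp (-S) * z i ∧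
        Gd n a (fun x => hh n x * -gg (p S) (q S) (-x)) 0 Real.pi (Y S)) ∧
      Tendsto (fun S => Real.exp S * Y S Real.pi) atTop (𝓝 (cc μ A K * z i)) := by
    intro i
    by_cases hi : i ≤ N
    · obtain ⟨Y, hY⟩ := hLft i hi
      exact ⟨Y, fun _ => hY⟩
    · exact ⟨fun _ _ => 0, fun h => absurd h hi⟩
  choose Y hY using hR'
  choose Y' hY' using hLft'
  -- one large `S`
  have e1 : ∀ᶠ S in atTop, ∀ i ∈ Finset.range (N + 1), Y i S 0 = Real.exp (-S) * z i ∧
      Gd n a (fun x => hh n x * gg (p S) (q S) x) 0 Real.pi (Y i S) ∧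
      Y' i S 0 = Real.exp (-S) * z i ∧
      Gd n a (fun x => hh n x * -gg (p S) (q S) (-x)) 0 Real.pi (Y' i S) := by
    rw [Filter.eventually_all_finset]
    intro i hi
    have hi' : i ≤ N := by
      have := Finset.mem_range.1 hi
      omega
    filter_upwards [(hY i hi').1, (hY' i hi').1] with S h1 h2
    exact ⟨h1.1, h1.2, h2.1, h2.2⟩
  have e2 : ∀ᶠ S in atTop, ∀ i ∈ Finset.range (N + 1),
      0 < (-1) ^ i * (Y i S Real.pi - Y' i S Real.pi) := by
    rw [Filter.eventually_all_finset]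
    intro i hi
    have hi' : i ≤ N := by
      have := Finset.mem_range.1 hi
      omega
    have h1 : Tendsto (fun S => (-1) ^ i * (Real.exp S * Y i S Real.pi -
        Real.exp S * Y' i S Real.pi)) atTop
        (𝓝 ((-1) ^ i * (cc μ A K * wd l (z i) - cc μ A K * z i))) :=
      ((hY i hi').2.sub (hY' i hi').2).const_mul _
    have h2 : 0 < (-1 : ℝ) ^ i * (cc μ A K * wd l (z i) - cc μ A K * z i) := by
      have := mul_pos hccK (hsg i hi')
      calc (0 : ℝ) < _ := this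
        _ = _ := by ring
    filter_upwards [h1.eventually_const_lt h2] with S hS
    have h3 : (-1 : ℝ) ^ i * (Real.exp S * Y i S Real.pi - Real.exp S * Y' i S Real.pi) =
        Real.exp S * ((-1) ^ i * (Y i S Real.pi - Y' i S Real.pi)) := by ring
    rw [h3] at hS
    exact (mul_pos_iff_of_pos_left (Real.exp_pos S)).1 hS
  have e3 : ∀ᶠ S in atTop, ∀ i ∈ Finset.range N, Y' i S Real.pi < Y' (i + 1) S Real.pi := by
    rw [Filter.eventually_all_finset]
    intro i hi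
    have hi' := Finset.mem_range.1 hi
    have h1 : Tendsto (fun S => Real.exp S * Y' (i + 1) S Real.pi -
        Real.exp S * Y' i S Real.pi) atTop
        (𝓝 (cc μ A K * z (i + 1) - cc μ A K * z i)) :=
      (hY' (i + 1) (by omega)).2.sub (hY' i (by omega)).2
    have h2 : 0 < cc μ A K * z (i + 1) - cc μ A K * z i := by
      have := mul_pos hccK (sub_pos.2 (hzm i hi'))
      calc (0 : ℝ) < _ := this
        _ = _ := by ring
    filter_upwards [h1.eventually_const_lt h2] with S hS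
    have h3 : Real.exp S * Y' (i + 1) S Real.pi - Real.exp S * Y' i S Real.pi =
        Real.exp S * (Y' (i + 1) S Real.pi - Y' i S Real.pi) := by ring
    rw [h3] at hS
    exact sub_pos.1 ((mul_pos_iff_of_pos_left (Real.exp_pos S)).1 hS)
  obtain ⟨S, hS1, hS2, hS3⟩ := (e1.and (e2.and e3)).exists
  have hpi : (0 : ℝ) ≤ Real.pi := Real.pi_pos.le
  set y : ℕ → ℝ → ℝ := fun i x => if 0 ≤ x then Y i S x else Y' i S (-x) with hy
  have hyR : ∀ i, y i Real.pi = Y i S Real.pi := fun i => by simp only [hy, if_pos hpi]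
  have hyL : ∀ i, y i (-Real.pi) = Y' i S Real.pi := fun i => by
    have : ¬ (0 : ℝ) ≤ -Real.pi := by linarith [Real.pi_pos]
    simp only [hy, if_neg this, neg_neg]
  have heven : ∀ x : ℝ, hh n (-x) = hh n x := fun x => by
    unfold hh
    rw [mul_neg, Real.cos_neg]
  have hmir : (fun x => -((fun x => hh n x * gg (p S) (q S) x) (-x))) =
      fun x => hh n x * -gg (p S) (q S) (-x) := by
    funext x
    show -(hh n (-x) * gg (p S) (q S) (-x)) = hh n x * -gg (p S) (q S) (-x)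
    rw [heven]
    ring
  have hgood : ∀ i ≤ N, Gd n a (fun x => hh n x * gg (p S) (q S) x) (-Real.pi) Real.pi (y i) := by
    intro i hi
    obtain ⟨h1, h2, h3, h4⟩ := hS1 i (Finset.mem_range.2 (by omega))
    refine Gd.glue_mirror n a (fun x => hh n x * gg (p S) (q S) x) _ _ hae h2 ?_
      (h1.trans h3.symm)
    rw [hmir]
    exact h4
  refine ⟨fun x => hd n x * (1 + hd n x * (hh n x * gg (p S) (q S) x)), fun x => 1 + a x,
    fun x => a x * hh n x, y, ?_, ?_, ?_, ?_, ?_, ?_⟩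
  · have h0 : IsTrig (n + (K + 1)) fun x => hh n x * gg (p S) (q S) x :=
      (isTrig_hh n).mul (isTrig_gg (hp S) (hq S))
    have h1 : IsTrig (n + (n + (K + 1))) fun x => hd n x * (hh n x * gg (p S) (q S) x) :=
      (isTrig_hd n).mul h0
    have h2 : IsTrig (n + (n + (n + (K + 1))))
        fun x => hd n x * (1 + hd n x * (hh n x * gg (p S) (q S) x)) :=
      (isTrig_hd n).mul ((IsTrig.const _ 1).add h1)
    exact IsTrig.mono (by omega) h2
  · exact (IsTrig.const (4 * n) 1).add (IsTrig.mono (by omega) (IsTrig.poly_cos P hPd))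
  · have h1 : IsTrig (2 * n + n) fun x => a x * hh n x :=
      (IsTrig.poly_cos P hPd).mul (isTrig_hh n)
    exact IsTrig.mono (by omega) h1
  · intro i hi x hx
    obtain ⟨h1, h2, h3, h4⟩ := hgood i hi x hx
    refine ⟨h1, h2.trans (by norm_num), h3, ?_⟩
    have h5 : (hd n x * (1 + hd n x * (hh n x * gg (p S) (q S) x)) * y i x + 0) /
        ((1 + a x) * y i x - a x * hh n x) =
        bnum (hd n) (fun x => hh n x * gg (p S) (q S) x) x (y i x) /
          bden (hh n) a x (y i x) := by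
      unfold bnum bden
      rw [add_zero]
    rw [h5]
    exact h4
  · intro i hi
    rw [hyL, hyL]
    exact hS3 i (Finset.mem_range.2 hi)
  · intro i hi
    have h1 := hS2 i (Finset.mem_range.2 (by omega))
    have h2 := hS2 (i + 1) (Finset.mem_range.2 (by omega))
    rw [hyR, hyL, hyR, hyL]
    have h3 := mul_pos h1 h2
    have h4 : ((-1 : ℝ) ^ i * (-1) ^ (i + 1)) = -1 := by
      rw [← pow_add, show i + (i + 1) = 2 * i + 1 by ring, pow_succ, pow_mul]
      norm_num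
    have h5 : (-1 : ℝ) ^ i * (Y i S Real.pi - Y' i S Real.pi) *
        ((-1) ^ (i + 1) * (Y (i + 1) S Real.pi - Y' (i + 1) S Real.pi)) =
        ((-1) ^ i * (-1) ^ (i + 1)) * ((Y i S Real.pi - Y' i S Real.pi) *
          (Y (i + 1) S Real.pi - Y' (i + 1) S Real.pi)) := by ring
    rw [h5, h4] at h3
    linarith

theorem dyn_main (l : List (ℝ × ℝ)) (N : ℕ) (z : ℕ → ℝ) (hl : 1 ≤ l.length)
    (hpos : ∀ p ∈ l, 0 < p.1) (hz : ∀ i ≤ N, 0 < z i ∧ Ok l (z i))
    (hzm : ∀ i < N, z i < z (i + 1)) (hsg : ∀ i ≤ N, 0 < (-1) ^ i * (wd l (z i) - z i)) :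
    ∃ (p r s : ℝ → ℝ) (y : ℕ → ℝ → ℝ), IsTrig (8 * l.length) p ∧ IsTrig (8 * l.length) r ∧
      IsTrig (8 * l.length) s ∧
      (∀ i ≤ N, ∀ x ∈ Icc (-Real.pi) Real.pi, 0 < y i x ∧ y i x < 1 ∧ 0 < r x * y i x - s x ∧
        HasDerivWithinAt (y i) ((p x * y i x + 0) / (r x * y i x - s x))
          (Icc (-Real.pi) Real.pi) x) ∧
      (∀ i < N, y i (-Real.pi) < y (i + 1) (-Real.pi)) ∧
      (∀ i < N, (y i Real.pi - y i (-Real.pi)) *
        (y (i + 1) Real.pi - y (i + 1) (-Real.pi)) < 0) := by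
  have h := D_main (2 * l.length) l.length rfl hl l N z rfl hpos hz hzm hsg
  rwa [show 4 * (2 * l.length) = 8 * l.length by ring] at h

end Pool.Agent.Lib.MP_95e7ec_an.Dy
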