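import Pool.Agent.Lib.MP_95e7ec_an.Dy.DPeriod
import Pool.Agent.Lib.MP_95e7ec_an.Pw.BPeriod

/-!
# One period of `h = - cos (n x) / 4`
-/

set_option autoImplicit false

open Set Filter Topology

namespace Pool.Agent.Lib.MP_95e7ec_an.Dy

open Pool.Agent.Lib.MP_95e7ec_an.Pw

theorem exists_perRel (n j : ℕ) (hn : 0 < n) (a : ℝ → ℝ) (ha : Continuous a) (μ L : ℝ)
    (hμ : 0 < μ) (hpos : ∀ x, 0 < a x)
    (hL : ∀ x ∈ Icc (pl n j) (pl n (j + 1)), |a x - μ| ≤ L * |hh n x|) :
    ∃ (A r0 : ℝ) (W : ℝ → ℝ) (B : (ℝ → ℝ) → ℝ) (Y : (ℝ → ℝ) → ℝ → ℝ → ℝ),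
      PerRel n j a μ A r0 W B Y := by
  have hn1 : (0 : ℝ) < n := by exact_mod_cast hn
  have hpi := Real.pi_pos
  have o1 := pl_lt_z0 n j hn
  have o2 := z0_lt_pm n j hn
  have o3 := pm_lt_z1 n j hn
  have o4 := z1_lt_pl n j hn
  -- bounds of `a`
  obtain ⟨K1, hK1, hK1a⟩ : ∃ K1 : ℝ, 0 < K1 ∧
      ∀ x ∈ Icc (pl n j) (pl n (j + 1)), a x ≤ K1 ∧ 1 ≤ K1 * a x := by
    have hc : IsCompact (Icc (pl n j) (pl n (j + 1))) := isCompact_Icc
    obtain ⟨M1, hM1⟩ := hc.exists_bound_of_continuousOn ha.continuousOn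
    obtain ⟨M2, hM2⟩ := hc.exists_bound_of_continuousOn
      (ContinuousOn.inv₀ ha.continuousOn fun x _ => (hpos x).ne')
    refine ⟨max 1 (max M1 M2), lt_of_lt_of_le one_pos (le_max_left _ _), fun x hx => ⟨?_, ?_⟩⟩
    · have h1 := hM1 x hx
      rw [Real.norm_eq_abs, abs_of_pos (hpos x)] at h1
      exact h1.trans ((le_max_left _ _).trans (le_max_right _ _))
    · have h1 := hM2 x hx
      rw [Real.norm_eq_abs, Pi.inv_apply, abs_of_pos (inv_pos.2 (hpos x))] at h1
      have h2 : (a x)⁻¹ ≤ max 1 (max M1 M2) :=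
        h1.trans ((le_max_right _ _).trans (le_max_right _ _))
      have h3 := mul_le_mul_of_nonneg_right h2 (hpos x).le
      rwa [inv_mul_cancel₀ (hpos x).ne'] at h3
  set K : ℝ := 1 + K1 + μ + μ⁻¹ + |L| + n + 2 * Real.pi / n with hKdef
  have hq1 : 0 < μ⁻¹ := inv_pos.2 hμ
  have hq2 : 0 ≤ |L| := abs_nonneg L
  have hq3 : 0 < 2 * Real.pi / n := by positivity
  have hK0 : 1 ≤ K := by
    rw [hKdef]
    linarith
  have hKK1 : K1 ≤ K := by
    rw [hKdef]
    linarith
  have hKmu : μ ≤ K := by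
    rw [hKdef]
    linarith
  have hKmu' : 1 ≤ K * μ := by
    have h1 : μ⁻¹ ≤ K := by
      rw [hKdef]
      linarith
    have h2 := mul_le_mul_of_nonneg_right h1 hμ.le
    rwa [inv_mul_cancel₀ hμ.ne'] at h2
  have hKL : L ≤ K := by
    have := le_abs_self L
    rw [hKdef]
    linarith
  have hKn : (n : ℝ) ≤ K := by
    rw [hKdef]
    linarith
  have hKp : 2 * Real.pi / n ≤ K := by
    rw [hKdef]
    linarith
  have hlen : pl n (j + 1) - pl n j = 2 * Real.pi / n := by
    unfold pl
    push_cast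
    field_simp
    ring
  have hlow : ∀ {x c v : ℝ}, (n : ℝ) / (2 * Real.pi) * |x - c| ≤ |v| → |x - c| ≤ K * |v| := by
    intro x c v h1
    have h2 : |x - c| ≤ 2 * Real.pi / n * |v| := by
      have h3 := mul_le_mul_of_nonneg_left h1 hq3.le
      have h4 : 2 * Real.pi / n * (n / (2 * Real.pi) * |x - c|) = |x - c| := by
        field_simp
      rwa [h4] at h3
    exact h2.trans (mul_le_mul_of_nonneg_right hKp (abs_nonneg _))
  have hlip : ∀ x ∈ Icc (pl n j) (pl n (j + 1)), |a x - μ| ≤ K * |hh n x| := fun x hx =>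
    (hL x hx).trans (mul_le_mul_of_nonneg_right hKL (abs_nonneg _))
  have hup : ∀ x ∈ Icc (pl n j) (pl n (j + 1)), a x ≤ K := fun x hx =>
    (hK1a x hx).1.trans hKK1
  have hlo : ∀ x ∈ Icc (pl n j) (pl n (j + 1)), 1 ≤ K * a x := fun x hx =>
    (hK1a x hx).2.trans (mul_le_mul_of_nonneg_right hKK1 (hpos x).le)
  have hhd : ∀ x, |hd n x| ≤ K := fun x => by
    have := hd_abs_le n x
    linarith
  have hl : Hf (pl n j) (z0 n j) (pm n j) a (hh n) (hd n) μ K :=
    { K1 := hK0
      lt0 := o1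
      lt1 := o2
      len := by linarith
      cont_a := ha
      cont_h1 := continuous_hd n
      deriv := hasDerivAt_hh n
      h_start := hh_pl n j hn
      h_zero := hh_z0 n j hn
      h_end := hh_pm n j hn
      h1_pos := fun x hx => hd_pos_left n j hn hx
      h1_le := fun x _ => hhd x
      a_lo := fun x hx => hlo x ⟨hx.1, by linarith [hx.2]⟩
      a_up := fun x hx => hup x ⟨hx.1, by linarith [hx.2]⟩
      mu_lo := hKmu'
      mu_up := hKmu
      a_lip := fun x hx => hlip x ⟨hx.1, by linarith [hx.2]⟩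
      h_lower := fun x hx => hlow (hh_lower0 n j hn hx) }
  have hr : Hf (-pl n (j + 1)) (-z1 n j) (-pm n j) (mir a) (mir (hh n)) (nmir (hd n)) μ K :=
    { K1 := hK0
      lt0 := by linarith
      lt1 := by linarith
      len := by linarith
      cont_a := ha.comp continuous_neg
      cont_h1 := ((continuous_hd n).comp continuous_neg).neg
      deriv := by
        intro x
        have h1 := (hasDerivAt_hh n (-x)).comp x (hasDerivAt_neg x)
        refine HasDerivAt.congr_deriv h1 ?_
        unfold nmir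
        ring
      h_start := by
        unfold mir
        rw [neg_neg, hh_pl n (j + 1) hn]
      h_zero := by
        unfold mir
        rw [neg_neg, hh_z1 n j hn]
      h_end := by
        unfold mir
        rw [neg_neg, hh_pm n j hn]
      h1_pos := by
        intro x hx
        unfold nmir
        have := hd_neg_right n j hn (x := -x) ⟨by linarith [hx.2], by linarith [hx.1]⟩
        linarith
      h1_le := by
        intro x _
        unfold nmir
        rw [abs_neg]
        exact hhd (-x)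
      a_lo := fun x hx => hlo (-x) ⟨by linarith [hx.2], by linarith [hx.1]⟩
      a_up := fun x hx => hup (-x) ⟨by linarith [hx.2], by linarith [hx.1]⟩
      mu_lo := hKmu'
      mu_up := hKmu
      a_lip := fun x hx => hlip (-x) ⟨by linarith [hx.2], by linarith [hx.1]⟩
      h_lower := by
        intro x hx
        have h1 := hh_lower1 n j hn (x := -x) ⟨by linarith [hx.2], by linarith [hx.1]⟩
        unfold mir
        rw [show |x - -z1 n j| = |-x - z1 n j| by rw [← abs_neg]; ring_nf]
        exact hlow h1 }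
  obtain ⟨A, r0, W, B, Y, hA, hr0, hWc, hW1, hW2, hmain, hlin, hcont⟩ := period_rel hl hr
  refine ⟨A, r0, W, B, Y, ?_⟩
  exact
    { Apos := hA
      r0pos := hr0
      W_cont := hWc
      W_pos := by
        intro x hx hne
        rcases lt_or_gt_of_ne hne with h1 | h1
        · exact hW1 x ⟨hx.1, h1⟩
        · exact hW2 x ⟨h1, hx.2⟩
      main := hmain
      lin := hlin
      cont := hcont }

end Pool.Agent.Lib.MP_95e7ec_an.Dy
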