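import Pool.Agent.Lib.MP_95e7ec_an.Dy.DHalf
import Pool.Agent.Lib.MP_95e7ec_an.Pw.Ode

/-!
# One period in the relative form
-/

set_option autoImplicit false

open Set Filter Topology MeasureTheory

namespace Pool.Agent.Lib.MP_95e7ec_an.Dy

open Pool.Agent.Lib.MP_95e7ec_an.Pw

section

variable {α x0 β x1 γ : ℝ} {a h h1 : ℝ → ℝ} {mu K : ℝ}

/-- `v ↦ (v - 1/4) v^mu` is strictly increasing in the region. -/
theorem phi_strictMono (hK : 1 ≤ K) (hm : 1 ≤ K * mu) (hm' : mu ≤ K) :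
    StrictMonoOn (fun v : ℝ => (v - 1 / 4) * v ^ mu) {v | Reg K (1 / 4) v} := by
  have hoc : OrdConnected {v : ℝ | Reg K (1 / 4) v} :=
    ⟨fun x hx y hy z hz => Reg.between hK hx hy hz⟩
  have hder : ∀ v : ℝ, 0 < v → HasDerivAt (fun v : ℝ => (v - 1 / 4) * v ^ mu)
      (1 * v ^ mu + (v - 1 / 4) * (mu * v ^ (mu - 1))) v := by
    intro v hv
    exact ((hasDerivAt_id v).sub_const (1 / 4)).mul (Real.hasDerivAt_rpow_const (Or.inl hv.ne'))
  refine strictMonoOn_of_deriv_pos hoc.convex ?_ ?_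
  · intro v hv
    exact (hder v hv.1).continuousAt.continuousWithinAt
  · intro v hv
    have hv'' : v ∈ {v : ℝ | Reg K (1 / 4) v} := interior_subset hv
    have hv' : Reg K (1 / 4) v := hv''
    have hv0 := hv'.1
    rw [(hder v hv0).deriv]
    have e : v ^ mu = v ^ (mu - 1) * v := by
      rw [Real.rpow_sub_one hv0.ne']; field_simp
    have e2 : 0 < v ^ (mu - 1) := Real.rpow_pos_of_pos hv0 _
    rw [e]
    have e3 : 1 * (v ^ (mu - 1) * v) + (v - 1 / 4) * (mu * v ^ (mu - 1)) =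
        v ^ (mu - 1) * (v + mu * (v - 1 / 4)) := by ring
    rw [e3]
    refine mul_pos e2 ?_
    have e4 := hv'.lin_ge hK hm hm'
    have e5 := hv'.s_pos
    by_contra hc
    rw [not_lt] at hc
    nlinarith

/-- The mirrored right hand side. -/
theorem rhs_mirK (g : ℝ → ℝ) (x v : ℝ) :
    rhs (mir a) (mir h) (nmir h1) (fun t => mir h t * nmir g t) x v =
      -rhs a h h1 (fun t => h t * g t) (-x) v := by
  unfold rhs den mir nmir
  ring

theorem h1_end (D : Hf α x0 β a h h1 mu K) : 0 ≤ h1 β := by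
  have hlt : α < β := D.lt
  have hcl : β ∈ closure (Ioo α β) := by
    rw [closure_Ioo hlt.ne]; exact ⟨hlt.le, le_refl _⟩
  have := mem_closure_iff_nhdsWithin_neBot.1 hcl
  exact ge_of_tendsto (D.cont_h1.continuousWithinAt (s := Ioo α β) (x := β))
    (eventually_nhdsWithin_of_forall fun t ht => (D.h1_pos t ht).le)

theorem h1_midK (Dl : Hf α x0 β a h h1 mu K)
    (Dr : Hf (-γ) (-x1) (-β) (mir a) (mir h) (nmir h1) mu K) : h1 β = 0 := by
  have e1 := h1_end Dl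
  have e2 := h1_end Dr
  unfold nmir at e2
  rw [neg_neg] at e2
  linarith

theorem wK_end (h0 : h1 β = 0) : wK mu a h h1 α β β = 0 := by
  unfold wK wgt
  rw [h0]
  ring

/-- The weight of a period. -/
noncomputable def WP (mu : ℝ) (a h h1 : ℝ → ℝ) (α β γ Ar x : ℝ) : ℝ :=
  if x ≤ β then 1 / Ar * wK mu a h h1 α β x
  else 1 / Ar * wK mu (mir a) (mir h) (nmir h1) (-γ) (-β) (-x)

theorem WP_left {Ar x : ℝ} (hx : x ≤ β) : WP mu a h h1 α β γ Ar x =
    1 / Ar * wK mu a h h1 α β x := by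
  unfold WP; rw [if_pos hx]

theorem WP_right (Dl : Hf α x0 β a h h1 mu K)
    (Dr : Hf (-γ) (-x1) (-β) (mir a) (mir h) (nmir h1) mu K) {Ar x : ℝ} (hx : β ≤ x) :
    WP mu a h h1 α β γ Ar x = 1 / Ar * wK mu (mir a) (mir h) (nmir h1) (-γ) (-β) (-x) := by
  rcases hx.lt_or_eq with hx | hx
  · unfold WP; rw [if_neg (not_le.2 hx)]
  · subst hx
    have e0 := h1_midK Dl Dr
    rw [WP_left (le_refl _), wK_end e0, wK_end]
    unfold nmir
    rw [neg_neg, e0, neg_zero]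

theorem WP_cont_left (Dl : Hf α x0 β a h h1 mu K) {Ar : ℝ} :
    ContinuousOn (WP mu a h h1 α β γ Ar) (Icc x0 β) :=
  ((wK_cont Dl).const_mul _).congr fun _ hx => WP_left hx.2

theorem WP_cont_right (Dl : Hf α x0 β a h h1 mu K)
    (Dr : Hf (-γ) (-x1) (-β) (mir a) (mir h) (nmir h1) mu K) {Ar : ℝ} :
    ContinuousOn (WP mu a h h1 α β γ Ar) (Icc β x1) := by
  have e1 : ContinuousOn (fun x => wK mu (mir a) (mir h) (nmir h1) (-γ) (-β) (-x))
      (Icc β x1) := by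
    refine (wK_cont Dr).comp continuous_neg.continuousOn ?_
    intro x hx
    exact ⟨by linarith [hx.2], by linarith [hx.1]⟩
  exact (e1.const_mul _).congr fun x hx => WP_right Dl Dr hx.1

theorem WP_cont (Dl : Hf α x0 β a h h1 mu K)
    (Dr : Hf (-γ) (-x1) (-β) (mir a) (mir h) (nmir h1) mu K) {Ar : ℝ} :
    ContinuousOn (WP mu a h h1 α β γ Ar) (Icc x0 x1) := by
  have h0 : β < x1 := by linarith [Dr.lt1]
  have e := (WP_cont_left (γ := γ) (Ar := Ar) Dl).union_of_isClosed (WP_cont_right Dl Dr)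
    isClosed_Icc isClosed_Icc
  rwa [Icc_union_Icc_eq_Icc Dl.lt1.le h0.le] at e

/-- The integral of the weight of a period. -/
theorem integral_WP (Dl : Hf α x0 β a h h1 mu K)
    (Dr : Hf (-γ) (-x1) (-β) (mir a) (mir h) (nmir h1) mu K) {Ar : ℝ} {g : ℝ → ℝ}
    (hg : Continuous g) :
    ∫ x in x0..x1, g x * WP mu a h h1 α β γ Ar x =
      1 / Ar * ((∫ x in x0..β, wK mu a h h1 α β x * g x) -
          ∫ x in (-x1)..(-β), wK mu (mir a) (mir h) (nmir h1) (-γ) (-β) x * nmir g x) := by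
  have h0 := Dl.lt1.le
  have h1' : β ≤ x1 := by linarith [Dr.lt1]
  have i1 : IntervalIntegrable (fun x => g x * WP mu a h h1 α β γ Ar x) volume x0 β := by
    refine ContinuousOn.intervalIntegrable ?_
    rw [uIcc_of_le h0]
    exact hg.continuousOn.mul (WP_cont_left Dl)
  have i2 : IntervalIntegrable (fun x => g x * WP mu a h h1 α β γ Ar x) volume β x1 := by
    refine ContinuousOn.intervalIntegrable ?_
    rw [uIcc_of_le h1']
    exact hg.continuousOn.mul (WP_cont_right Dl Dr)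
  rw [← intervalIntegral.integral_add_adjacent_intervals i1 i2]
  have e1 : ∫ x in x0..β, g x * WP mu a h h1 α β γ Ar x =
      1 / Ar * ∫ x in x0..β, wK mu a h h1 α β x * g x := by
    rw [← intervalIntegral.integral_const_mul]
    refine intervalIntegral.integral_congr fun x hx => ?_
    rw [uIcc_of_le h0] at hx
    rw [WP_left hx.2]; ring
  have e2 : ∫ x in β..x1, g x * WP mu a h h1 α β γ Ar x =
      1 / Ar * -∫ x in (-x1)..(-β), wK mu (mir a) (mir h) (nmir h1) (-γ) (-β) x * nmir g x := by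
    rw [← intervalIntegral.integral_neg, ← intervalIntegral.integral_const_mul,
      ← intervalIntegral.integral_comp_neg]
    refine intervalIntegral.integral_congr fun x hx => ?_
    rw [uIcc_of_le h1'] at hx
    rw [WP_right Dl Dr hx.1]
    unfold nmir
    rw [neg_neg]; ring
  rw [e1, e2]; ring

theorem Adm.mono_r {α β r r' : ℝ} {g : ℝ → ℝ} (hg : Adm α β r g) (hr : r ≤ r') :
    Adm α β r' g := ⟨hg.1, fun x hx => (hg.2 x hx).trans hr⟩

theorem Adm.left {α β γ r : ℝ} {g : ℝ → ℝ} (hg : Adm α γ r g) (hβ : β ≤ γ) : Adm α β r g :=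
  ⟨hg.1, fun x hx => hg.2 x ⟨hx.1, hx.2.trans hβ⟩⟩

theorem Adm.right {α β γ r : ℝ} {g : ℝ → ℝ} (hg : Adm α γ r g) (hβ : α ≤ β) :
    Adm (-γ) (-β) r (nmir g) := by
  refine ⟨(hg.1.comp continuous_neg).neg, fun x hx => ?_⟩
  unfold nmir
  rw [abs_neg]
  exact hg.2 (-x) ⟨by linarith [hx.2], by linarith [hx.1]⟩

/-- Solutions increase in `x`. -/
theorem sol_mono (D : Hf α x0 β a h h1 mu K) {g y : ℝ → ℝ} (hg : Adm α β (1 / (2 * K ^ 2)) g)
    (hS : SolK K a h h1 g α β y) : MonotoneOn y (Icc α β) := by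
  refine monotoneOn_of_deriv_nonneg (convex_Icc _ _)
    (fun t ht => (hS t ht).2.continuousWithinAt) ?_ ?_
  · intro t ht
    rw [interior_Icc] at ht
    exact ((hS t ⟨ht.1.le, ht.2.le⟩).2.hasDerivAt
      (Icc_mem_nhds ht.1 ht.2)).differentiableAt.differentiableWithinAt
  · intro t ht
    rw [interior_Icc] at ht
    have ht' : t ∈ Icc α β := ⟨ht.1.le, ht.2.le⟩
    rw [((hS t ht').2.hasDerivAt (Icc_mem_nhds ht.1 ht.2)).deriv]
    unfold rhs
    have hK := D.K0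
    have e1 : |h1 t * (h t * g t)| ≤ 1 := by
      rw [abs_mul, abs_mul]
      have k1 := D.h1_le t ht'
      have k2 := D.abs_h_le ht'
      have k3 := hg.2 t ht'
      have k4 : |h t| * |g t| ≤ 1 / 4 * (1 / (2 * K ^ 2)) :=
        mul_le_mul k2 k3 (abs_nonneg _) (by norm_num)
      have k5 : |h1 t| * (|h t| * |g t|) ≤ K * (1 / 4 * (1 / (2 * K ^ 2))) :=
        mul_le_mul k1 k4 (by positivity) hK.le
      refine k5.trans ?_
      have k6 : K * (1 / 4 * (1 / (2 * K ^ 2))) = 1 / (8 * K) := by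
        field_simp
        norm_num
      rw [k6, div_le_one (by positivity)]
      linarith [D.K1]
    have e2 := (abs_le.1 e1).1
    have e3 := D.h1_pos t ht
    have e4 := D.den_pos ht' (hS t ht').1
    have e5 := (hS t ht').1.1
    refine div_nonneg (mul_nonneg (mul_nonneg e3.le ?_) e5.le) e4.le
    linarith

theorem PP_end (D : Hf α x0 β a h h1 mu K) (y : ℝ → ℝ) :
    PP mu h y β = (y β - 1 / 4) * (y β) ^ mu := by
  unfold PP; rw [D.h_end]

theorem reg_end (D : Hf α x0 β a h h1 mu K) {g y : ℝ → ℝ} (hS : SolK K a h h1 g α β y) :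
    Reg K (1 / 4) (y β) := by
  have := (hS β D.right_mem).1
  rwa [D.h_end] at this

/-- If the end value of `P` is small, the solution stays below `1/2`. -/
theorem sol_lt_halfK (D : Hf α x0 β a h h1 mu K) {g y : ℝ → ℝ}
    (hg : Adm α β (1 / (2 * K ^ 2)) g) (hS : SolK K a h h1 g α β y)
    (hP : PP mu h y β < 1 / 4 * (1 / 2 : ℝ) ^ mu) {x : ℝ} (hx : x ∈ Icc α β) : y x < 1 / 2 := by
  have e1 := sol_mono D hg hS hx D.right_mem hx.2
  refine e1.trans_lt ?_
  by_contra hc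
  rw [not_lt] at hc
  have hK := D.K1
  have r1 : Reg K (1 / 4) (1 / 2) := ⟨by norm_num, by nlinarith, by norm_num⟩
  have e2 := (phi_strictMono hK D.mu_lo D.mu_up).monotoneOn r1 (reg_end D hS) hc
  rw [PP_end D] at hP
  have e3 : (1 / 2 - 1 / 4 : ℝ) * (1 / 2) ^ mu ≤ (y β - 1 / 4) * (y β) ^ mu := e2
  have e4 : (1 / 2 - 1 / 4 : ℝ) = 1 / 4 := by norm_num
  rw [e4] at e3
  linarith

theorem HalfRel.P0_small {A r0 : ℝ} {P0 : (ℝ → ℝ) → ℝ} {Y : (ℝ → ℝ) → ℝ → ℝ → ℝ}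
    (D : Hf α x0 β a h h1 mu K) (H : HalfRel α x0 β a h h1 mu K A r0 P0 Y) :
    ∃ C r : ℝ, 0 ≤ C ∧ 0 < r ∧ ∀ η : ℝ, 0 < η → η ≤ r → ∀ g, Adm α β η g →
      |P0 g| ≤ C * η := by
  obtain ⟨r, hr, hl⟩ := H.lin 1 one_pos
  obtain ⟨B, hB⟩ := isCompact_Icc.exists_bound_of_continuousOn (wK_cont D)
  have hB0 : 0 ≤ B := (norm_nonneg _).trans (hB x0 ⟨le_refl _, D.lt1.le⟩)
  refine ⟨B * (β - x0) + 1, r, ?_, hr, ?_⟩
  · have := mul_nonneg hB0 (sub_nonneg.2 D.lt1.le)
    linarith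
  intro η hη hηr g hg
  have e1 := hl η hη hηr g hg
  have e2 : |∫ x in x0..β, wK mu a h h1 α β x * g x| ≤ B * η * |β - x0| := by
    rw [← Real.norm_eq_abs]
    refine intervalIntegral.norm_integral_le_of_norm_le_const fun x hx => ?_
    rw [uIoc_of_le D.lt1.le] at hx
    rw [norm_mul]
    refine mul_le_mul (hB x ⟨hx.1.le, hx.2⟩) ?_ (norm_nonneg _) hB0
    exact hg.2 x ⟨by linarith [D.lt0, hx.1], hx.2⟩
  rw [abs_of_pos (sub_pos.2 D.lt1)] at e2
  have e3 := abs_sub_abs_le_abs_sub (P0 g) (∫ x in x0..β, wK mu a h h1 α β x * g x)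
  nlinarith

theorem period_rel {α x0 β x1 γ : ℝ} {a h h1 : ℝ → ℝ} {mu K : ℝ}
    (Dl : Hf α x0 β a h h1 mu K)
    (Dr : Hf (-γ) (-x1) (-β) (mir a) (mir h) (nmir h1) mu K) :
    ∃ (A r0 : ℝ) (W : ℝ → ℝ) (B : (ℝ → ℝ) → ℝ) (Y : (ℝ → ℝ) → ℝ → ℝ → ℝ), 0 < A ∧ 0 < r0 ∧
      ContinuousOn W (Icc x0 x1) ∧ (∀ x ∈ Ioo x0 β, 0 < W x) ∧ (∀ x ∈ Ioo β x1, 0 < W x) ∧
      (∀ δ : ℝ, 0 < δ → ∃ r : ℝ, 0 < r ∧ ∀ g : ℝ → ℝ, Adm α γ r g →
        ∀ u : ℝ, 0 < u → u ≤ r → δ * u ^ mu < A * u ^ mu + B g →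
        Y g u α = u ∧
          (∀ x ∈ Icc α γ, 0 < Y g u x ∧ Y g u x < 1 / 2 ∧ 0 < den a h x (Y g u x) ∧
            HasDerivWithinAt (Y g u) (rhs a h h1 (fun t => h t * g t) x (Y g u x))
              (Icc α γ) x) ∧
          |Y g u γ ^ mu - (A * u ^ mu + B g)| ≤ δ * (u ^ mu + |B g|)) ∧
      (∀ δ : ℝ, 0 < δ → ∃ r : ℝ, 0 < r ∧ ∀ η : ℝ, 0 < η → η ≤ r → ∀ g : ℝ → ℝ,
        Adm α γ η g → |B g - ∫ x in x0..x1, g x * W x| ≤ δ * η) ∧
      (∀ ε : ℝ, 0 < ε → ∃ δ : ℝ, 0 < δ ∧ ∀ g g' : ℝ → ℝ, Adm α γ r0 g → Adm α γ r0 g' →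
        (∀ x ∈ Icc α γ, |g x - g' x| ≤ δ) → |B g - B g'| ≤ ε) := by
  obtain ⟨Al, rl, Pl, Yl, HL⟩ := half_rel Dl
  obtain ⟨Ar, rr, Pr, Yr, HR⟩ := half_rel Dr
  have hAl := HL.Apos
  have hAr := HR.Apos
  have hβγ : β < γ := by linarith [Dr.lt]
  have hαβ : α < β := Dl.lt
  have hmu := Dl.mu_pos
  have hK := Dl.K1
  obtain ⟨ρ, hρ0, hρr, hρ4, Hρ⟩ := HR.rel (Ar / 2) (by linarith)
  obtain ⟨Cl, sl, hCl, hsl, hPl⟩ := HL.P0_small Dl
  obtain ⟨Cr, sr, hCr, hsr, hPr⟩ := HR.P0_small Dr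
  classical
  let vv : (ℝ → ℝ) → ℝ → ℝ := fun g u =>
    if hex : ∃ v ∈ Ioc (0 : ℝ) ρ, Yr (nmir g) v (-β) = Yl g u β then hex.choose else 1
  let B : (ℝ → ℝ) → ℝ := fun g => (Pl g - Pr (nmir g)) / Ar
  let Y : (ℝ → ℝ) → ℝ → ℝ → ℝ := fun g u x =>
    if x ≤ β then Yl g u x else Yr (nmir g) (vv g u) (-x)
  refine ⟨Al / Ar, min rl rr, WP mu a h h1 α β γ Ar, B, Y, div_pos hAl hAr,
    lt_min HL.r0pos HR.r0pos, WP_cont Dl Dr, ?_, ?_, ?_, ?_, ?_⟩
  · intro x hx
    rw [WP_left hx.2.le]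
    exact mul_pos (div_pos one_pos hAr) (wK_pos Dl hx)
  · intro x hx
    rw [WP_right Dl Dr hx.1.le]
    exact mul_pos (div_pos one_pos hAr) (wK_pos Dr ⟨by linarith [hx.2], by linarith [hx.1]⟩)
  · -- the main estimate
    intro δ hδ
    -- the precision on both halves
    obtain ⟨δ1, hδ10, hδ1a, hδ1b, hδ1c⟩ : ∃ δ1 : ℝ, 0 < δ1 ∧ δ1 ≤ Ar * (δ / 2) ∧ δ1 ≤ Ar / 2 ∧
        δ1 * (2 * (Al / Ar) + 3 + δ) ≤ Ar * δ := by
      have hq : 0 < 2 * (Al / Ar) + 3 + δ := by positivity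
      refine ⟨min (min (Ar * (δ / 2)) (Ar / 2)) (Ar * δ / (2 * (Al / Ar) + 3 + δ)),
        lt_min (lt_min (by positivity) (by positivity)) (by positivity), ?_, ?_, ?_⟩
      · exact (min_le_left _ _).trans (min_le_left _ _)
      · exact (min_le_left _ _).trans (min_le_right _ _)
      · rw [← le_div_iff₀ hq]
        exact min_le_right _ _
    obtain ⟨ρl, hρl0, hρlr, hρl4, Hl⟩ := HL.rel δ1 hδ10
    obtain ⟨ρ2, hρ20, hρ2r, hρ24, H2⟩ := HR.rel δ1 hδ10
    -- the upper end for `v`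
    obtain ⟨vh, hvh0, hvhρ, hvh2⟩ : ∃ vh : ℝ, 0 < vh ∧ vh ≤ ρ ∧ vh ≤ ρ2 :=
      ⟨min ρ ρ2, lt_min hρ0 hρ20, min_le_left _ _, min_le_right _ _⟩
    have hvhm : 0 < vh ^ mu := Real.rpow_pos_of_pos hvh0 _
    have hhalf : 0 < 1 / 4 * (1 / 2 : ℝ) ^ mu := by positivity
    -- smallness of `r`
    have hsmall : ∀ᶠ r : ℝ in 𝓝[>] 0, r < ρl ∧ r < vh ∧ r < sl ∧ r < sr ∧
        (Al + δ1) * r ^ mu + Cl * r < 1 / 4 * (1 / 2 : ℝ) ^ mu ∧
        Al * r ^ mu + (Cl + Cr) * r + δ1 * r ^ mu < Ar / 2 * vh ^ mu := by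
      have key : ∀ (f : ℝ → ℝ) (d : ℝ), Continuous f → f 0 < d → ∀ᶠ e : ℝ in 𝓝[>] 0, f e < d :=
        fun f d hf h0 => (hf.continuousAt.eventually_lt continuousAt_const h0).filter_mono
          nhdsWithin_le_nhds
      have hc : Continuous fun r : ℝ => r ^ mu := Real.continuous_rpow_const hmu.le
      have h0 : (0 : ℝ) ^ mu = 0 := Real.zero_rpow hmu.ne'
      refine (key _ _ continuous_id hρl0).and ((key _ _ continuous_id hvh0).and
        ((key _ _ continuous_id hsl).and ((key _ _ continuous_id hsr).and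
        ((key (fun r : ℝ => (Al + δ1) * r ^ mu + Cl * r) _
          ((continuous_const.mul hc).add (continuous_const.mul continuous_id)) ?_).and
        (key (fun r : ℝ => Al * r ^ mu + (Cl + Cr) * r + δ1 * r ^ mu) _
          (((continuous_const.mul hc).add (continuous_const.mul continuous_id)).add
            (continuous_const.mul hc)) ?_)))))
      · rw [h0, mul_zero, mul_zero, add_zero]
        exact hhalf
      · rw [h0, mul_zero, mul_zero, mul_zero, add_zero, add_zero]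
        exact mul_pos (by linarith) hvhm
    obtain ⟨r, ⟨hr1, hr2, hr3, hr4, hr5, hr6⟩, hr0⟩ :=
      (hsmall.and self_mem_nhdsWithin).exists
    replace hr0 : 0 < r := hr0
    refine ⟨r, hr0, ?_⟩
    intro g hg u hu hur hT
    have hgl : Adm α β r g := hg.left hβγ.le
    have hgr : Adm (-γ) (-β) r (nmir g) := hg.right hαβ.le
    have hum : 0 < u ^ mu := Real.rpow_pos_of_pos hu _
    have humr : u ^ mu ≤ r ^ mu := Real.rpow_le_rpow hu.le hur hmu.le
    have hrm : 0 < r ^ mu := Real.rpow_pos_of_pos hr0 _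
    have hu4 : u ≤ 1 / 4 := by linarith
    obtain ⟨hlα, hlS⟩ := HL.sol g (hgl.mono_r (by linarith)) u ⟨hu, hu4⟩
    have FL := Hl g (hgl.mono_r hr1.le) u ⟨hu, by linarith⟩
    have FLa := abs_le.1 FL
    have P1 := hPl r hr0 hr3.le g hgl
    have P2 := hPr r hr0 hr4.le (nmir g) hgr
    have P1a := abs_le.1 P1
    have P2a := abs_le.1 P2
    -- `T`
    obtain ⟨T, hTd⟩ : ∃ T, T = Al / Ar * u ^ mu + B g := ⟨_, rfl⟩
    rw [← hTd] at hT
    have hTA : Ar * T = Al * u ^ mu + (Pl g - Pr (nmir g)) := by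
      rw [hTd]
      show Ar * (Al / Ar * u ^ mu + (Pl g - Pr (nmir g)) / Ar) = _
      field_simp
    have hδu : 0 < δ * u ^ mu := mul_pos hδ hum
    have hArT : Ar * (δ * u ^ mu) < Ar * T := mul_lt_mul_of_pos_left hT hAr
    -- bounds of the end value
    have EL : PP mu h (Yl g u) β < 1 / 4 * (1 / 2 : ℝ) ^ mu := by
      have k1 : (Al + δ1) * u ^ mu ≤ (Al + δ1) * r ^ mu :=
        mul_le_mul_of_nonneg_left humr (by linarith)
      nlinarith [FLa.2, P1a.2]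
    -- solutions on the right half
    have solr : ∀ v ∈ Ioc (0 : ℝ) ρ, Yr (nmir g) v (-γ) = v ∧
        SolK K (mir a) (mir h) (nmir h1) (nmir g) (-γ) (-β) (Yr (nmir g) v) := fun v hv =>
      HR.sol (nmir g) (hgr.mono_r (by linarith)) v ⟨hv.1, by linarith [hv.2]⟩
    -- existence of `v`
    have hex : ∃ v ∈ Ioc (0 : ℝ) ρ, Yr (nmir g) v (-β) = Yl g u β := by
      obtain ⟨c, hc0, hc1, hcc⟩ : ∃ c : ℝ, 0 < c ∧ c ≤ 1 ∧ (Ar + δ1) * c ≤ Ar * (δ / 2) := by
        refine ⟨δ / 2 / (1 + δ / 2), by positivity, ?_, ?_⟩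
        · rw [div_le_one (by positivity)]
          linarith
        · have k1 : (Ar + δ1) * (δ / 2 / (1 + δ / 2)) ≤
              (Ar * (1 + δ / 2)) * (δ / 2 / (1 + δ / 2)) := by
            refine mul_le_mul_of_nonneg_right ?_ (by positivity)
            linarith
          refine k1.trans (le_of_eq ?_)
          field_simp
      obtain ⟨vl, hvld⟩ : ∃ vl, vl = c ^ (1 / mu) * u := ⟨_, rfl⟩
      have hcp : 0 < c ^ (1 / mu) := Real.rpow_pos_of_pos hc0 _
      have hcp1 : c ^ (1 / mu) ≤ 1 := Real.rpow_le_one hc0.le hc1 (by positivity)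
      have hvl0 : 0 < vl := by rw [hvld]; exact mul_pos hcp hu
      have hvlu : vl ≤ u := by rw [hvld]; nlinarith
      have hvlh : vl ≤ vh := by linarith
      have hvlm : vl ^ mu = c * u ^ mu := by
        rw [hvld, Real.mul_rpow hcp.le hu.le, ← Real.rpow_mul hc0.le, one_div_mul_cancel hmu.ne',
          Real.rpow_one]
      have hsub : Icc vl vh ⊆ Ioc (0 : ℝ) ρ := fun t ht =>
        ⟨hvl0.trans_le ht.1, ht.2.trans hvhρ⟩
      have hcont : ContinuousOn (fun v => (Yr (nmir g) v (-β) - 1 / 4) *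
          (Yr (nmir g) v (-β)) ^ mu) (Icc vl vh) := by
        have hc : ContinuousOn (fun z => Yr (nmir g) z (-β)) (Icc vl vh) :=
          (HR.cont_z (nmir g) (hgr.mono_r (by linarith))).mono fun t ht =>
            ⟨(hsub ht).1, (hsub ht).2.trans hρ4⟩
        exact (hc.sub continuousOn_const).mul (hc.rpow_const fun t ht => Or.inr hmu.le)
      have hφ : ∀ v, (Yr (nmir g) v (-β) - 1 / 4) * (Yr (nmir g) v (-β)) ^ mu =
          PP mu (mir h) (Yr (nmir g) v) (-β) := fun v => (PP_end Dr _).symm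
      have hlo := (abs_le.1 (H2 (nmir g) (hgr.mono_r (by linarith)) vl
        ⟨hvl0, by linarith⟩)).2
      have hhi := (abs_le.1 (H2 (nmir g) (hgr.mono_r (by linarith)) vh
        ⟨hvh0, hvh2⟩)).1
      have hmem : PP mu h (Yl g u) β ∈ Icc ((Yr (nmir g) vl (-β) - 1 / 4) *
          (Yr (nmir g) vl (-β)) ^ mu) ((Yr (nmir g) vh (-β) - 1 / 4) *
          (Yr (nmir g) vh (-β)) ^ mu) := by
        rw [hφ, hφ]
        constructor
        · rw [hvlm] at hlo
          have k1 : (Ar + δ1) * (c * u ^ mu) ≤ Ar * (δ / 2) * u ^ mu := by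
            rw [← mul_assoc]
            exact mul_le_mul_of_nonneg_right hcc hum.le
          have k2 : δ1 * u ^ mu ≤ Ar * (δ / 2) * u ^ mu :=
            mul_le_mul_of_nonneg_right hδ1a hum.le
          nlinarith [FLa.1]
        · have k1 : δ1 * vh ^ mu ≤ Ar / 2 * vh ^ mu :=
            mul_le_mul_of_nonneg_right hδ1b hvhm.le
          have k2 : Al * u ^ mu ≤ Al * r ^ mu := mul_le_mul_of_nonneg_left humr hAl.le
          have k3 : δ1 * u ^ mu ≤ δ1 * r ^ mu := mul_le_mul_of_nonneg_left humr hδ10.le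
          nlinarith [FLa.2, P1a.2, P2a.1]
      obtain ⟨v, hv, hve⟩ := intermediate_value_Icc hvlh hcont hmem
      refine ⟨v, hsub hv, ?_⟩
      refine (phi_strictMono hK Dl.mu_lo Dl.mu_up).injOn (reg_end Dr (solr v (hsub hv)).2)
        (reg_end Dl hlS) ?_
      rw [PP_end Dl] at hve
      exact hve
    have hvv : vv g u = hex.choose := dif_pos hex
    obtain ⟨hvm, hve⟩ := hex.choose_spec
    rw [← hvv] at hvm hve
    obtain ⟨v, hvd⟩ : ∃ v, v = vv g u := ⟨_, rfl⟩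
    rw [← hvd] at hvm hve
    obtain ⟨hrγ, hrS⟩ := solr v hvm
    have hv0 : 0 < v := hvm.1
    have hvm0 : 0 < v ^ mu := Real.rpow_pos_of_pos hv0 _
    have hPP : PP mu (mir h) (Yr (nmir g) v) (-β) = PP mu h (Yl g u) β := by
      rw [PP_end Dl, PP_end Dr, hve]
    -- first bound of `v`
    have R1 := Hρ (nmir g) (hgr.mono_r (by linarith)) v hvm
    rw [hPP] at R1
    have R1a := abs_le.1 R1
    have hvT : Ar / 2 * v ^ mu ≤ Ar * T + δ1 * u ^ mu := by
      nlinarith [FLa.2]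
    have hv2 : v ≤ ρ2 := by
      by_contra hcon
      rw [not_le] at hcon
      have k1 : vh ^ mu ≤ v ^ mu :=
        Real.rpow_le_rpow hvh0.le (hvh2.trans hcon.le) hmu.le
      have k2 : Al * u ^ mu ≤ Al * r ^ mu := mul_le_mul_of_nonneg_left humr hAl.le
      have k3 : δ1 * u ^ mu ≤ δ1 * r ^ mu := mul_le_mul_of_nonneg_left humr hδ10.le
      have k4 : Ar / 2 * vh ^ mu ≤ Ar / 2 * v ^ mu :=
        mul_le_mul_of_nonneg_left k1 (by linarith)
      nlinarith [P1a.2, P2a.1]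
    have R2 := H2 (nmir g) (hgr.mono_r (by linarith)) v ⟨hv0, hv2⟩
    rw [hPP] at R2
    have R2a := abs_le.1 R2
    have hvle : v ^ mu ≤ (2 * (Al / Ar) + δ) * u ^ mu + 2 * |B g| := by
      have k1 : Ar / 2 * v ^ mu ≤ Ar / 2 * ((2 * (Al / Ar) + δ) * u ^ mu + 2 * |B g|) := by
        have k2 : Ar * T ≤ Ar * (Al / Ar * u ^ mu + |B g|) := by
          refine mul_le_mul_of_nonneg_left ?_ hAr.le
          rw [hTd]
          linarith [le_abs_self (B g)]
        have k3 : δ1 * u ^ mu ≤ Ar * (δ / 2) * u ^ mu := mul_le_mul_of_nonneg_right hδ1a hum.le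
        have k4 : Ar / 2 * ((2 * (Al / Ar) + δ) * u ^ mu + 2 * |B g|) =
            Ar * (Al / Ar * u ^ mu + |B g|) + Ar * (δ / 2) * u ^ mu := by ring
        linarith
      exact le_of_mul_le_mul_left k1 (by linarith)
    have hfin : |v ^ mu - T| ≤ δ * (u ^ mu + |B g|) := by
      have k1 : |Ar * (v ^ mu - T)| ≤ δ1 * v ^ mu + δ1 * u ^ mu := by
        rw [abs_le, mul_sub, hTA]
        constructor
        · linarith [FLa.1, R2a.2, FLa.2, R2a.1]
        · linarith [FLa.1, R2a.2, FLa.2, R2a.1]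
      have hB0 := abs_nonneg (B g)
      have k2 : δ1 * v ^ mu + δ1 * u ^ mu ≤ Ar * (δ * (u ^ mu + |B g|)) := by
        have k3 : δ1 * v ^ mu ≤ δ1 * ((2 * (Al / Ar) + δ) * u ^ mu + 2 * |B g|) :=
          mul_le_mul_of_nonneg_left hvle hδ10.le
        have k5 : 0 < Al / Ar := div_pos hAl hAr
        have k4 : δ1 * ((2 * (Al / Ar) + δ) * u ^ mu + 2 * |B g|) + δ1 * u ^ mu ≤
            δ1 * (2 * (Al / Ar) + 3 + δ) * (u ^ mu + |B g|) := by
          have : 0 ≤ δ1 * (2 * u ^ mu + (2 * (Al / Ar) + 1 + δ) * |B g|) := by positivity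
          nlinarith
        have k6 : δ1 * (2 * (Al / Ar) + 3 + δ) * (u ^ mu + |B g|) ≤
            Ar * δ * (u ^ mu + |B g|) :=
          mul_le_mul_of_nonneg_right hδ1c (by linarith)
        linarith
      rw [abs_mul, abs_of_pos hAr] at k1
      exact le_of_mul_le_mul_left (k1.trans k2) hAr
    -- the solution
    have hyl : ∀ x ∈ Icc α β, Y g u x = Yl g u x := fun x hx => if_pos hx.2
    have hyr : ∀ x ∈ Icc β γ, Y g u x = Yr (nmir g) v (-x) := fun x hx => by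
      rcases hx.1.lt_or_eq with hlt | heq
      · rw [hvd]; exact if_neg (not_le.2 hlt)
      · show (if x ≤ β then Yl g u x else Yr (nmir g) (vv g u) (-x)) = Yr (nmir g) v (-x)
        rw [if_pos heq.ge, ← heq, hve]
    have SL1 : Sl (rhs a h h1 (fun t => h t * g t)) α β (Yl g u) := fun x hx => (hlS x hx).2
    have SL2 : Sl (rhs (mir a) (mir h) (nmir h1) (fun t => mir h t * nmir g t)) (-γ) (-β)
        (Yr (nmir g) v) := fun x hx => (hrS x hx).2
    have SL2' : Sl (rhs a h h1 (fun t => h t * g t)) β γ (fun x => Yr (nmir g) v (-x)) := by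
      have k := SL2.neg
      rw [neg_neg, neg_neg] at k
      refine k.congr fun x _ => ?_
      rw [rhs_mirK, neg_neg, neg_neg]
    have SLy : Sl (rhs a h h1 (fun t => h t * g t)) α γ (Y g u) :=
      Sl.glue hαβ.le hβγ.le (SL1.congr' hyl) (SL2'.congr' hyr)
    refine ⟨?_, ?_, ?_⟩
    · rw [hyl α Dl.left_mem]; exact hlα
    · intro x hx
      refine ⟨?_, ?_, ?_, SLy x hx⟩
      · rcases le_total x β with hxβ | hxβ
        · rw [hyl x ⟨hx.1, hxβ⟩]; exact (hlS x ⟨hx.1, hxβ⟩).1.1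
        · rw [hyr x ⟨hxβ, hx.2⟩]
          exact (hrS (-x) ⟨by linarith [hx.2], by linarith⟩).1.1
      · rcases le_total x β with hxβ | hxβ
        · rw [hyl x ⟨hx.1, hxβ⟩]
          exact sol_lt_halfK Dl (hgl.mono_r (by linarith [HL.r0le])) hlS EL ⟨hx.1, hxβ⟩
        · rw [hyr x ⟨hxβ, hx.2⟩]
          have hx' : -x ∈ Icc (-γ) (-β) := ⟨by linarith [hx.2], by linarith⟩
          refine sol_lt_halfK Dr (hgr.mono_r (by linarith [HR.r0le])) hrS ?_ hx'
          rw [hPP]; exact EL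
      · rcases le_total x β with hxβ | hxβ
        · rw [hyl x ⟨hx.1, hxβ⟩]
          exact Dl.den_pos ⟨hx.1, hxβ⟩ (hlS x ⟨hx.1, hxβ⟩).1
        · rw [hyr x ⟨hxβ, hx.2⟩]
          have hx' : -x ∈ Icc (-γ) (-β) := ⟨by linarith [hx.2], by linarith⟩
          have k3 := Dr.den_pos hx' (hrS (-x) hx').1
          have k4 : den (mir a) (mir h) (-x) (Yr (nmir g) v (-x)) =
              den a h x (Yr (nmir g) v (-x)) := by
            unfold den mir; rw [neg_neg]
          rwa [k4] at k3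
    · rw [hyr γ ⟨hβγ.le, le_refl _⟩, hrγ, ← hTd]
      exact hfin
  · -- the first order term
    intro δ hδ
    obtain ⟨r1, hr1, L1⟩ := HL.lin (δ * Ar / 2) (by positivity)
    obtain ⟨r2, hr2, L2⟩ := HR.lin (δ * Ar / 2) (by positivity)
    refine ⟨min r1 r2, lt_min hr1 hr2, ?_⟩
    intro η hη hηr g hg
    have k1 := L1 η hη (hηr.trans (min_le_left _ _)) g (hg.left hβγ.le)
    have k2 := L2 η hη (hηr.trans (min_le_right _ _)) (nmir g) (hg.right hαβ.le)
    rw [integral_WP Dl Dr hg.1]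
    obtain ⟨I, hI⟩ : ∃ I, I = ∫ x in x0..β, wK mu a h h1 α β x * g x := ⟨_, rfl⟩
    obtain ⟨J, hJ⟩ : ∃ J, J = ∫ x in (-x1)..(-β), wK mu (mir a) (mir h) (nmir h1) (-γ) (-β) x *
      nmir g x := ⟨_, rfl⟩
    rw [← hI] at k1 ⊢
    rw [← hJ] at k2 ⊢
    have k3 : B g - 1 / Ar * (I - J) = ((Pl g - I) - (Pr (nmir g) - J)) / Ar := by
      show (Pl g - Pr (nmir g)) / Ar - 1 / Ar * (I - J) = _
      field_simp
      ring
    rw [k3, abs_div, abs_of_pos hAr, div_le_iff₀ hAr]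
    have k4 := abs_sub (Pl g - I) (Pr (nmir g) - J)
    linarith
  · -- continuity
    intro ε hε
    obtain ⟨d1, hd1, L1⟩ := HL.cont (ε * Ar / 2) (by positivity)
    obtain ⟨d2, hd2, L2⟩ := HR.cont (ε * Ar / 2) (by positivity)
    refine ⟨min d1 d2, lt_min hd1 hd2, ?_⟩
    intro g g' hg hg' hgg
    have k1 := L1 g g' ((hg.left hβγ.le).mono_r (min_le_left _ _))
      ((hg'.left hβγ.le).mono_r (min_le_left _ _))
      (fun x hx => (hgg x ⟨hx.1, hx.2.trans hβγ.le⟩).trans (min_le_left _ _))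
    have k2 := L2 (nmir g) (nmir g') ((hg.right hαβ.le).mono_r (min_le_right _ _))
      ((hg'.right hαβ.le).mono_r (min_le_right _ _))
      (fun x hx => by
        have k5 := (hgg (-x) ⟨by linarith [hx.2], by linarith [hx.1]⟩).trans (min_le_right _ _)
        unfold nmir
        rw [show -g (-x) - -g' (-x) = -(g (-x) - g' (-x)) by ring, abs_neg]
        exact k5)
    have k3 : B g - B g' = ((Pl g - Pl g') - (Pr (nmir g) - Pr (nmir g'))) / Ar := by
      show (Pl g - Pr (nmir g)) / Ar - (Pl g' - Pr (nmir g')) / Ar = _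
      field_simp
      ring
    rw [k3, abs_div, abs_of_pos hAr, div_le_iff₀ hAr]
    have k4 := abs_sub (Pl g - Pl g') (Pr (nmir g) - Pr (nmir g'))
    linarith

end

end Pool.Agent.Lib.MP_95e7ec_an.Dy
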